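import Pool.Agent.FJ2.Defs

/-!
# FJ2: block diagonal frames
-/

set_option linter.unusedSectionVars false

namespace Pool.Agent.FJ2

open Pool.Agent.Helper38.Scroll Pool.Agent.FJ Matrix Module

variable {k K : Type} [Field k] [Field K] [Algebra (RatFunc k) K] [Algebra k K]
  [IsScalarTower k (RatFunc k) K] {n₁ n₂ : ℕ}

theorem bd_det {R : Type} [CommRing R] (A : Matrix (Fin n₁) (Fin n₁) R)
    (B : Matrix (Fin n₂) (Fin n₂) R) : (bd A B).det = A.det * B.det := by
  rw [bd, Matrix.det_submatrix_equiv_self, Matrix.det_fromBlocks_zero₂₁]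

theorem bd_mul {R : Type} [CommRing R] {r₁ r₂ s₁ s₂ : ℕ}
    (A : Matrix (Fin s₁) (Fin r₁) R) (B : Matrix (Fin s₂) (Fin r₂) R)
    (A' : Matrix (Fin r₁) (Fin n₁) R) (B' : Matrix (Fin r₂) (Fin n₂) R) :
    bd A B * bd A' B' = bd (A * A') (B * B') := by
  rw [bd, bd, Matrix.submatrix_mul_equiv, Matrix.fromBlocks_multiply, bd]
  simp

theorem bd_mulVec {R : Type} [CommRing R] {r₁ r₂ : ℕ}
    (A : Matrix (Fin r₁) (Fin n₁) R) (B : Matrix (Fin r₂) (Fin n₂) R) (v : Fin n₁ → R)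
    (w : Fin n₂ → R) : bd A B *ᵥ (Fin.append v w) = Fin.append (A *ᵥ v) (B *ᵥ w) := by
  ext i
  refine Fin.addCases (fun i => ?_) (fun i => ?_) i
  · rw [Fin.append_left]
    simp [mulVec, dotProduct, Fin.sum_univ_add, bd]
  · rw [Fin.append_right]
    simp [mulVec, dotProduct, Fin.sum_univ_add, bd]

lemma bdl_split {R : Type} (v : Fin (n₁ + n₂) → R) :
    Fin.append (fun i => v (Fin.castAdd n₂ i)) (fun i => v (Fin.natAdd n₁ i)) = v := by
  ext i
  refine Fin.addCases (fun i => ?_) (fun i => ?_) i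
  · rw [Fin.append_left]
  · rw [Fin.append_right]

lemma bdl_append_inj {R : Type} {v v' : Fin n₁ → R} {w w' : Fin n₂ → R}
    (h : Fin.append v w = Fin.append v' w') : v = v' ∧ w = w' := by
  constructor
  · funext i
    have := congrFun h (Fin.castAdd n₂ i)
    rwa [Fin.append_left, Fin.append_left] at this
  · funext i
    have := congrFun h (Fin.natAdd n₁ i)
    rwa [Fin.append_right, Fin.append_right] at this

lemma bdl_one : bd (1 : Matrix (Fin n₁) (Fin n₁) K) (1 : Matrix (Fin n₂) (Fin n₂) K) = 1 := by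
  rw [bd, Matrix.fromBlocks_one, Matrix.submatrix_one_equiv]

variable [IsAlgClosed k] [CharZero k] [FiniteDimensional (RatFunc k) K]

theorem mem_lattice_bd {a : Option k} {h₁ : Matrix (Fin n₁) (Fin n₁) K}
    {h₂ : Matrix (Fin n₂) (Fin n₂) K} {v : Fin n₁ → K} {w : Fin n₂ → K} :
    Fin.append v w ∈ lattice a (bd h₁ h₂) ↔ v ∈ lattice a h₁ ∧ w ∈ lattice a h₂ := by
  rw [lattice_eq_range, lattice_eq_range, lattice_eq_range, LinearMap.mem_range,
    LinearMap.mem_range, LinearMap.mem_range]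
  constructor
  · rintro ⟨c, hc⟩
    rw [opMap_apply, ← bdl_split (fun i => (c i : K)), bd_mulVec] at hc
    obtain ⟨h1, h2⟩ := bdl_append_inj hc
    exact ⟨⟨fun i => c (Fin.castAdd n₂ i), h1⟩, ⟨fun i => c (Fin.natAdd n₁ i), h2⟩⟩
  · rintro ⟨⟨c, hc⟩, ⟨d, hd⟩⟩
    rw [opMap_apply] at hc hd
    refine ⟨Fin.append c d, ?_⟩
    have h1 : (fun i => ((Fin.append c d i : regRing k K a) : K)) =
        Fin.append (fun i => (c i : K)) (fun i => (d i : K)) := by
      rw [← bdl_split (fun i => ((Fin.append c d i : regRing k K a) : K))]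
      congr 1
      · funext i
        rw [Fin.append_left]
      · funext i
        rw [Fin.append_right]
    rw [opMap_apply, h1, bd_mulVec, hc, hd]

theorem bd_isBundle {g₁ : Option k → Matrix (Fin n₁) (Fin n₁) K}
    {g₂ : Option k → Matrix (Fin n₂) (Fin n₂) K} (hg₁ : IsBundle g₁) (hg₂ : IsBundle g₂) :
    IsBundle fun a => bd (g₁ a) (g₂ a) := by
  refine ⟨fun a => ?_, ?_⟩
  · rw [bd_det]
    exact mul_ne_zero (hg₁.1 a) (hg₂.1 a)
  · refine (hg₁.2.union hg₂.2).subset ?_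
    intro a ha
    by_contra hcon
    simp only [Set.mem_union, Set.mem_ofPred_eq, not_or, not_not] at hcon
    apply ha
    rw [← bdl_one]
    ext v
    rw [← bdl_split v, mem_lattice_bd, mem_lattice_bd, hcon.1, hcon.2]

theorem bd_quotient {r₁ r₂ : ℕ} {g₁ : Option k → Matrix (Fin n₁) (Fin n₁) K}
    {g₂ : Option k → Matrix (Fin n₂) (Fin n₂) K} {B₁ : Matrix (Fin r₁) (Fin n₁) K}
    {B₂ : Matrix (Fin r₂) (Fin n₂) K} {h₁ : Option k → Matrix (Fin r₁) (Fin r₁) K}
    {h₂ : Option k → Matrix (Fin r₂) (Fin r₂) K} (hh₁ : IsQuotientBundle g₁ B₁ h₁)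
    (hh₂ : IsQuotientBundle g₂ B₂ h₂) :
    IsQuotientBundle (fun a => bd (g₁ a) (g₂ a)) (bd B₁ B₂) fun a => bd (h₁ a) (h₂ a) := by
  intro a
  refine ⟨?_, ?_⟩
  · change (bd (h₁ a) (h₂ a)).det ≠ 0
    rw [bd_det]
    exact mul_ne_zero (hh₁ a).1 (hh₂ a).1
  · change lattice a (bd (h₁ a) (h₂ a)) = _
    ext v
    rw [← bdl_split v, mem_lattice_bd, (hh₁ a).2, (hh₂ a).2, Submodule.mem_map, Submodule.mem_map,
      Submodule.mem_map]
    constructor
    · rintro ⟨⟨x, hx, hx'⟩, ⟨y, hy, hy'⟩⟩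
      refine ⟨Fin.append x y, mem_lattice_bd.2 ⟨hx, hy⟩, ?_⟩
      change bd B₁ B₂ *ᵥ (Fin.append x y) = _
      rw [bd_mulVec]
      change B₁ *ᵥ x = _ at hx'
      change B₂ *ᵥ y = _ at hy'
      rw [hx', hy']
    · rintro ⟨u, hu, hu'⟩
      change u ∈ lattice a (bd (g₁ a) (g₂ a)) at hu
      change bd B₁ B₂ *ᵥ u = _ at hu'
      rw [← bdl_split u, bd_mulVec] at hu'
      rw [← bdl_split u, mem_lattice_bd] at hu
      obtain ⟨h1, h2⟩ := bdl_append_inj hu'
      exact ⟨⟨_, hu.1, h1⟩, ⟨_, hu.2, h2⟩⟩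

/-- the degree of a direct sum -/
theorem bd_degree {g₁ : Option k → Matrix (Fin n₁) (Fin n₁) K}
    {g₂ : Option k → Matrix (Fin n₂) (Fin n₂) K} (hg₁ : IsBundle g₁) (hg₂ : IsBundle g₂) :
    degree (fun a => bd (g₁ a) (g₂ a)) = degree g₁ + degree g₂ := by
  have hf₁ : (Function.support fun a : Option k => ordOver a (g₁ a).det).Finite :=
    quotient_support_finite hg₁ (by rw [Matrix.mul_one]) (isQuotientBundle_self hg₁)
  have hf₂ : (Function.support fun a : Option k => ordOver a (g₂ a).det).Finite :=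
    quotient_support_finite hg₂ (by rw [Matrix.mul_one]) (isQuotientBundle_self hg₂)
  have h1 : ∀ a, ordOver a (bd (g₁ a) (g₂ a)).det =
      ordOver a (g₁ a).det + ordOver a (g₂ a).det := by
    intro a
    rw [bd_det, ordOver_mul a (hg₁.1 a) (hg₂.1 a)]
  rw [degree, degree, degree, finsum_congr h1, finsum_add_distrib hf₁ hf₂]
  ring

end Pool.Agent.FJ2
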