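import Pool.Agent.Helper38.Scroll.P3

/-!
# FJ2: codimension of the intersection of two conditions
-/

namespace Pool.Agent.FJ2

open Pool.Agent.Helper38.Scroll Module

theorem codimLE_inf {k V V₁ V₂ : Type} [Field k] [AddCommGroup V] [Module k V]
    [AddCommGroup V₁] [Module k V₁] [AddCommGroup V₂] [Module k V₂]
    (f₁ : V →ₗ[k] V₁) (f₂ : V →ₗ[k] V₂) (N₁ : Submodule k V₁) (N₂ : Submodule k V₂)
    {c₁ c₂ : ℕ} (h₁ : CodimLE k (Set.univ : Set V₁) N₁ c₁)
    (h₂ : CodimLE k (Set.univ : Set V₂) N₂ c₂) :
    CodimLE k (Set.univ : Set V) {v | f₁ v ∈ N₁ ∧ f₂ v ∈ N₂} (c₁ + c₂) := by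
  classical
  have key : ∀ {W : Type} [AddCommGroup W] [Module k W] (N : Submodule k W) {c : ℕ}
      (h : CodimLE k (Set.univ : Set W) N c) {ι : Type} [Fintype ι] (L : (ι → k) →ₗ[k] W),
      Fintype.card ι ≤ c + finrank k (N.comap L) := by
    intro W _ _ N c h ι _ L
    obtain ⟨U, hU⟩ := Submodule.exists_isCompl (N.comap L)
    have hfin : finrank k U ≤ c := by
      have h3 := h (Fin (finrank k U)) (fun i => L (finBasis k U i)) (fun _ => trivial) ?_
      · simpa using h3
      · intro g hg
        have h4 : (∑ i, g i • (finBasis k U i : ι → k)) ∈ N.comap L := by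
          rw [Submodule.mem_comap, map_sum]
          simpa using hg
        have h5 : (∑ i, g i • (finBasis k U i : ι → k)) ∈ U :=
          U.sum_mem fun i _ => U.smul_mem _ (finBasis k U i).2
        have h6 : (∑ i, g i • (finBasis k U i : ι → k)) = 0 := by
          have := hU.disjoint.le_bot ⟨h4, h5⟩
          simpa using this
        have h7 : ∑ i, g i • finBasis k U i = 0 := by
          apply Subtype.ext
          simpa using h6
        have h8 := (finBasis k U).linearIndependent
        rw [Fintype.linearIndependent_iff] at h8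
        funext i
        exact h8 g h7 i
    have h9 := Submodule.finrank_add_eq_of_isCompl hU
    rw [finrank_fintype_fun_eq_card] at h9
    omega
  intro ι _ v _ hind
  let L : (ι → k) →ₗ[k] V := Fintype.linearCombination k v
  have hL : ∀ g, L g = ∑ i, g i • v i := fun g => Fintype.linearCombination_apply k v g
  have h3 := key N₁ h₁ (f₁ ∘ₗ L)
  have h4 := key N₂ h₂ (f₂ ∘ₗ L)
  have h5 : Disjoint (N₁.comap (f₁ ∘ₗ L)) (N₂.comap (f₂ ∘ₗ L)) := by
    rw [Submodule.disjoint_def]
    intro g hg1 hg2
    apply hind g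
    rw [Submodule.mem_comap, LinearMap.comp_apply, hL] at hg1 hg2
    exact ⟨hg1, hg2⟩
  have h6 := Submodule.finrank_add_finrank_le_of_disjoint h5
  rw [finrank_fintype_fun_eq_card] at h6
  omega

end Pool.Agent.FJ2
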