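import Pool.Agent.FJ.NUM
import Pool.Agent.FJ2.COD

/-!
# FJ2: fibre products of projective bundles: internal definitions
-/

set_option linter.unusedSectionVars false

namespace Pool.Agent.FJ2

open Pool.Agent.Helper38.Scroll Pool.Agent.FJ Matrix Module

section bd

variable {R : Type} {n₁ n₂ r₁ r₂ : ℕ}

/-- Block diagonal matrices. -/
def bd [Zero R] (A : Matrix (Fin r₁) (Fin n₁) R) (B : Matrix (Fin r₂) (Fin n₂) R) :
    Matrix (Fin (r₁ + r₂)) (Fin (n₁ + n₂)) R :=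
  (Matrix.fromBlocks A 0 0 B).submatrix finSumFinEquiv.symm finSumFinEquiv.symm

/-- The weight counting the variables of the first kind. -/
def wt (n₁ n₂ : ℕ) : Fin (n₁ + n₂) → ℕ := Fin.append (fun _ => 1) (fun _ => 0)

end bd

section

variable {k K : Type} [Field k] [Field K] [Algebra (RatFunc k) K] [Algebra k K]
  [IsScalarTower k (RatFunc k) K] {n₁ n₂ : ℕ}

variable (K n₁ n₂) in
/-- The forms of degree `e + 1` of degree `d` in the variables of the first kind. -/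
noncomputable def BF (e d : ℕ) : Submodule K (Forms K (n₁ + n₂) e) :=
  (MvPolynomial.weightedHomogeneousSubmodule K (wt n₁ n₂) d).comap
    (MvPolynomial.homogeneousSubmodule (Fin (n₁ + n₂)) K (e + 1)).subtype

lemma mem_BF {e d : ℕ} {u : Forms K (n₁ + n₂) e} :
    u ∈ BF K n₁ n₂ e d ↔
      (u : MvPolynomial (Fin (n₁ + n₂)) K).IsWeightedHomogeneous (wt n₁ n₂) d := Iff.rfl

variable (k K n₁ n₂) in
/-- A global section of bidegree `(d, e + 1 - d)`, internal form. -/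
structure Sec₂ (g : Option k → Matrix (Fin (n₁ + n₂)) (Fin (n₁ + n₂)) K) (e d : ℕ)
    (τ : Option k → K) extends Sec g (e + 1) τ where
  wh : ∀ a, (loc a).IsWeightedHomogeneous (wt n₁ n₂) d

/-- Its value at a point. -/
noncomputable def Sec₂.value {g : Option k → Matrix (Fin (n₁ + n₂)) (Fin (n₁ + n₂)) K} {e d : ℕ}
    {τ : Option k → K} (s : Sec₂ k K n₁ n₂ g e d τ) {R : Type} [CommRing R] [Algebra k R]
    {a : Option k} (θ : regRing k K a →ₐ[k] R) (ℓ₁ : Fin n₁ → R) (ℓ₂ : Fin n₂ → R) : R :=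
  MvPolynomial.eval₂ (θ : regRing k K a →+* R) (Fin.append ℓ₁ ℓ₂) (s.loc a)

variable [IsAlgClosed k] [CharZero k] [FiniteDimensional (RatFunc k) K]

/-- The lattices of vectors with components in given lattices. -/
def splitΛ {a : Option k} (Λ₁ : Submodule (regRing k K a) (Fin n₁ → regRing k K a))
    (Λ₂ : Submodule (regRing k K a) (Fin n₂ → regRing k K a)) :
    Submodule (regRing k K a) (Fin (n₁ + n₂) → regRing k K a) where
  carrier := {v | (fun i => v (Fin.castAdd n₂ i)) ∈ Λ₁ ∧ (fun i => v (Fin.natAdd n₁ i)) ∈ Λ₂}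
  add_mem' h h' := ⟨Λ₁.add_mem h.1 h'.1, Λ₂.add_mem h.2 h'.2⟩
  zero_mem' := ⟨Λ₁.zero_mem, Λ₂.zero_mem⟩
  smul_mem' c _ h := ⟨Λ₁.smul_mem c h.1, Λ₂.smul_mem c h.2⟩

lemma mem_splitΛ {a : Option k} {Λ₁ : Submodule (regRing k K a) (Fin n₁ → regRing k K a)}
    {Λ₂ : Submodule (regRing k K a) (Fin n₂ → regRing k K a)}
    {v : Fin (n₁ + n₂) → regRing k K a} : v ∈ splitΛ Λ₁ Λ₂ ↔
      (fun i => v (Fin.castAdd n₂ i)) ∈ Λ₁ ∧ (fun i => v (Fin.natAdd n₁ i)) ∈ Λ₂ := Iff.rfl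

/-- Conditions on both factors. -/
noncomputable def splitC (Q₁ : Conditions k K n₁) (Q₂ : Conditions k K n₂) :
    Conditions k K (n₁ + n₂) where
  Λ a := splitΛ (Q₁.Λ a) (Q₂.Λ a)
  c a := Q₁.c a + Q₂.c a
  fin := by
    refine (Q₁.fin.union Q₂.fin).subset ?_
    intro a ha
    by_contra hcon
    simp only [Set.mem_union, Set.mem_ofPred_eq, not_or, not_not] at hcon
    apply ha
    rw [eq_top_iff]
    intro v _
    rw [mem_splitΛ, hcon.1, hcon.2]
    exact ⟨trivial, trivial⟩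
  cfin := by
    refine (Q₁.cfin.union Q₂.cfin).subset ?_
    intro a ha
    by_contra hcon
    simp only [Set.mem_union, Set.mem_ofPred_eq, not_or, not_not] at hcon
    apply ha
    rw [hcon.1, hcon.2]
  absorb := by
    intro a v
    obtain ⟨m₁, h₁⟩ := Q₁.absorb a (fun i => v (Fin.castAdd n₂ i))
    obtain ⟨m₂, h₂⟩ := Q₂.absorb a (fun i => v (Fin.natAdd n₁ i))
    refine ⟨m₁ + m₂, ?_, ?_⟩
    · have h3 : (⟨_, pow_mem (unifAt_mem a) (m₁ + m₂)⟩ : localRing a) =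
          (⟨_, pow_mem (unifAt_mem a) m₂⟩ : localRing a) *
            (⟨_, pow_mem (unifAt_mem a) m₁⟩ : localRing a) := by
        apply Subtype.ext
        change unifAt a ^ (m₁ + m₂) = unifAt a ^ m₂ * unifAt a ^ m₁
        rw [← pow_add, add_comm]
      rw [h3, mul_smul]
      exact (Q₁.Λ a).smul_of_tower_mem
        (⟨_, pow_mem (unifAt_mem a) m₂⟩ : localRing a) h₁
    · have h3 : (⟨_, pow_mem (unifAt_mem a) (m₁ + m₂)⟩ : localRing a) =
          (⟨_, pow_mem (unifAt_mem a) m₁⟩ : localRing a) *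
            (⟨_, pow_mem (unifAt_mem a) m₂⟩ : localRing a) := by
        apply Subtype.ext
        change unifAt a ^ (m₁ + m₂) = unifAt a ^ m₁ * unifAt a ^ m₂
        rw [← pow_add]
      rw [h3, mul_smul]
      exact (Q₂.Λ a).smul_of_tower_mem
        (⟨_, pow_mem (unifAt_mem a) m₁⟩ : localRing a) h₂
  codim := by
    intro a
    exact codimLE_inf (LinearMap.funLeft k (regRing k K a) (Fin.castAdd n₂))
      (LinearMap.funLeft k (regRing k K a) (Fin.natAdd n₁))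
      ((Q₁.Λ a).restrictScalars k) ((Q₂.Λ a).restrictScalars k) (Q₁.codim a) (Q₂.codim a)

/-- The lattice family of the forms of bidegree `(d, e + 1 - d)`. -/
noncomputable def latFam₂ (Q : Conditions k K (n₁ + n₂))
    {g : Option k → Matrix (Fin (n₁ + n₂)) (Fin (n₁ + n₂)) K}
    (hg : IsBundle g) (e d : ℕ) {τ : Option k → K} (hτ : IsTwist τ) :
    LatticeFamily k (BF K n₁ n₂ e d) where
  W a := (Wlat Q g e τ a).comap ((BF K n₁ n₂ e d).subtype.restrictScalars (localRing a))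
  fin u := Wlat_fin Q hg e hτ (u : Forms K (n₁ + n₂) e)
  absorb a u := Wlat_absorb Q hg e hτ a (u : Forms K (n₁ + n₂) e)

lemma mem_latFam₂ {Q : Conditions k K (n₁ + n₂)}
    {g : Option k → Matrix (Fin (n₁ + n₂)) (Fin (n₁ + n₂)) K}
    {hg : IsBundle g} {e d : ℕ} {τ : Option k → K} {hτ : IsTwist τ} {a : Option k}
    {u : BF K n₁ n₂ e d} : u ∈ (latFam₂ Q hg e d hτ).W a ↔
      ∃ T ∈ Jmod e (Q.Λ a), locMap a (τ a) (g a) T =
        ((u : Forms K (n₁ + n₂) e) : MvPolynomial (Fin (n₁ + n₂)) K) := Iff.rfl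

variable (k K n₁ n₂) in
/-- The vanishing hypothesis. -/
def Vanish₂ (g : Option k → Matrix (Fin (n₁ + n₂)) (Fin (n₁ + n₂)) K) (hg : IsBundle g)
    (e d : ℕ) (τ : Option k → K) (hτ : IsTwist τ) : Prop :=
  ∀ (Q₁ : Conditions k K n₁) (Q₂ : Conditions k K n₂), ∑ᶠ a, Q₁.c a ≤ 2 → ∑ᶠ a, Q₂.c a ≤ 2 →
    ∀ u : BF K n₁ n₂ e d, u ∈ (latFam₂ (splitC Q₁ Q₂) hg e d hτ).W0 ⊔
      (latFam₂ (splitC Q₁ Q₂) hg e d hτ).Wi

end

end Pool.Agent.FJ2
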