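import Pool.Agent.FJ2.Defs

/-!
# FJ2 / GRAD: rank factorization of a functional on the forms of a given bidegree
-/

set_option linter.unusedSectionVars false

namespace Pool.Agent.FJ2

open Pool.Agent.Helper38.Scroll Pool.Agent.FJ Matrix Module

private lemma grad_fac {K W : Type} [Field K] {n : ℕ} (f : (Fin n → K) →ₗ[K] (W → K))
    (hf0 : f ≠ 0) :
    ∃ (r : ℕ) (_ : 0 < r) (B : Matrix (Fin r) (Fin n) K) (R : Matrix (Fin n) (Fin r) K),
      B * R = 1 ∧ (∀ κ, B *ᵥ κ = 0 → f κ = 0) ∧ (∀ u : Fin r → K, f (R *ᵥ u) = 0 → u = 0) := by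
  classical
  set r := finrank K (LinearMap.range f) with hr
  have hpos : 0 < r := by
    rw [hr, Module.finrank_pos_iff_exists_ne_zero]
    by_contra hcon
    push Not at hcon
    apply hf0
    ext i w
    have h1 := hcon ⟨f (Pi.single i 1), ⟨_, rfl⟩⟩
    have h2 := congrFun (congrArg Subtype.val h1) w
    simpa using h2
  let E : LinearMap.range f ≃ₗ[K] (Fin r → K) :=
    LinearEquiv.ofFinrankEq _ _ (by rw [Module.finrank_fin_fun])
  let p : (Fin n → K) →ₗ[K] (Fin r → K) := E.toLinearMap ∘ₗ f.rangeRestrict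
  let q : (Fin r → K) →ₗ[K] (W → K) :=
    (LinearMap.range f).subtype ∘ₗ E.symm.toLinearMap
  have hqp : q ∘ₗ p = f := by
    ext v i
    simp [p, q]
  have hp : Function.Surjective p :=
    E.surjective.comp (LinearMap.surjective_rangeRestrict f)
  have hq : Function.Injective q :=
    (Submodule.injective_subtype _).comp E.symm.injective
  obtain ⟨s, hs⟩ := p.exists_rightInverse_of_surjective (LinearMap.range_eq_top.mpr hp)
  refine ⟨r, hpos, LinearMap.toMatrix' p, LinearMap.toMatrix' s, ?_, ?_, ?_⟩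
  · rw [← LinearMap.toMatrix'_comp, hs, LinearMap.toMatrix'_id]
  · intro κ hκ
    have h1 : p κ = 0 := by
      rw [← hκ]
      exact (LinearMap.congr_fun (Matrix.toLin'_toMatrix' p) κ).symm
    rw [← hqp, LinearMap.comp_apply, h1, map_zero]
  · intro u hu
    have h2 : LinearMap.toMatrix' s *ᵥ u = s u :=
      LinearMap.congr_fun (Matrix.toLin'_toMatrix' s) _
    rw [h2] at hu
    have h4 : p (s u) = u := LinearMap.congr_fun hs _
    have h3 : q u = f (s u) := by
      calc q u = q (p (s u)) := by rw [h4]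
        _ = f (s u) := LinearMap.congr_fun hqp _
    apply hq
    rw [h3, hu, map_zero]

private lemma grad_vanish {K : Type} [Field K] {n₁ n₂ e d : ℕ}
    {φ : MvPolynomial (Fin (n₁ + n₂)) K →ₗ[K] K}
    (hb : ∀ P : MvPolynomial (Fin (n₁ + n₂)) K, P.IsHomogeneous (e + 1) →
      φ P = φ (MvPolynomial.weightedHomogeneousComponent (wt n₁ n₂) d P))
    {P : MvPolynomial (Fin (n₁ + n₂)) K} (hP : P.IsHomogeneous (e + 1)) {m : ℕ}
    (hw : P.IsWeightedHomogeneous (wt n₁ n₂) m) (hm : m ≠ d) : φ P = 0 := by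
  rw [hb P hP, hw.weightedHomogeneousComponent_ne d hm.symm, map_zero]

private lemma grad_wt_left (n₁ n₂ : ℕ) (i : Fin n₁) : wt n₁ n₂ (Fin.castAdd n₂ i) = 1 := by
  simp [wt]

private lemma grad_wt_right (n₁ n₂ : ℕ) (i : Fin n₂) : wt n₁ n₂ (Fin.natAdd n₁ i) = 0 := by
  simp [wt]

private lemma grad_lin₁ {K : Type} [Field K] {n₁ : ℕ} (n₂ : ℕ) (v : Fin n₁ → K) :
    (lin (Fin.append v (0 : Fin n₂ → K))).IsWeightedHomogeneous (wt n₁ n₂) 1 := by
  unfold lin
  refine (MvPolynomial.weightedHomogeneousSubmodule K (wt n₁ n₂) 1).sum_mem fun i _ => ?_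
  refine Fin.addCases (fun i => ?_) (fun i => ?_) i
  · rw [Fin.append_left]
    have h1 := (MvPolynomial.isWeightedHomogeneous_C (wt n₁ n₂) (v i)).mul
      (MvPolynomial.isWeightedHomogeneous_X K (wt n₁ n₂) (Fin.castAdd n₂ i))
    rw [grad_wt_left, zero_add] at h1
    exact h1
  · rw [Fin.append_right, Pi.zero_apply, map_zero, zero_mul]
    exact Submodule.zero_mem _

private lemma grad_lin₂ {K : Type} [Field K] {n₂ : ℕ} (n₁ : ℕ) (v : Fin n₂ → K) :
    (lin (Fin.append (0 : Fin n₁ → K) v)).IsWeightedHomogeneous (wt n₁ n₂) 0 := by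
  unfold lin
  refine (MvPolynomial.weightedHomogeneousSubmodule K (wt n₁ n₂) 0).sum_mem fun i _ => ?_
  refine Fin.addCases (fun i => ?_) (fun i => ?_) i
  · rw [Fin.append_left, Pi.zero_apply, map_zero, zero_mul]
    exact Submodule.zero_mem _
  · rw [Fin.append_right]
    have h1 := (MvPolynomial.isWeightedHomogeneous_C (wt n₁ n₂) (v i)).mul
      (MvPolynomial.isWeightedHomogeneous_X K (wt n₁ n₂) (Fin.natAdd n₁ i))
    rw [grad_wt_right, zero_add] at h1
    exact h1

private lemma grad_word {K : Type} [Field K] {n₁ n₂ m : ℕ} (w : Fin m → Fin (n₁ + n₂)) :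
    (∏ l, (MvPolynomial.X (w l) : MvPolynomial (Fin (n₁ + n₂)) K)).IsWeightedHomogeneous
      (wt n₁ n₂) (∑ l, wt n₁ n₂ (w l)) :=
  MvPolynomial.IsWeightedHomogeneous.prod Finset.univ _ _
    (fun l _ => MvPolynomial.isWeightedHomogeneous_X K (wt n₁ n₂) (w l))

private lemma grad_word_hom {K : Type} [Field K] {n m : ℕ} (w : Fin m → Fin n) :
    (∏ l, (MvPolynomial.X (w l) : MvPolynomial (Fin n) K)).IsHomogeneous m := by
  have h1 := MvPolynomial.IsHomogeneous.prod Finset.univ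
    (fun l => (MvPolynomial.X (w l) : MvPolynomial (Fin n) K)) (fun _ => 1)
    (fun l _ => MvPolynomial.isHomogeneous_X K (w l))
  simpa using h1

private noncomputable def gradI₁ (K : Type) [Field K] (n₁ n₂ : ℕ) :
    (Fin n₁ → K) →ₗ[K] (Fin (n₁ + n₂) → K) where
  toFun v := Fin.append v 0
  map_add' v w := by
    funext i
    refine Fin.addCases (fun i => ?_) (fun i => ?_) i <;> simp
  map_smul' c v := by
    funext i
    refine Fin.addCases (fun i => ?_) (fun i => ?_) i <;> simp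

private noncomputable def gradI₂ (K : Type) [Field K] (n₁ n₂ : ℕ) :
    (Fin n₂ → K) →ₗ[K] (Fin (n₁ + n₂) → K) where
  toFun v := Fin.append 0 v
  map_add' v w := by
    funext i
    refine Fin.addCases (fun i => ?_) (fun i => ?_) i <;> simp
  map_smul' c v := by
    funext i
    refine Fin.addCases (fun i => ?_) (fun i => ?_) i <;> simp

private lemma grad_split {K : Type} [Field K] {n₁ n₂ : ℕ} (κ : Fin (n₁ + n₂) → K) :
    κ = gradI₁ K n₁ n₂ (fun i => κ (Fin.castAdd n₂ i)) +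
      gradI₂ K n₁ n₂ (fun i => κ (Fin.natAdd n₁ i)) := by
  funext i
  refine Fin.addCases (fun i => ?_) (fun i => ?_) i <;> simp [gradI₁, gradI₂]

private lemma grad_bd_mulVec {K : Type} [Field K] {n₁ n₂ r₁ r₂ : ℕ}
    (A : Matrix (Fin r₁) (Fin n₁) K) (B : Matrix (Fin r₂) (Fin n₂) K)
    (κ : Fin (n₁ + n₂) → K) : bd A B *ᵥ κ =
      gradI₁ K r₁ r₂ (A *ᵥ fun i => κ (Fin.castAdd n₂ i)) +
        gradI₂ K r₁ r₂ (B *ᵥ fun i => κ (Fin.natAdd n₁ i)) := by
  unfold bd
  have h1 := Matrix.submatrix_mulVec_equiv (Matrix.fromBlocks A 0 0 B) κ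
    (finSumFinEquiv (m := r₁) (n := r₂)).symm (finSumFinEquiv (m := n₁) (n := n₂)).symm
  rw [h1, Matrix.fromBlocks_mulVec]
  funext i
  refine Fin.addCases (fun i => ?_) (fun i => ?_) i
  · simp only [Function.comp, finSumFinEquiv_symm_apply_castAdd, Sum.elim_inl, Pi.add_apply,
      gradI₁, gradI₂, LinearMap.coe_mk, AddHom.coe_mk, Fin.append_left, Pi.zero_apply, add_zero,
      Matrix.zero_mulVec, Equiv.symm_symm]
    rfl
  · simp only [Function.comp, finSumFinEquiv_symm_apply_natAdd, Sum.elim_inr, Pi.add_apply,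
      gradI₁, gradI₂, LinearMap.coe_mk, AddHom.coe_mk, Fin.append_right, Pi.zero_apply, zero_add,
      Matrix.zero_mulVec, Equiv.symm_symm]
    rfl

private lemma grad_bd_mul {K : Type} [Field K] {n₁ n₂ r₁ r₂ : ℕ}
    {B₁ : Matrix (Fin r₁) (Fin n₁) K} {R₁ : Matrix (Fin n₁) (Fin r₁) K}
    {B₂ : Matrix (Fin r₂) (Fin n₂) K} {R₂ : Matrix (Fin n₂) (Fin r₂) K}
    (h₁ : B₁ * R₁ = 1) (h₂ : B₂ * R₂ = 1) : bd B₁ B₂ * bd R₁ R₂ = 1 := by
  unfold bd
  rw [Matrix.submatrix_mul_equiv, Matrix.fromBlocks_multiply, h₁, h₂]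
  simp only [Matrix.zero_mul, Matrix.mul_zero, add_zero, zero_add, Matrix.fromBlocks_one]
  exact Matrix.submatrix_one_equiv _

/-- Rank factorization, for a functional on forms of degree `e + 1` which only depends on the
component of degree `d` in the variables of the first kind. -/
theorem exists_factor₂ {K : Type} [Field K] {n₁ n₂ e d : ℕ} (hd : 0 < d) (hd' : d ≤ e)
    (φ : MvPolynomial (Fin (n₁ + n₂)) K →ₗ[K] K)
    (hφ : ∃ P : MvPolynomial (Fin (n₁ + n₂)) K, P.IsHomogeneous (e + 1) ∧ φ P ≠ 0)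
    (hb : ∀ P : MvPolynomial (Fin (n₁ + n₂)) K, P.IsHomogeneous (e + 1) →
      φ P = φ (MvPolynomial.weightedHomogeneousComponent (wt n₁ n₂) d P)) :
    ∃ (r₁ r₂ : ℕ) (_ : 0 < r₁) (_ : 0 < r₂) (B₁ : Matrix (Fin r₁) (Fin n₁) K)
      (R₁ : Matrix (Fin n₁) (Fin r₁) K) (B₂ : Matrix (Fin r₂) (Fin n₂) K)
      (R₂ : Matrix (Fin n₂) (Fin r₂) K), B₁ * R₁ = 1 ∧ B₂ * R₂ = 1 ∧
      bd B₁ B₂ * bd R₁ R₂ = 1 ∧
      (∀ κ : Fin (n₁ + n₂) → K, bd B₁ B₂ *ᵥ κ = 0 → ∀ Y : MvPolynomial (Fin (n₁ + n₂)) K,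
        Y.IsHomogeneous e → φ (lin κ * Y) = 0) ∧
      ∃ y : Fin (r₁ + r₂) → Fin e → Fin (n₁ + n₂) → K,
        (Matrix.of fun i j => φ (lin (bd R₁ R₂ *ᵥ Pi.single i 1) * ∏ l, lin (y j l))).det ≠ 0 := by
  classical
  set f := facL e φ with hf
  set f₁ : (Fin n₁ → K) →ₗ[K] ((Fin e → Fin (n₁ + n₂)) → K) := f ∘ₗ gradI₁ K n₁ n₂ with hf₁
  set f₂ : (Fin n₂ → K) →ₗ[K] ((Fin e → Fin (n₁ + n₂)) → K) := f ∘ₗ gradI₂ K n₁ n₂ with hf₂
  have ev₁ : ∀ v w, f₁ v w = φ (lin (Fin.append v (0 : Fin n₂ → K)) *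
      ∏ l, MvPolynomial.X (w l)) := fun v w => rfl
  have ev₂ : ∀ v w, f₂ v w = φ (lin (Fin.append (0 : Fin n₁ → K) v) *
      ∏ l, MvPolynomial.X (w l)) := fun v w => rfl
  have hom : ∀ (v : Fin (n₁ + n₂) → K) (w : Fin e → Fin (n₁ + n₂)),
      (lin v * ∏ l, (MvPolynomial.X (w l) : MvPolynomial (Fin (n₁ + n₂)) K)).IsHomogeneous
        (e + 1) := by
    intro v w
    have h1 := (lin_isHomogeneous v).mul (grad_word_hom (K := K) w)
    rw [add_comm 1 e] at h1
    exact h1
  have z₁ : ∀ v w, 1 + ∑ l, wt n₁ n₂ (w l) ≠ d → f₁ v w = 0 := by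
    intro v w hw
    rw [ev₁]
    exact grad_vanish hb (hom _ _) ((grad_lin₁ n₂ v).mul (grad_word w)) hw
  have z₂ : ∀ v w, ∑ l, wt n₁ n₂ (w l) ≠ d → f₂ v w = 0 := by
    intro v w hw
    rw [ev₂]
    refine grad_vanish hb (hom _ _) ((grad_lin₂ n₁ v).mul (grad_word w)) ?_
    rwa [zero_add]
  obtain ⟨P, hP, hP0⟩ := hφ
  have hs₁ : ∀ i : Fin n₁, Fin.append (Pi.single i (1 : K)) (0 : Fin n₂ → K) =
      Pi.single (Fin.castAdd n₂ i) 1 := by
    intro i
    funext j
    refine Fin.addCases (fun j => ?_) (fun j => ?_) j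
    · rw [Fin.append_left]
      by_cases h : j = i
      · subst h
        simp
      · have h' : Fin.castAdd n₂ j ≠ Fin.castAdd n₂ i := fun h' =>
          h (Fin.castAdd_injective _ _ h')
        rw [Pi.single_eq_of_ne h, Pi.single_eq_of_ne h']
    · rw [Fin.append_right, Pi.single_eq_of_ne, Pi.zero_apply]
      intro h'
      have := congrArg Fin.val h'
      simp only [Fin.val_natAdd, Fin.val_castAdd] at this
      omega
  have hs₂ : ∀ i : Fin n₂, Fin.append (0 : Fin n₁ → K) (Pi.single i (1 : K)) =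
      Pi.single (Fin.natAdd n₁ i) 1 := by
    intro i
    funext j
    refine Fin.addCases (fun j => ?_) (fun j => ?_) j
    · rw [Fin.append_left, Pi.single_eq_of_ne, Pi.zero_apply]
      intro h'
      have := congrArg Fin.val h'
      simp only [Fin.val_natAdd, Fin.val_castAdd] at this
      omega
    · rw [Fin.append_right]
      by_cases h : j = i
      · subst h
        simp
      · have h' : Fin.natAdd n₁ j ≠ Fin.natAdd n₁ i := fun h' =>
          h (Fin.natAdd_injective _ _ h')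
        rw [Pi.single_eq_of_ne h, Pi.single_eq_of_ne h']
  have hf₁0 : f₁ ≠ 0 := by
    intro h0
    apply hP0
    refine fac_ext φ (fun w => ?_) hP
    by_cases hex : ∃ l₀ i, w l₀ = Fin.castAdd n₂ i
    · obtain ⟨l₀, i, hl⟩ := hex
      have h1 : f₁ (Pi.single i 1) (fun l => w (l₀.succAbove l)) = 0 := by rw [h0]; rfl
      rw [ev₁, hs₁, fac_lin_single] at h1
      rw [Fin.prod_univ_succAbove _ l₀, hl]
      exact h1
    · refine grad_vanish hb (grad_word_hom w) (grad_word w) ?_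
      have h2 : ∀ l, wt n₁ n₂ (w l) = 0 := by
        intro l
        push Not at hex
        have h3 := hex l
        generalize w l = j at h3 ⊢
        revert h3
        refine Fin.addCases (fun j h3 => ?_) (fun j _ => ?_) j
        · exact absurd rfl (h3 j)
        · exact grad_wt_right _ _ _
      simp only [h2, Finset.sum_const_zero]
      omega
  have hf₂0 : f₂ ≠ 0 := by
    intro h0
    apply hP0
    refine fac_ext φ (fun w => ?_) hP
    by_cases hex : ∃ l₀ i, w l₀ = Fin.natAdd n₁ i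
    · obtain ⟨l₀, i, hl⟩ := hex
      have h1 : f₂ (Pi.single i 1) (fun l => w (l₀.succAbove l)) = 0 := by rw [h0]; rfl
      rw [ev₂, hs₂, fac_lin_single] at h1
      rw [Fin.prod_univ_succAbove _ l₀, hl]
      exact h1
    · refine grad_vanish hb (grad_word_hom w) (grad_word w) ?_
      have h2 : ∀ l, wt n₁ n₂ (w l) = 1 := by
        intro l
        push Not at hex
        have h3 := hex l
        generalize w l = j at h3 ⊢
        revert h3
        refine Fin.addCases (fun j _ => ?_) (fun j h3 => ?_) j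
        · exact grad_wt_left _ _ _
        · exact absurd rfl (h3 j)
      simp only [h2, Finset.sum_const, Finset.card_univ, Fintype.card_fin, smul_eq_mul, mul_one]
      omega
  obtain ⟨r₁, hr₁, B₁, R₁, hBR₁, hk₁, hi₁⟩ := grad_fac f₁ hf₁0
  obtain ⟨r₂, hr₂, B₂, R₂, hBR₂, hk₂, hi₂⟩ := grad_fac f₂ hf₂0
  refine ⟨r₁, r₂, hr₁, hr₂, B₁, R₁, B₂, R₂, hBR₁, hBR₂, grad_bd_mul hBR₁ hBR₂, ?_, ?_⟩
  · intro κ hκ Y hY
    rw [grad_bd_mulVec] at hκ
    have k1 : B₁ *ᵥ (fun i => κ (Fin.castAdd n₂ i)) = 0 := by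
      funext i
      have := congrFun hκ (Fin.castAdd r₂ i)
      simpa [gradI₁, gradI₂] using this
    have k2 : B₂ *ᵥ (fun i => κ (Fin.natAdd n₁ i)) = 0 := by
      funext i
      have := congrFun hκ (Fin.natAdd r₁ i)
      simpa [gradI₁, gradI₂] using this
    have h2 : f κ = 0 := by
      have h5 := hk₁ _ k1
      have h6 := hk₂ _ k2
      rw [grad_split κ, map_add]
      rw [hf₁, LinearMap.comp_apply] at h5
      rw [hf₂, LinearMap.comp_apply] at h6
      rw [h5, h6, add_zero]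
    have h3 := fac_ext (φ ∘ₗ LinearMap.mulLeft K (lin κ)) (m := e) (fun w => ?_) hY
    · exact h3
    · have h4 := congrFun h2 w
      rw [hf, facL_apply] at h4
      exact h4
  · let q : (Fin (r₁ + r₂) → K) →ₗ[K] ((Fin e → Fin (n₁ + n₂)) → K) :=
      f ∘ₗ (bd R₁ R₂).mulVecLin
    have hqv : ∀ u, q u = f₁ (R₁ *ᵥ fun i => u (Fin.castAdd r₂ i)) +
        f₂ (R₂ *ᵥ fun i => u (Fin.natAdd r₁ i)) := by
      intro u
      change f (bd R₁ R₂ *ᵥ u) = _
      rw [grad_bd_mulVec, map_add]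
      rfl
    have hq : Function.Injective q := by
      rw [← LinearMap.ker_eq_bot, LinearMap.ker_eq_bot']
      intro u hu
      rw [hqv] at hu
      have a1 : f₁ (R₁ *ᵥ fun i => u (Fin.castAdd r₂ i)) = 0 := by
        funext w
        by_cases hw : 1 + ∑ l, wt n₁ n₂ (w l) = d
        · have h7 := congrFun hu w
          rw [Pi.add_apply, z₂ _ w (by omega), add_zero] at h7
          exact h7
        · exact z₁ _ w hw
      have a2 : f₂ (R₂ *ᵥ fun i => u (Fin.natAdd r₁ i)) = 0 := by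
        rw [a1, zero_add] at hu
        exact hu
      have b1 := hi₁ _ a1
      have b2 := hi₂ _ a2
      funext i
      refine Fin.addCases (fun i => ?_) (fun i => ?_) i
      · exact congrFun b1 i
      · exact congrFun b2 i
    obtain ⟨w, hw⟩ := fac_minor q hq
    refine ⟨fun j l => Pi.single (w j l) 1, ?_⟩
    have h1 : (Matrix.of fun i j => φ (lin (bd R₁ R₂ *ᵥ Pi.single i 1) *
        ∏ l, lin (Pi.single (w j l) (1 : K)))) =
        (Matrix.of fun i j => q (Pi.single i 1) (w j)) := by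
      ext i j
      simp only [Matrix.of_apply, fac_lin_single]
      rfl
    rw [h1]
    exact hw

end Pool.Agent.FJ2
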