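import Pool.Agent.FJ.Statement

/-!
# Line bundles on fibre products of two projective bundles over a curve: definitions

`C` is the smooth projective curve with function field `K`, a finite extension of `k(x)`, and `E₁`,
`E₂` are vector bundles of ranks `n₁`, `n₂` on `C`, given by frames `g₁`, `g₂` (see
`Pool/Agent/Helper38/Scroll/Statement.lean`). The line bundles on the fibre product
`X = ℙ(E₁) ×_C ℙ(E₂)` of the projective bundles of one-dimensional quotients are the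
`O(m₁, m₂) ⊗ B`, `B` a line bundle on `C`, given by local generators `β a ∈ K^×`, one for the points
over each `a ∈ ℙ¹` (see `Pool/Agent/FJ/Statement.lean`).
-/

namespace Pool.Agent.FJ2

open Pool.Agent.Helper38.Scroll Pool.Agent.FJ MvPolynomial

variable {k K : Type} [Field k] [Field K] [Algebra (RatFunc k) K] {n₁ n₂ : ℕ}

/-- Positivity of the line bundle `A = O(m₁, m₂) ⊗ B` on `X = ℙ(E₁) ×_C ℙ(E₂)`: the degrees `m₁`,
`m₂` on the lines in the fibres of the two projections are positive, and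
`m₁ s₂ deg Q₁ + m₂ s₁ deg Q₂ + s₁ s₂ deg B > 0` for all quotient bundles `Q₁` of `E₁` and `Q₂` of
`E₂` of ranks `s₁, s₂ > 0`. This holds if `A` is ample: if `m₁, m₂ ≥ 1`, then the number on the left
is a positive multiple of the top self-intersection number of the restriction of `A` to
`ℙ(Q₁) ×_C ℙ(Q₂)`. -/
def IsPositive₂ (g₁ : Option k → Matrix (Fin n₁) (Fin n₁) K)
    (g₂ : Option k → Matrix (Fin n₂) (Fin n₂) K) (m₁ m₂ : ℕ) (β : Option k → K) : Prop :=
  0 < m₁ ∧ 0 < m₂ ∧ ∀ s₁ s₂ : ℕ, 0 < s₁ → 0 < s₂ →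
    ∀ (A₁ : Matrix (Fin s₁) (Fin n₁) K) (A₂ : Matrix (Fin s₂) (Fin n₂) K),
      A₁.rank = s₁ → A₂.rank = s₂ →
      ∀ (h₁ : Option k → Matrix (Fin s₁) (Fin s₁) K) (h₂ : Option k → Matrix (Fin s₂) (Fin s₂) K),
        Curve.IsQuotientBundle g₁ A₁ h₁ → Curve.IsQuotientBundle g₂ A₂ h₂ →
          0 < m₁ * s₂ * Curve.degree h₁ + m₂ * s₁ * Curve.degree h₂ + s₁ * s₂ * lineDegree β

variable [Algebra k K] [IsScalarTower k (RatFunc k) K]

/-- A global section of `Sym^d₁ E₁ ⊗ Sym^d₂ E₂ ⊗ M`, where `E₁`, `E₂` have frames `g₁`, `g₂` and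
the line bundle `M` has local generators `τ`: over each `a` it is `τ a ⊗ (loc a)(g₁ₖ, g₂ₗ)` with a
form `loc a` of bidegree `(d₁, d₂)` in the columns `g₁ₖ` of `g₁ a` and `g₂ₗ` of `g₂ a`, whose
coefficients are functions regular over `a`. (The vectors `v` of `K^n₁` and `w` of `K^n₂` are
identified with the linear forms `∑ v_i X_i` and `∑ w_i Y_i`, where `X_i` and `Y_i` are the
variables `X (Sum.inl i)` and `X (Sum.inr i)`.) -/
structure GlobalSection₂ (g₁ : Option k → Matrix (Fin n₁) (Fin n₁) K)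
    (g₂ : Option k → Matrix (Fin n₂) (Fin n₂) K) (d₁ d₂ : ℕ) (τ : Option k → K) where
  /-- the rational section -/
  form : MvPolynomial (Fin n₁ ⊕ Fin n₂) K
  /-- its coordinates in the local frames -/
  loc : ∀ a : Option k, MvPolynomial (Fin n₁ ⊕ Fin n₂) (Curve.regularRing k K a)
  homogeneous₁ : ∀ a, (loc a).IsWeightedHomogeneous
    (Sum.elim (fun _ => 1) (fun _ => 0) : Fin n₁ ⊕ Fin n₂ → ℕ) d₁
  homogeneous₂ : ∀ a, (loc a).IsWeightedHomogeneous
    (Sum.elim (fun _ => 0) (fun _ => 1) : Fin n₁ ⊕ Fin n₂ → ℕ) d₂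
  eq : ∀ a, form = C (τ a) * aeval
    (Sum.elim (fun j => ∑ i, C (g₁ a i j) * X (Sum.inl i))
      (fun j => ∑ i, C (g₂ a i j) * X (Sum.inr i)))
    (map (algebraMap (Curve.regularRing k K a) K) (loc a))

/-- The value of a section at the `R`-valued point of `X` given by an `R`-valued point `θ` of the
curve and the quotients `R^n₁ → R` and `R^n₂ → R` of the fibres of `E₁` and `E₂` with coordinates
`ℓ₁` and `ℓ₂`, in the given local frames. -/
noncomputable def GlobalSection₂.value {g₁ : Option k → Matrix (Fin n₁) (Fin n₁) K}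
    {g₂ : Option k → Matrix (Fin n₂) (Fin n₂) K} {d₁ d₂ : ℕ} {τ : Option k → K}
    (s : GlobalSection₂ g₁ g₂ d₁ d₂ τ) {R : Type} [CommRing R] [Algebra k R]
    {a : Option k} (θ : Curve.PointOver k K a R) (ℓ₁ : Fin n₁ → R) (ℓ₂ : Fin n₂ → R) : R :=
  eval₂ (θ : Curve.regularRing k K a →+* R) (Sum.elim ℓ₁ ℓ₂) (s.loc a)

/-- The sections of `O(d₁, d₂) ⊗ M` have no common zero on `X`; a closed point of `X` is a closed
point `p` of the curve and one-dimensional quotients of the fibres of `E₁` and `E₂`. -/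
def NoCommonZero₂ (g₁ : Option k → Matrix (Fin n₁) (Fin n₁) K)
    (g₂ : Option k → Matrix (Fin n₂) (Fin n₂) K) (d₁ d₂ : ℕ) (τ : Option k → K) : Prop :=
  ∀ (p : Curve.ClosedPoint k K) (x₁ : Projectivization k (Fin n₁ → k))
    (x₂ : Projectivization k (Fin n₂ → k)),
    ∃ s : GlobalSection₂ g₁ g₂ d₁ d₂ τ, s.value p.2 x₁.rep x₂.rep ≠ 0

/-- The sections of `O(d₁, d₂) ⊗ M` separate the closed points of `X`. -/
def SeparatesPoints₂ (g₁ : Option k → Matrix (Fin n₁) (Fin n₁) K)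
    (g₂ : Option k → Matrix (Fin n₂) (Fin n₂) K) (d₁ d₂ : ℕ) (τ : Option k → K) : Prop :=
  ∀ (p p' : Curve.ClosedPoint k K) (x₁ x₁' : Projectivization k (Fin n₁ → k))
    (x₂ x₂' : Projectivization k (Fin n₂ → k)), (p, x₁, x₂) ≠ (p', x₁', x₂') →
      ∃ s : GlobalSection₂ g₁ g₂ d₁ d₂ τ,
        s.value p.2 x₁.rep x₂.rep = 0 ∧ s.value p'.2 x₁'.rep x₂'.rep ≠ 0

/-- The sections of `O(d₁, d₂) ⊗ M` separate the tangent vectors of `X`: for every nonzero
tangent vector, i.e. nonconstant `k[ε]`-valued point, some section vanishes at the point but not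
along the tangent vector. -/
def SeparatesTangents₂ (g₁ : Option k → Matrix (Fin n₁) (Fin n₁) K)
    (g₂ : Option k → Matrix (Fin n₂) (Fin n₂) K) (d₁ d₂ : ℕ) (τ : Option k → K) : Prop :=
  ∀ (a : Option k) (θ : Curve.PointOver k K a (DualNumber k)) (ℓ₁ : Fin n₁ → DualNumber k)
    (ℓ₂ : Fin n₂ → DualNumber k), (∃ i, (ℓ₁ i).fst ≠ 0) → (∃ i, (ℓ₂ i).fst ≠ 0) →
    ¬ (Curve.IsZeroTangent θ ℓ₁ ∧ Curve.IsZeroTangent θ ℓ₂) →
      ∃ s : GlobalSection₂ g₁ g₂ d₁ d₂ τ, (s.value θ ℓ₁ ℓ₂).fst = 0 ∧ (s.value θ ℓ₁ ℓ₂).snd ≠ 0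

/-- The line bundle `O(d₁, d₂) ⊗ M` on `X` is very ample. -/
def IsVeryAmple₂ (g₁ : Option k → Matrix (Fin n₁) (Fin n₁) K)
    (g₂ : Option k → Matrix (Fin n₂) (Fin n₂) K) (d₁ d₂ : ℕ) (τ : Option k → K) : Prop :=
  NoCommonZero₂ g₁ g₂ d₁ d₂ τ ∧ SeparatesPoints₂ g₁ g₂ d₁ d₂ τ ∧
    SeparatesTangents₂ g₁ g₂ d₁ d₂ τ

end Pool.Agent.FJ2
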