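import Pool.Agent.FJ2.Defs
import Pool.Agent.FJ2.Statement

/-!
# FJ2, module LGT: the theorem in terms of `Statement.lean`
-/

set_option linter.unusedSectionVars false

namespace Pool.Agent.FJ2

open Pool.Agent.Helper38.Scroll Pool.Agent.FJ Matrix Module

section

variable {k K : Type} [Field k] [Field K] [Algebra (RatFunc k) K] [Algebra k K]
  [IsScalarTower k (RatFunc k) K] {n₁ n₂ : ℕ}

lemma lgt_algebraMap_inc (a : Option k) :
    (algebraMap (Curve.regularRing k K a) K).comp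
      (inc (k := k) (K := K) a).toRingHom = algebraMap (regRing k K a) K :=
  RingHom.ext fun _ => rfl

lemma lgt_locMap {n : ℕ} (a : Option k) (t : K) (g : Matrix (Fin n) (Fin n) K)
    (T : MvPolynomial (Fin n) (regRing k K a)) :
    locMap a t g T = MvPolynomial.C t * MvPolynomial.aeval
      (fun j => ∑ i, MvPolynomial.C (g i j) * MvPolynomial.X i)
      (MvPolynomial.map (algebraMap (regRing k K a) K) T) := rfl

/-- weighted homogeneous polynomials and renaming -/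
lemma lgt_rename {R σ ρ : Type} [CommRing R] (e : σ → ρ) (w : ρ → ℕ) {p : MvPolynomial σ R}
    {d : ℕ} (hp : p.IsWeightedHomogeneous (w ∘ e) d) :
    (MvPolynomial.rename e p).IsWeightedHomogeneous w d := by
  intro m hm
  obtain ⟨u, rfl, hu⟩ := MvPolynomial.coeff_rename_ne_zero e p m hm
  rw [← hp hu, Finsupp.weight_apply, Finsupp.weight_apply,
    Finsupp.sum_mapDomain_index (by simp) (by intro b m₁ m₂; simp [add_mul])]
  rfl

/-- weighted homogeneous polynomials and coefficient maps -/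
lemma lgt_map {R R' σ : Type} [CommRing R] [CommRing R'] (f : R →+* R') {w : σ → ℕ}
    {p : MvPolynomial σ R} {d : ℕ} (hp : p.IsWeightedHomogeneous w d) :
    (MvPolynomial.map f p).IsWeightedHomogeneous w d := by
  intro m hm
  rw [MvPolynomial.coeff_map] at hm
  apply hp
  intro h
  rw [h, map_zero] at hm
  exact hm rfl

lemma lgt_elim {A : Type} (ℓ₁ : Fin n₁ → A) (ℓ₂ : Fin n₂ → A) :
    (Sum.elim ℓ₁ ℓ₂) ∘ (finSumFinEquiv.symm : Fin (n₁ + n₂) → Fin n₁ ⊕ Fin n₂) =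
      Fin.append ℓ₁ ℓ₂ := by
  funext j
  refine Fin.addCases (fun i => ?_) (fun i => ?_) j
  · simp
  · simp

lemma lgt_wt : (Sum.elim (fun _ => 1) (fun _ => 0) : Fin n₁ ⊕ Fin n₂ → ℕ) ∘
    (finSumFinEquiv.symm : Fin (n₁ + n₂) → Fin n₁ ⊕ Fin n₂) = wt n₁ n₂ := lgt_elim _ _

/-- the complementary weight -/
lemma lgt_wt2 {R : Type} [CommRing R] {p : MvPolynomial (Fin (n₁ + n₂)) R} {D d₁ d₂ : ℕ}
    (hp : p.IsHomogeneous D) (hp1 : p.IsWeightedHomogeneous (wt n₁ n₂) d₁) (hd : d₁ + d₂ = D) :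
    p.IsWeightedHomogeneous (Fin.append (fun _ : Fin n₁ => 0) (fun _ : Fin n₂ => 1)) d₂ := by
  intro m hm
  have h1 := hp hm
  have h2 := hp1 hm
  have h3 : Finsupp.weight (wt n₁ n₂) m +
      Finsupp.weight (Fin.append (fun _ : Fin n₁ => 0) (fun _ : Fin n₂ => 1) :
        Fin (n₁ + n₂) → ℕ) m = Finsupp.weight (1 : Fin (n₁ + n₂) → ℕ) m := by
    rw [Finsupp.weight_apply, Finsupp.weight_apply, Finsupp.weight_apply, ← Finsupp.sum_add]
    refine Finsupp.sum_congr fun i _ => ?_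
    rw [← smul_add]
    congr 1
    refine Fin.addCases (fun i => ?_) (fun i => ?_) i
    · simp [wt]
    · simp [wt]
  rw [h1, h2] at h3
  omega

/-- the substitution of the variables -/
lemma lgt_subst (A : Matrix (Fin n₁) (Fin n₁) K) (B : Matrix (Fin n₂) (Fin n₂) K)
    (j : Fin (n₁ + n₂)) :
    MvPolynomial.rename (finSumFinEquiv.symm : Fin (n₁ + n₂) → Fin n₁ ⊕ Fin n₂)
      (∑ i, MvPolynomial.C (bd A B i j) * MvPolynomial.X i : MvPolynomial (Fin (n₁ + n₂)) K) =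
    Sum.elim (fun j => ∑ i, MvPolynomial.C (A i j) * MvPolynomial.X (Sum.inl i))
      (fun j => ∑ i, MvPolynomial.C (B i j) * MvPolynomial.X (Sum.inr i))
      (finSumFinEquiv.symm j) := by
  rw [map_sum]
  have h1 : ∀ i : Fin (n₁ + n₂), MvPolynomial.rename
      (finSumFinEquiv.symm : Fin (n₁ + n₂) → Fin n₁ ⊕ Fin n₂)
      (MvPolynomial.C (bd A B i j) * MvPolynomial.X i : MvPolynomial (Fin (n₁ + n₂)) K) =
      (fun s : Fin n₁ ⊕ Fin n₂ => (MvPolynomial.C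
        (Matrix.fromBlocks A 0 0 B s (finSumFinEquiv.symm j)) * MvPolynomial.X s :
          MvPolynomial (Fin n₁ ⊕ Fin n₂) K)) (finSumFinEquiv.symm i) := by
    intro i
    rw [map_mul, MvPolynomial.rename_C, MvPolynomial.rename_X]
    rfl
  rw [Finset.sum_congr rfl fun i _ => h1 i, Equiv.sum_comp finSumFinEquiv.symm
    (fun s : Fin n₁ ⊕ Fin n₂ => (MvPolynomial.C
        (Matrix.fromBlocks A 0 0 B s (finSumFinEquiv.symm j)) * MvPolynomial.X s :
          MvPolynomial (Fin n₁ ⊕ Fin n₂) K)), Fintype.sum_sum_type]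
  generalize (finSumFinEquiv.symm j : Fin n₁ ⊕ Fin n₂) = s
  rcases s with s | s
  · simp
  · simp

/-- The section attached to a section. -/
noncomputable def lgt_toLight {g₁ : Option k → Matrix (Fin n₁) (Fin n₁) K}
    {g₂ : Option k → Matrix (Fin n₂) (Fin n₂) K} {e d₁ d₂ : ℕ} (hd : d₁ + d₂ = e + 1)
    {τ : Option k → K} (s : Sec₂ k K n₁ n₂ (fun a => bd (g₁ a) (g₂ a)) e d₁ τ) :
    GlobalSection₂ g₁ g₂ d₁ d₂ τ where
  form := MvPolynomial.rename finSumFinEquiv.symm s.form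
  loc a := MvPolynomial.map (inc (k := k) (K := K) a).toRingHom
    (MvPolynomial.rename finSumFinEquiv.symm (s.loc a))
  homogeneous₁ a := by
    refine lgt_map _ ?_
    refine lgt_rename _ _ ?_
    rw [lgt_wt]
    exact s.wh a
  homogeneous₂ a := by
    refine lgt_map _ ?_
    refine lgt_rename _ _ ?_
    rw [lgt_elim]
    exact lgt_wt2 (s.homogeneous a) (s.wh a) hd
  eq a := by
    rw [MvPolynomial.map_map, lgt_algebraMap_inc, MvPolynomial.map_rename,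
      MvPolynomial.aeval_rename, s.eq a, lgt_locMap, map_mul, MvPolynomial.rename_C]
    congr 1
    rw [← AlgHom.comp_apply, MvPolynomial.comp_aeval]
    congr 2
    funext j
    exact lgt_subst (g₁ a) (g₂ a) j

lemma lgt_value {g₁ : Option k → Matrix (Fin n₁) (Fin n₁) K}
    {g₂ : Option k → Matrix (Fin n₂) (Fin n₂) K} {e d₁ d₂ : ℕ} (hd : d₁ + d₂ = e + 1)
    {τ : Option k → K} (s : Sec₂ k K n₁ n₂ (fun a => bd (g₁ a) (g₂ a)) e d₁ τ) {R : Type}
    [CommRing R] [Algebra k R] {a : Option k}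
    (θ : Curve.PointOver k K a R) (ℓ₁ : Fin n₁ → R) (ℓ₂ : Fin n₂ → R) :
    (lgt_toLight hd s).value θ ℓ₁ ℓ₂ = s.value (θ.comp (inc a)) ℓ₁ ℓ₂ := by
  rw [GlobalSection₂.value, Sec₂.value]
  change MvPolynomial.eval₂ (θ : Curve.regularRing k K a →+* R) (Sum.elim ℓ₁ ℓ₂)
    (MvPolynomial.map (inc (k := k) (K := K) a).toRingHom
      (MvPolynomial.rename finSumFinEquiv.symm (s.loc a))) = _
  rw [MvPolynomial.eval₂_map, MvPolynomial.eval₂_rename, lgt_elim]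
  rfl

end

section

variable {k K : Type} [Field k] [Field K] [Algebra (RatFunc k) K] [Algebra k K]
  [IsScalarTower k (RatFunc k) K] {n₁ n₂ : ℕ}
variable [IsAlgClosed k] [CharZero k] [FiniteDimensional (RatFunc k) K]

/-- passing to the definitions of `Statement.lean` -/
theorem light_veryAmple₂ {g₁ : Option k → Matrix (Fin n₁) (Fin n₁) K}
    {g₂ : Option k → Matrix (Fin n₂) (Fin n₂) K} {e d₁ d₂ : ℕ} (hd : d₁ + d₂ = e + 1)
    {τ : Option k → K}
    (h1 : ∀ (p : CurvePoint k K) (x₁ : Projectivization k (Fin n₁ → k))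
      (x₂ : Projectivization k (Fin n₂ → k)),
      ∃ s : Sec₂ k K n₁ n₂ (fun a => bd (g₁ a) (g₂ a)) e d₁ τ, s.value p.2 x₁.rep x₂.rep ≠ 0)
    (h2 : ∀ (p p' : CurvePoint k K) (x₁ x₁' : Projectivization k (Fin n₁ → k))
      (x₂ x₂' : Projectivization k (Fin n₂ → k)), (p, x₁, x₂) ≠ (p', x₁', x₂') →
      ∃ s : Sec₂ k K n₁ n₂ (fun a => bd (g₁ a) (g₂ a)) e d₁ τ,
        s.value p.2 x₁.rep x₂.rep = 0 ∧ s.value p'.2 x₁'.rep x₂'.rep ≠ 0)
    (h3 : ∀ (a : Option k) (θ : regRing k K a →ₐ[k] DualNumber k)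
      (ℓ₁ : Fin n₁ → DualNumber k) (ℓ₂ : Fin n₂ → DualNumber k),
      (∃ i, (ℓ₁ i).fst ≠ 0) → (∃ i, (ℓ₂ i).fst ≠ 0) →
      ¬ ((∀ b, (θ b).snd = 0) ∧ (∃ c : k, ∀ i, (ℓ₁ i).snd = c * (ℓ₁ i).fst) ∧
        ∃ c : k, ∀ i, (ℓ₂ i).snd = c * (ℓ₂ i).fst) →
      ∃ s : Sec₂ k K n₁ n₂ (fun a => bd (g₁ a) (g₂ a)) e d₁ τ,
        (s.value θ ℓ₁ ℓ₂).fst = 0 ∧ (s.value θ ℓ₁ ℓ₂).snd ≠ 0) :
    IsVeryAmple₂ g₁ g₂ d₁ d₂ τ := by
  refine ⟨?_, ?_, ?_⟩
  · intro p x₁ x₂
    obtain ⟨s, hs⟩ := h1 ⟨p.1, p.2.comp (inc _)⟩ x₁ x₂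
    refine ⟨lgt_toLight hd s, ?_⟩
    rw [lgt_value]
    exact hs
  · intro p p' x₁ x₁' x₂ x₂' hne
    have hne' : ((⟨p.1, p.2.comp (inc _)⟩, x₁, x₂) : CurvePoint k K × _ × _) ≠
        (⟨p'.1, p'.2.comp (inc _)⟩, x₁', x₂') := by
      intro h
      apply hne
      obtain ⟨a, θ⟩ := p
      obtain ⟨b, θ'⟩ := p'
      have h1 := congrArg Prod.fst h
      have h2 := congrArg Prod.snd h
      have h3 : a = b := congrArg Sigma.fst h1
      subst h3
      have h4 : θ.comp (inc a) = θ'.comp (inc a) := eq_of_heq (Sigma.mk.inj h1).2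
      have h5 : θ = θ' := by
        apply AlgHom.ext
        intro y
        obtain ⟨z, rfl⟩ := inc_surjective a y
        exact congrArg (fun F => F z) h4
      have h6 : (x₁, x₂) = (x₁', x₂') := h2
      rw [h5, h6]
    obtain ⟨s, hs, hs'⟩ := h2 _ _ x₁ x₁' x₂ x₂' hne'
    refine ⟨lgt_toLight hd s, ?_, ?_⟩
    · rw [lgt_value]
      exact hs
    · rw [lgt_value]
      exact hs'
  · intro a θ ℓ₁ ℓ₂ hℓ₁ hℓ₂ hne
    obtain ⟨s, hs, hs'⟩ := h3 a (θ.comp (inc a)) ℓ₁ ℓ₂ hℓ₁ hℓ₂ (by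
      rintro ⟨h1, h2, h3⟩
      have h4 : ∀ b, (θ b).snd = 0 := fun b => by
        obtain ⟨z, rfl⟩ := inc_surjective a b
        exact h1 z
      exact hne ⟨⟨h4, h2⟩, ⟨h4, h3⟩⟩)
    refine ⟨lgt_toLight hd s, ?_, ?_⟩
    · rw [lgt_value]
      exact hs
    · rw [lgt_value]
      exact hs'

end

end Pool.Agent.FJ2
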