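import Pool.Agent.FJ2.Defs

/-!
# FJ2 / MINS: a quotient bundle of least slope
-/

set_option linter.unusedSectionVars false

namespace Pool.Agent.FJ2

open Pool.Agent.Helper38.Scroll Pool.Agent.FJ Matrix Module

section

variable {k K : Type} [Field k] [Field K] [Algebra (RatFunc k) K] [Algebra k K]
  [IsScalarTower k (RatFunc k) K] [IsAlgClosed k] [CharZero k] [FiniteDimensional (RatFunc k) K]

private lemma mins_cast {r s : ℕ} (hs : 0 < s) (hsr : s ≤ r) :
    (((r.factorial / s : ℕ) : ℤ) : ℚ) * s = r.factorial := by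
  have h1 : r.factorial / s * s = r.factorial := Nat.div_mul_cancel (Nat.dvd_factorial hs hsr)
  exact_mod_cast h1

theorem exists_min_slope {r : ℕ} (hr : 0 < r) {h : Option k → Matrix (Fin r) (Fin r) K}
    (hh : IsBundle h) {C : ℚ}
    (hC : ∀ s, 0 < s → ∀ A : Matrix (Fin s) (Fin r) K, A.rank = s → ∀ h',
      IsQuotientBundle h A h' → C * s ≤ degree h') :
    ∃ (s : ℕ) (_ : 0 < s) (_ : s ≤ r) (A : Matrix (Fin s) (Fin r) K) (_ : A.rank = s)
      (h' : Option k → Matrix (Fin s) (Fin s) K), IsQuotientBundle h A h' ∧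
      ∀ t, 0 < t → ∀ B : Matrix (Fin t) (Fin r) K, B.rank = t → ∀ h'',
        IsQuotientBundle h B h'' → (degree h' : ℚ) / s * t ≤ degree h'' := by
  have hle : ∀ {s : ℕ} (A : Matrix (Fin s) (Fin r) K), A.rank = s → s ≤ r := by
    intro s A hA
    have h1 := A.rank_le_width
    omega
  let P : ℤ → Prop := fun z => ∃ (s : ℕ) (_ : 0 < s) (A : Matrix (Fin s) (Fin r) K)
    (_ : A.rank = s) (h' : Option k → Matrix (Fin s) (Fin s) K), IsQuotientBundle h A h' ∧
      z = degree h' * ((r.factorial / s : ℕ) : ℤ)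
  have hbd : ∃ b : ℤ, ∀ z, P z → b ≤ z := by
    refine ⟨⌊C * r.factorial⌋, ?_⟩
    rintro z ⟨s, hs, A, hA, h', hq, rfl⟩
    have h1 := hC s hs A hA h' hq
    have h2 := mins_cast hs (hle A hA)
    have h3 : (0 : ℚ) ≤ (((r.factorial / s : ℕ) : ℤ) : ℚ) := by positivity
    have h4 : C * r.factorial ≤ (degree h' : ℚ) * (((r.factorial / s : ℕ) : ℤ) : ℚ) := by
      rw [← h2]
      calc C * ((((r.factorial / s : ℕ) : ℤ) : ℚ) * s)
          = (C * s) * (((r.factorial / s : ℕ) : ℤ) : ℚ) := by ring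
        _ ≤ (degree h' : ℚ) * (((r.factorial / s : ℕ) : ℤ) : ℚ) :=
          mul_le_mul_of_nonneg_right h1 h3
    have h5 : ((⌊C * r.factorial⌋ : ℤ) : ℚ) ≤
        ((degree h' * ((r.factorial / s : ℕ) : ℤ) : ℤ) : ℚ) := by
      push_cast
      push_cast at h4
      exact (Int.floor_le _).trans h4
    exact_mod_cast h5
  have hin : ∃ z, P z := by
    refine ⟨_, r, hr, 1, ?_, h, ?_, rfl⟩
    · rw [Matrix.rank_one, Fintype.card_fin]
    · intro a
      refine ⟨hh.1 a, ?_⟩
      ext v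
      simp [Matrix.mulVecLin_one]
  obtain ⟨z, ⟨s, hs, A, hA, h', hq, hz⟩, hmin⟩ := Int.exists_least_of_bdd hbd hin
  refine ⟨s, hs, hle A hA, A, hA, h', hq, ?_⟩
  intro t ht B hB h'' hq'
  have h1 := hmin _ ⟨t, ht, B, hB, h'', hq', rfl⟩
  rw [hz] at h1
  have h2 := mins_cast hs (hle A hA)
  have h3 := mins_cast ht (hle B hB)
  have h4 : (degree h' : ℚ) * (((r.factorial / s : ℕ) : ℤ) : ℚ) ≤
      (degree h'' : ℚ) * (((r.factorial / t : ℕ) : ℤ) : ℚ) := by exact_mod_cast h1
  have hs0 : (0 : ℚ) < s := by exact_mod_cast hs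
  have ht0 : (0 : ℚ) < t := by exact_mod_cast ht
  have hf : (0 : ℚ) < r.factorial := by exact_mod_cast r.factorial_pos
  have e1 : (((r.factorial / s : ℕ) : ℤ) : ℚ) = r.factorial / s := by
    rw [eq_div_iff hs0.ne']; exact h2
  have e2 : (((r.factorial / t : ℕ) : ℤ) : ℚ) = r.factorial / t := by
    rw [eq_div_iff ht0.ne']; exact h3
  rw [e1, e2] at h4
  have h5 : (degree h' : ℚ) / s * r.factorial ≤ (degree h'' : ℚ) / t * r.factorial := by
    calc (degree h' : ℚ) / s * r.factorial = (degree h' : ℚ) * (r.factorial / s) := by ring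
      _ ≤ (degree h'' : ℚ) * (r.factorial / t) := h4
      _ = (degree h'' : ℚ) / t * r.factorial := by ring
  have h6 := le_of_mul_le_mul_right h5 hf
  rwa [le_div_iff₀ ht0] at h6

end

end Pool.Agent.FJ2
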