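import Pool.Agent.FJ2.SE
import Pool.Agent.FJ.NUM

/-!
# FJ2 / MIXB: the slope inequality for multilinear maps on two bundles
-/

set_option linter.unusedSectionVars false

namespace Pool.Agent.FJ2

open Pool.Agent.Helper38.Scroll Pool.Agent.FJ Matrix Module

section

/-- The multilinear map on the union of the index sets. -/
noncomputable def mixb_map {K : Type} [Field K] {ι₁ ι₂ : Type} {r₁ r₂ : ℕ}
    (Θ : MultilinearMap K (fun _ : ι₁ => Fin r₁ → K)
      (MultilinearMap K (fun _ : ι₂ => Fin r₂ → K) K)) :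
    MultilinearMap K (fun l : ι₁ ⊕ ι₂ =>
      Fin (Sum.elim (fun _ => r₁) (fun _ => r₂) l : ℕ) → K) K where
  toFun v := Θ (fun i => v (Sum.inl i)) (fun i => v (Sum.inr i))
  map_update_add' v i x y := by
    classical
    rcases i with i | i
    · have h1 : ∀ z : Fin r₁ → K, (fun i' => Function.update v (Sum.inl i) z (Sum.inl i')) =
          Function.update (fun i' => v (Sum.inl i')) i z := by
        intro z
        funext i'
        by_cases h : i' = i
        · subst h
          rw [Function.update_self, Function.update_self]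
        · rw [Function.update_of_ne h, Function.update_of_ne]
          intro h'
          exact h (Sum.inl.inj h')
      have h2 : ∀ z : Fin r₁ → K, (fun i' => Function.update v (Sum.inl i) z (Sum.inr i')) =
          fun i' => v (Sum.inr i') := by
        intro z
        funext i'
        rw [Function.update_of_ne]
        simp
      have h3 := Θ.map_update_add (fun i' => (v (Sum.inl i') : Fin r₁ → K)) i x y
      rw [h1, h1, h1, h2, h2, h2]
      exact congrArg (fun f : MultilinearMap K (fun _ : ι₂ => Fin r₂ → K) K =>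
        f (fun i' => (v (Sum.inr i') : Fin r₂ → K))) h3
    · have h1 : ∀ z : Fin r₂ → K, (fun i' => Function.update v (Sum.inr i) z (Sum.inr i')) =
          Function.update (fun i' => v (Sum.inr i')) i z := by
        intro z
        funext i'
        by_cases h : i' = i
        · subst h
          rw [Function.update_self, Function.update_self]
        · rw [Function.update_of_ne h, Function.update_of_ne]
          intro h'
          exact h (Sum.inr.inj h')
      have h2 : ∀ z : Fin r₂ → K, (fun i' => Function.update v (Sum.inr i) z (Sum.inl i')) =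
          fun i' => v (Sum.inl i') := by
        intro z
        funext i'
        rw [Function.update_of_ne]
        simp
      rw [h1, h1, h1, h2, h2, h2]
      exact (Θ (fun i' => (v (Sum.inl i') : Fin r₁ → K))).map_update_add
        (fun i' => (v (Sum.inr i') : Fin r₂ → K)) i x y
  map_update_smul' v i c x := by
    classical
    rcases i with i | i
    · have h1 : ∀ z : Fin r₁ → K, (fun i' => Function.update v (Sum.inl i) z (Sum.inl i')) =
          Function.update (fun i' => v (Sum.inl i')) i z := by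
        intro z
        funext i'
        by_cases h : i' = i
        · subst h
          rw [Function.update_self, Function.update_self]
        · rw [Function.update_of_ne h, Function.update_of_ne]
          intro h'
          exact h (Sum.inl.inj h')
      have h2 : ∀ z : Fin r₁ → K, (fun i' => Function.update v (Sum.inl i) z (Sum.inr i')) =
          fun i' => v (Sum.inr i') := by
        intro z
        funext i'
        rw [Function.update_of_ne]
        simp
      have h3 := Θ.map_update_smul (fun i' => (v (Sum.inl i') : Fin r₁ → K)) i c x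
      rw [h1, h1, h2, h2]
      exact congrArg (fun f : MultilinearMap K (fun _ : ι₂ => Fin r₂ → K) K =>
        f (fun i' => (v (Sum.inr i') : Fin r₂ → K))) h3
    · have h1 : ∀ z : Fin r₂ → K, (fun i' => Function.update v (Sum.inr i) z (Sum.inr i')) =
          Function.update (fun i' => v (Sum.inr i')) i z := by
        intro z
        funext i'
        by_cases h : i' = i
        · subst h
          rw [Function.update_self, Function.update_self]
        · rw [Function.update_of_ne h, Function.update_of_ne]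
          intro h'
          exact h (Sum.inr.inj h')
      have h2 : ∀ z : Fin r₂ → K, (fun i' => Function.update v (Sum.inr i) z (Sum.inl i')) =
          fun i' => v (Sum.inl i') := by
        intro z
        funext i'
        rw [Function.update_of_ne]
        simp
      rw [h1, h1, h2, h2]
      exact (Θ (fun i' => (v (Sum.inl i') : Fin r₁ → K))).map_update_smul
        (fun i' => (v (Sum.inr i') : Fin r₂ → K)) i c x

theorem mixb_map_apply {K : Type} [Field K] {ι₁ ι₂ : Type} {r₁ r₂ : ℕ}
    (Θ : MultilinearMap K (fun _ : ι₁ => Fin r₁ → K)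
      (MultilinearMap K (fun _ : ι₂ => Fin r₂ → K) K))
    (v : ∀ l : ι₁ ⊕ ι₂, Fin (Sum.elim (fun _ => r₁) (fun _ => r₂) l : ℕ) → K) :
    mixb_map Θ v = Θ (fun i => v (Sum.inl i)) (fun i => v (Sum.inr i)) := rfl

variable {k K : Type} [Field k] [Field K] [Algebra (RatFunc k) K] [Algebra k K]
  [IsScalarTower k (RatFunc k) K] [IsAlgClosed k] [CharZero k] [FiniteDimensional (RatFunc k) K]

theorem slope_mixed {ι₁ ι₂ : Type} [Fintype ι₁] [Fintype ι₂] {r₁ r₂ : ℕ}
    {h₁ : Option k → Matrix (Fin r₁) (Fin r₁) K} (hh₁ : IsBundle h₁)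
    {h₂ : Option k → Matrix (Fin r₂) (Fin r₂) K} (hh₂ : IsBundle h₂) {μ₁ μ₂ : ℚ}
    (hμ₁ : ∀ s, 0 < s → ∀ A : Matrix (Fin s) (Fin r₁) K, A.rank = s → ∀ h',
      IsQuotientBundle h₁ A h' → μ₁ * s ≤ degree h')
    (hμ₂ : ∀ s, 0 < s → ∀ A : Matrix (Fin s) (Fin r₂) K, A.rank = s → ∀ h',
      IsQuotientBundle h₂ A h' → μ₂ * s ≤ degree h')
    (Θ : MultilinearMap K (fun _ : ι₁ => Fin r₁ → K)
      (MultilinearMap K (fun _ : ι₂ => Fin r₂ → K) K)) (h0 : Θ ≠ 0) {ν : Option k → K}
    (hν : ∀ a, ν a ≠ 0)
    (hfin : {a | ¬ (Curve.Regular a (ν a) ∧ Curve.Regular a (ν a)⁻¹)}.Finite)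
    (hval : ∀ a (v : ι₁ → Fin r₁ → K) (w : ι₂ → Fin r₂ → K), (∀ i, v i ∈ lattice a (h₁ a)) →
      (∀ i, w i ∈ lattice a (h₂ a)) → ∃ c, Curve.Regular a c ∧ Θ v w = ν a * c) :
    μ₁ * Fintype.card ι₁ + μ₂ * Fintype.card ι₂ ≤
      ((-∑ᶠ a, Curve.ordOver a (ν a) : ℤ) : ℚ) := by
  classical
  set N : ι₁ ⊕ ι₂ → ℕ := fun l => Sum.elim (fun _ => r₁) (fun _ => r₂) l with hN
  let g : ∀ l : ι₁ ⊕ ι₂, Option k → Matrix (Fin (N l)) (Fin (N l)) K := fun l =>
    match l with
    | Sum.inl _ => h₁
    | Sum.inr _ => h₂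
  let μ : ι₁ ⊕ ι₂ → ℚ := Sum.elim (fun _ => μ₁) (fun _ => μ₂)
  have hd0 : 0 < finrank (RatFunc k) K := Module.finrank_pos
  have hden : 0 < μ₁.den * μ₂.den := Nat.mul_pos μ₁.den_pos μ₂.den_pos
  let p : ι₁ ⊕ ι₂ → ℤ := Sum.elim (fun _ => μ₁.num * μ₂.den) (fun _ => μ₂.num * μ₁.den)
  have e1 : (μ₁ : ℝ) * (μ₁.den : ℝ) = μ₁.num := by
    have h1 := Rat.mul_den_eq_num μ₁
    exact_mod_cast congrArg (fun q : ℚ => (q : ℝ)) h1
  have e2 : (μ₂ : ℝ) * (μ₂.den : ℝ) = μ₂.num := by
    have h1 := Rat.mul_den_eq_num μ₂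
    exact_mod_cast congrArg (fun q : ℚ => (q : ℝ)) h1
  have hp : ∀ l, ((μ l : ℚ) : ℝ) * ((finrank (RatFunc k) K * (μ₁.den * μ₂.den) : ℕ) : ℝ) =
      p l * finrank (RatFunc k) K := by
    rintro (l | l)
    · change ((μ₁ : ℚ) : ℝ) * ((finrank (RatFunc k) K * (μ₁.den * μ₂.den) : ℕ) : ℝ) =
        ((μ₁.num * μ₂.den : ℤ) : ℝ) * finrank (RatFunc k) K
      push_cast
      rw [← e1]
      ring
    · change ((μ₂ : ℚ) : ℝ) * ((finrank (RatFunc k) K * (μ₁.den * μ₂.den) : ℕ) : ℝ) =
        ((μ₂.num * μ₁.den : ℤ) : ℝ) * finrank (RatFunc k) K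
      push_cast
      rw [← e2]
      ring
  have hmain := slope_family_aux (k := k) (K := K) (J := ι₁ ⊕ ι₂) (n := N) (g := g)
    (mu := fun l => ((μ l : ℚ) : ℝ)) ?_ ?_ (Nat.mul_pos hd0 hden) p hp (mixb_map Θ) ?_ ν hν
    hfin ?_
  · have h3 : ∑ l, ((μ l : ℚ) : ℝ) =
        ((μ₁ * Fintype.card ι₁ + μ₂ * Fintype.card ι₂ : ℚ) : ℝ) := by
      rw [Fintype.sum_sum_type]
      have h4 : ∀ i : ι₁, μ (Sum.inl i) = μ₁ := fun _ => rfl
      have h5 : ∀ i : ι₂, μ (Sum.inr i) = μ₂ := fun _ => rfl
      simp only [h4, h5, Finset.sum_const, Finset.card_univ, nsmul_eq_mul]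
      push_cast
      ring
    rw [h3] at hmain
    have h6 : (∑ᶠ a, Curve.ordOver a (ν a)) = ∑ᶠ a, ordOver a (ν a) := rfl
    rw [h6]
    exact_mod_cast hmain
  · rintro (l | l)
    · exact hh₁
    · exact hh₂
  · rintro (l | l)
    · intro r hr A hA h hh
      have h2 := hμ₁ r hr A hA h hh
      have h7 : ((μ₁ * r : ℚ) : ℝ) ≤ ((degree h : ℚ) : ℝ) := by exact_mod_cast h2
      push_cast at h7
      exact h7
    · intro r hr A hA h hh
      have h2 := hμ₂ r hr A hA h hh
      have h7 : ((μ₂ * r : ℚ) : ℝ) ≤ ((degree h : ℚ) : ℝ) := by exact_mod_cast h2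
      push_cast at h7
      exact h7
  · intro h
    apply h0
    refine MultilinearMap.ext fun v => MultilinearMap.ext fun w => ?_
    have h8 := mixb_map_apply Θ (fun l => match l with
      | Sum.inl i => v i
      | Sum.inr i => w i)
    rw [h] at h8
    exact h8.symm
  · intro a v hv
    exact hval a (fun i => v (Sum.inl i)) (fun i => v (Sum.inr i)) (fun i => hv (Sum.inl i))
      (fun i => hv (Sum.inr i))

end

end Pool.Agent.FJ2
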