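import Mathlib

/-!
# FJ2 / NUM: the numerics for fibre products
-/

set_option autoImplicit false

namespace Pool.Agent.FJ2

/-- the factor of one of the two bundles -/
private theorem num_factor {n s l N : ℚ} (hs : 1 ≤ s) (hn : s ≤ n) (hN : 0 < N)
    (hl : N * l ≤ n) : (N - n + s) / (N * s) ≤ (1 - l) / s + l / n := by
  have hs0 : 0 < s := by linarith
  have hn0 : 0 < n := by linarith
  have h1 : (1 - l) / s + l / n - (N - n + s) / (N * s) = (n - s) * (n - N * l) / (N * s * n) := by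
    field_simp
    ring
  have h2 : 0 ≤ (n - s) * (n - N * l) / (N * s * n) :=
    div_nonneg (mul_nonneg (by linarith) (by linarith)) (by positivity)
  linarith

private theorem num_main {n1 n2 M1 M2 s1 s2 r x1 x2 y1 y2 b : ℚ}
    (hs1 : 1 ≤ s1) (hn1 : s1 ≤ n1) (hs2 : 1 ≤ s2) (hn2 : s2 ≤ n2)
    (hr : s1 + s2 ≤ r) (hM1 : n1 + n2 + 1 ≤ M1) (hM2 : n1 + n2 + 1 ≤ M2)
    (h11 : (n1 + n2 + 1) / (s1 * s2) ≤ M1 * x1 + M2 * x2 + b)
    (h21 : (n1 + n2 + 1) / (n1 * s2) ≤ M1 * y1 + M2 * x2 + b)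
    (h12 : (n1 + n2 + 1) / (s1 * n2) ≤ M1 * x1 + M2 * y2 + b)
    (h22 : (n1 + n2 + 1) / (n1 * n2) ≤ M1 * y1 + M2 * y2 + b) :
    4 < r * ((M1 - n1) * x1 + (M2 - n2) * x2 + n1 * y1 + n2 * y2 + b) := by
  have hs10 : 0 < s1 := by linarith
  have hs20 : 0 < s2 := by linarith
  have hn10 : 0 < n1 := by linarith
  have hn20 : 0 < n2 := by linarith
  obtain ⟨N, hN⟩ : ∃ N, N = n1 + n2 + 1 := ⟨_, rfl⟩
  rw [← hN] at hM1 hM2 h11 h21 h12 h22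
  have hN0 : 0 < N := by linarith
  have hM10 : 0 < M1 := by linarith
  have hM20 : 0 < M2 := by linarith
  obtain ⟨l1, hl1⟩ : ∃ l, M1 * l = n1 := ⟨n1 / M1, by field_simp⟩
  obtain ⟨l2, hl2⟩ : ∃ l, M2 * l = n2 := ⟨n2 / M2, by field_simp⟩
  have hl10 : 0 ≤ l1 := by
    by_contra h
    nlinarith
  have hl20 : 0 ≤ l2 := by
    by_contra h
    nlinarith
  have hl1N : N * l1 ≤ n1 := by
    rw [← hl1]
    exact mul_le_mul_of_nonneg_right hM1 hl10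
  have hl2N : N * l2 ≤ n2 := by
    rw [← hl2]
    exact mul_le_mul_of_nonneg_right hM2 hl20
  have hl11 : l1 ≤ 1 := by
    by_contra h
    nlinarith
  have hl21 : l2 ≤ 1 := by
    by_contra h
    nlinarith
  obtain ⟨U, hU⟩ : ∃ U, U = (M1 - n1) * x1 + (M2 - n2) * x2 + n1 * y1 + n2 * y2 + b := ⟨_, rfl⟩
  rw [← hU]
  have hU1 : U = (1 - l1) * (1 - l2) * (M1 * x1 + M2 * x2 + b) +
      l1 * (1 - l2) * (M1 * y1 + M2 * x2 + b) + (1 - l1) * l2 * (M1 * x1 + M2 * y2 + b) +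
      l1 * l2 * (M1 * y1 + M2 * y2 + b) := by
    rw [hU, ← hl1, ← hl2]
    ring
  have hA1 := num_factor hs1 hn1 hN0 hl1N
  have hA2 := num_factor hs2 hn2 hN0 hl2N
  have hU2 : N * (((1 - l1) / s1 + l1 / n1) * ((1 - l2) / s2 + l2 / n2)) ≤ U := by
    have e : N * (((1 - l1) / s1 + l1 / n1) * ((1 - l2) / s2 + l2 / n2)) =
        (1 - l1) * (1 - l2) * (N / (s1 * s2)) + l1 * (1 - l2) * (N / (n1 * s2)) +
        (1 - l1) * l2 * (N / (s1 * n2)) + l1 * l2 * (N / (n1 * n2)) := by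
      field_simp
      ring
    rw [e, hU1]
    have w11 : 0 ≤ (1 - l1) * (1 - l2) := mul_nonneg (by linarith) (by linarith)
    have w21 : 0 ≤ l1 * (1 - l2) := mul_nonneg (by linarith) (by linarith)
    have w12 : 0 ≤ (1 - l1) * l2 := mul_nonneg (by linarith) (by linarith)
    have w22 : 0 ≤ l1 * l2 := mul_nonneg hl10 hl20
    exact add_le_add (add_le_add (add_le_add (mul_le_mul_of_nonneg_left h11 w11)
      (mul_le_mul_of_nonneg_left h21 w21)) (mul_le_mul_of_nonneg_left h12 w12))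
      (mul_le_mul_of_nonneg_left h22 w22)
  have hB1 : 0 ≤ (N - n1 + s1) / (N * s1) := div_nonneg (by linarith) (by positivity)
  have hB2 : 0 ≤ (N - n2 + s2) / (N * s2) := div_nonneg (by linarith) (by positivity)
  have hU3 : N * ((N - n1 + s1) / (N * s1) * ((N - n2 + s2) / (N * s2))) ≤ U :=
    (mul_le_mul_of_nonneg_left (mul_le_mul hA1 hA2 hB2 (hB1.trans hA1)) hN0.le).trans hU2
  have hU4 : (s1 + s2 + 1) / (s1 * s2) ≤ U := by
    refine le_trans ?_ hU3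
    have e : N * ((N - n1 + s1) / (N * s1) * ((N - n2 + s2) / (N * s2))) =
        (N - n1 + s1) * (N - n2 + s2) / (N * (s1 * s2)) := by
      field_simp
    rw [e, div_le_div_iff₀ (by positivity) (by positivity)]
    have h1 : (s1 + s2 + 1) * N ≤ (N - n1 + s1) * (N - n2 + s2) := by
      rw [hN]
      nlinarith [mul_nonneg (sub_nonneg.2 hn1) (sub_nonneg.2 hn2)]
    have h2 : 0 ≤ s1 * s2 := by positivity
    calc (s1 + s2 + 1) * (N * (s1 * s2)) = (s1 + s2 + 1) * N * (s1 * s2) := by ring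
      _ ≤ (N - n1 + s1) * (N - n2 + s2) * (s1 * s2) := mul_le_mul_of_nonneg_right h1 h2
  have hU5 : 4 < (s1 + s2) * ((s1 + s2 + 1) / (s1 * s2)) := by
    rw [mul_div_assoc', lt_div_iff₀ (by positivity)]
    nlinarith [sq_nonneg (s1 - s2)]
  have hU6 : (s1 + s2) * ((s1 + s2 + 1) / (s1 * s2)) ≤ r * U :=
    mul_le_mul hr hU4 (by positivity) (by linarith)
  linarith

theorem numerics₂ {n₁ n₂ M₁ M₂ s₁ s₂ r : ℕ} {x₁ x₂ y₁ y₂ b : ℚ}
    (hs₁ : 0 < s₁) (hs₁' : s₁ ≤ n₁) (hs₂ : 0 < s₂) (hs₂' : s₂ ≤ n₂)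
    (hr : s₁ + s₂ ≤ r) (hM₁ : n₁ + n₂ + 1 ≤ M₁) (hM₂ : n₁ + n₂ + 1 ≤ M₂)
    (h11 : ((n₁ : ℚ) + n₂ + 1) / (s₁ * s₂) ≤ M₁ * x₁ + M₂ * x₂ + b)
    (h21 : ((n₁ : ℚ) + n₂ + 1) / (n₁ * s₂) ≤ M₁ * y₁ + M₂ * x₂ + b)
    (h12 : ((n₁ : ℚ) + n₂ + 1) / (s₁ * n₂) ≤ M₁ * x₁ + M₂ * y₂ + b)
    (h22 : ((n₁ : ℚ) + n₂ + 1) / (n₁ * n₂) ≤ M₁ * y₁ + M₂ * y₂ + b) :
    4 < r * (((M₁ : ℚ) - n₁) * x₁ + ((M₂ : ℚ) - n₂) * x₂ + n₁ * y₁ + n₂ * y₂ + b) := by
  refine num_main (s1 := s₁) (s2 := s₂) (by exact_mod_cast hs₁) (by exact_mod_cast hs₁')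
    (by exact_mod_cast hs₂) (by exact_mod_cast hs₂') (by exact_mod_cast hr)
    (by exact_mod_cast hM₁) (by exact_mod_cast hM₂) h11 h21 h12 h22

end Pool.Agent.FJ2
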