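import Pool.Agent.FJ2.Defs

/-!
# FJ2, module PRJ (helper42): the component of a given degree in the variables of the first kind
-/

set_option linter.unusedSectionVars false

namespace Pool.Agent.FJ2

open Pool.Agent.Helper38.Scroll Pool.Agent.FJ Matrix Module

/-! ## Products with a weighted homogeneous polynomial -/

theorem prj_mul {R σ : Type} [CommRing R] (w : σ → ℕ) {m : ℕ} {A : MvPolynomial σ R}
    (hA : A.IsWeightedHomogeneous w m) (d : ℕ) (Y : MvPolynomial σ R) :
    MvPolynomial.weightedHomogeneousComponent w (m + d) (A * Y) =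
      A * MvPolynomial.weightedHomogeneousComponent w d Y := by
  induction Y using MvPolynomial.induction_on' with
  | monomial s c =>
    have h1 := MvPolynomial.isWeightedHomogeneous_monomial w s c rfl
    have h2 := hA.mul h1
    by_cases h : Finsupp.weight w s = d
    · subst h
      rw [h1.weightedHomogeneousComponent_same, h2.weightedHomogeneousComponent_same]
    · rw [h1.weightedHomogeneousComponent_ne d (Ne.symm h), mul_zero]
      apply h2.weightedHomogeneousComponent_ne
      omega
  | add p q hp hq => rw [mul_add, map_add, hp, hq, map_add, mul_add]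

theorem prj_mul_zero {R σ : Type} [CommRing R] (w : σ → ℕ) {A : MvPolynomial σ R}
    (hA : A.IsWeightedHomogeneous w 1) (Y : MvPolynomial σ R) :
    MvPolynomial.weightedHomogeneousComponent w 0 (A * Y) = 0 := by
  induction Y using MvPolynomial.induction_on' with
  | monomial s c =>
    have h1 := MvPolynomial.isWeightedHomogeneous_monomial w s c rfl
    have h2 := hA.mul h1
    apply h2.weightedHomogeneousComponent_ne
    omega
  | add p q hp hq => rw [mul_add, map_add, hp, hq, add_zero]

theorem prj_hom {R σ : Type} [CommRing R] (w : σ → ℕ) {e : ℕ} (d : ℕ) {Y : MvPolynomial σ R}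
    (hY : Y.IsHomogeneous e) :
    (MvPolynomial.weightedHomogeneousComponent w d Y).IsHomogeneous e := by
  intro s hs
  rw [MvPolynomial.coeff_weightedHomogeneousComponent] at hs
  split_ifs at hs with h
  · exact hY hs
  · exact absurd rfl hs

variable {n₁ n₂ : ℕ}

theorem prj_wt_left (i : Fin n₁) : wt n₁ n₂ (Fin.castAdd n₂ i) = 1 := by
  simp [wt]

theorem prj_wt_right (i : Fin n₂) : wt n₁ n₂ (Fin.natAdd n₁ i) = 0 := by
  simp [wt]

/-- a vector all of whose components of the other kind vanish -/
theorem prj_lin {R : Type} [CommRing R] {m : ℕ} {v : Fin (n₁ + n₂) → R}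
    (hv : ∀ i, wt n₁ n₂ i ≠ m → v i = 0) :
    (lin v).IsWeightedHomogeneous (wt n₁ n₂) m := by
  unfold lin
  apply Submodule.sum_mem (MvPolynomial.weightedHomogeneousSubmodule R (wt n₁ n₂) m)
  intro i _
  by_cases h : wt n₁ n₂ i = m
  · have h1 := (MvPolynomial.isWeightedHomogeneous_C (wt n₁ n₂) (v i)).mul
      (MvPolynomial.isWeightedHomogeneous_X R (wt n₁ n₂) i)
    rw [zero_add, h] at h1
    exact h1
  · rw [hv i h, map_zero, zero_mul]
    exact Submodule.zero_mem _

variable {k K : Type} [Field k] [Field K] [Algebra (RatFunc k) K] [Algebra k K]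
  [IsScalarTower k (RatFunc k) K] [IsAlgClosed k] [CharZero k] [FiniteDimensional (RatFunc k) K]

/-- the component of degree `d` in the variables of the first kind, over any ring -/
theorem comp_Jmod {e d : ℕ} {a : Option k}
    {Λ₁ : Submodule (regRing k K a) (Fin n₁ → regRing k K a)}
    {Λ₂ : Submodule (regRing k K a) (Fin n₂ → regRing k K a)}
    {T : MvPolynomial (Fin (n₁ + n₂)) (regRing k K a)} (hT : T ∈ Jmod e (splitΛ Λ₁ Λ₂)) :
    MvPolynomial.weightedHomogeneousComponent (wt n₁ n₂) d T ∈ Jmod e (splitΛ Λ₁ Λ₂) := by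
  have key : Jmod e (splitΛ Λ₁ Λ₂) ≤ (Jmod e (splitΛ Λ₁ Λ₂)).comap
      (MvPolynomial.weightedHomogeneousComponent (wt n₁ n₂) d) := by
    conv_lhs => unfold Pool.Agent.FJ.Jmod
    refine Submodule.span_le.mpr ?_
    rintro _ ⟨v, hv, Y, hY, rfl⟩
    rw [SetLike.mem_coe, Submodule.mem_comap]
    obtain ⟨v1, hv1⟩ : ∃ v1 : Fin (n₁ + n₂) → regRing k K a,
        v1 = Fin.append (fun i => v (Fin.castAdd n₂ i)) (fun _ => 0) := ⟨_, rfl⟩
    obtain ⟨v2, hv2⟩ : ∃ v2 : Fin (n₁ + n₂) → regRing k K a,
        v2 = Fin.append (fun _ => 0) (fun i => v (Fin.natAdd n₁ i)) := ⟨_, rfl⟩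
    have h12 : v = v1 + v2 := by
      funext i
      refine Fin.addCases (fun j => ?_) (fun j => ?_) i
      · simp [hv1, hv2]
      · simp [hv1, hv2]
    have hm1 : v1 ∈ splitΛ Λ₁ Λ₂ := by
      rw [mem_splitΛ]
      constructor
      · simpa [hv1] using hv.1
      · have h1 : (fun i => v1 (Fin.natAdd n₁ i)) = 0 := by
          funext i
          simp [hv1]
        rw [h1]
        exact Λ₂.zero_mem
    have hm2 : v2 ∈ splitΛ Λ₁ Λ₂ := by
      rw [mem_splitΛ]
      constructor
      · have h1 : (fun i => v2 (Fin.castAdd n₂ i)) = 0 := by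
          funext i
          simp [hv2]
        rw [h1]
        exact Λ₁.zero_mem
      · simpa [hv2] using hv.2
    have hw1 : (lin v1).IsWeightedHomogeneous (wt n₁ n₂) 1 := by
      apply prj_lin
      intro i
      refine Fin.addCases (fun j => ?_) (fun j => ?_) i
      · intro h
        exact absurd (prj_wt_left j) h
      · intro _
        simp [hv1]
    have hw2 : (lin v2).IsWeightedHomogeneous (wt n₁ n₂) 0 := by
      apply prj_lin
      intro i
      refine Fin.addCases (fun j => ?_) (fun j => ?_) i
      · intro _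
        simp [hv2]
      · intro h
        exact absurd (prj_wt_right j) h
    rw [h12, lin_add, add_mul, map_add]
    refine Submodule.add_mem _ ?_ ?_
    · rcases Nat.eq_zero_or_pos d with rfl | hd
      · rw [prj_mul_zero _ hw1]
        exact Submodule.zero_mem _
      · obtain ⟨d', rfl⟩ : ∃ d', d = 1 + d' := ⟨d - 1, by omega⟩
        rw [prj_mul _ hw1]
        exact Submodule.subset_span ⟨v1, hm1, _, prj_hom _ d' hY, rfl⟩
    · have h0 : d = 0 + d := by omega
      rw [h0, prj_mul _ hw2]
      exact Submodule.subset_span ⟨v2, hm2, _, prj_hom _ d hY, rfl⟩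
  exact key hT

theorem prj_loc {m : ℕ} {a : Option k} (t : K) (g₁ : Matrix (Fin n₁) (Fin n₁) K)
    (g₂ : Matrix (Fin n₂) (Fin n₂) K) (s : Fin (n₁ + n₂) →₀ ℕ) (c : regRing k K a)
    (hs : Finsupp.weight (wt n₁ n₂) s = m) :
    (locMap a t (bd g₁ g₂) (MvPolynomial.monomial s c)).IsWeightedHomogeneous
      (wt n₁ n₂) m := by
  rw [Pool.Agent.FJ.locMap_apply, MvPolynomial.map_monomial]
  unfold subst
  rw [MvPolynomial.aeval_monomial]
  have hcol : ∀ j : Fin (n₁ + n₂), (lin (fun i => bd g₁ g₂ i j)).IsWeightedHomogeneous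
      (wt n₁ n₂) (wt n₁ n₂ j) := by
    intro j
    apply prj_lin
    intro i
    refine Fin.addCases (fun i' => ?_) (fun i' => ?_) i
    · refine Fin.addCases (fun j' => ?_) (fun j' => ?_) j
      · intro h
        exact absurd ((prj_wt_left i').trans (prj_wt_left j').symm) h
      · intro _
        simp [bd]
    · refine Fin.addCases (fun j' => ?_) (fun j' => ?_) j
      · intro _
        simp [bd]
      · intro h
        exact absurd ((prj_wt_right i').trans (prj_wt_right j').symm) h
  have hprod : (s.prod fun i e => (lin (fun l => bd g₁ g₂ l i)) ^ e).IsWeightedHomogeneous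
      (wt n₁ n₂) m := by
    rw [← hs, Finsupp.weight_apply]
    unfold Finsupp.prod Finsupp.sum
    apply MvPolynomial.IsWeightedHomogeneous.prod
    intro i _
    exact (hcol i).pow (s i)
  have h1 := (MvPolynomial.isWeightedHomogeneous_C (wt n₁ n₂) t).mul
    ((MvPolynomial.isWeightedHomogeneous_C (wt n₁ n₂)
      ((algebraMap (regRing k K a) K) c)).mul hprod)
  rw [zero_add, zero_add] at h1
  exact h1

theorem comp_locMap {d : ℕ} {a : Option k} (t : K) (g₁ : Matrix (Fin n₁) (Fin n₁) K)
    (g₂ : Matrix (Fin n₂) (Fin n₂) K) (T : MvPolynomial (Fin (n₁ + n₂)) (regRing k K a)) :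
    MvPolynomial.weightedHomogeneousComponent (wt n₁ n₂) d (locMap a t (bd g₁ g₂) T) =
      locMap a t (bd g₁ g₂) (MvPolynomial.weightedHomogeneousComponent (wt n₁ n₂) d T) := by
  induction T using MvPolynomial.induction_on' with
  | monomial s c =>
    have h1 := MvPolynomial.isWeightedHomogeneous_monomial (wt n₁ n₂) s c rfl
    have h2 := prj_loc t g₁ g₂ s c rfl
    by_cases h : Finsupp.weight (wt n₁ n₂) s = d
    · subst h
      rw [h1.weightedHomogeneousComponent_same, h2.weightedHomogeneousComponent_same]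
    · rw [h1.weightedHomogeneousComponent_ne d (Ne.symm h), map_zero,
        h2.weightedHomogeneousComponent_ne d (Ne.symm h)]
  | add p q hp hq => rw [map_add, map_add, hp, hq, map_add, map_add]

end Pool.Agent.FJ2
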