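import Pool.Agent.FJ.REG
import Pool.Agent.FJ2.Defs
import Pool.Agent.FJ2.PRJ

/-!
# FJ2 / PHI: a functional with values in the canonical bundle, forms of bidegree `(d, e + 1 - d)`

As `exists_phi` (FJ/REG), composed with the projection to the component of weight `d`.
-/

set_option linter.unusedSectionVars false

namespace Pool.Agent.FJ2

open Pool.Agent.Helper38.Scroll Pool.Agent.FJ Matrix Module

variable {k K : Type} [Field k] [Field K] [Algebra (RatFunc k) K] [Algebra k K]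
  [IsScalarTower k (RatFunc k) K] {n₁ n₂ : ℕ}
  [IsAlgClosed k] [CharZero k] [FiniteDimensional (RatFunc k) K]

theorem exists_phi₂ (Q₁ : Conditions k K n₁) (Q₂ : Conditions k K n₂)
    {g₁ : Option k → Matrix (Fin n₁) (Fin n₁) K} {g₂ : Option k → Matrix (Fin n₂) (Fin n₂) K}
    (hg : IsBundle fun a => bd (g₁ a) (g₂ a)) (e d : ℕ) {τ : Option k → K} (hτ : IsTwist τ)
    {w : Option k → K} (hw : ∀ a, IsCanonicalGenerator a (w a))
    {u : BF K n₁ n₂ e d} (hu : u ∉ (latFam₂ (splitC Q₁ Q₂) hg e d hτ).W0 ⊔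
      (latFam₂ (splitC Q₁ Q₂) hg e d hτ).Wi) :
    ∃ φ : MvPolynomial (Fin (n₁ + n₂)) K →ₗ[K] K,
      (∃ P : MvPolynomial (Fin (n₁ + n₂)) K, P.IsHomogeneous (e + 1) ∧ φ P ≠ 0) ∧
      (∀ P : MvPolynomial (Fin (n₁ + n₂)) K, P.IsHomogeneous (e + 1) →
        φ P = φ (MvPolynomial.weightedHomogeneousComponent (wt n₁ n₂) d P)) ∧
      ∀ a, ∀ T ∈ Jmod e ((splitC Q₁ Q₂).Λ a), ∃ b ∈ regRing k K a,
        φ (locMap a (τ a) (bd (g₁ a) (g₂ a)) T) = w a * b := by
  obtain ⟨l, hl0, hlf, hli⟩ := (latFam₂ (splitC Q₁ Q₂) hg e d hτ).exists_functional ⟨u, hu⟩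
  obtain ⟨φ₀, hφ₀⟩ := reg_exists_repr (F := RatFunc k) (K := K) (V := BF K n₁ n₂ e d) l
  let T0 : MvPolynomial (Fin (n₁ + n₂)) K →ₗ[K] MvPolynomial (Fin (n₁ + n₂)) K :=
    (MvPolynomial.weightedHomogeneousComponent (wt n₁ n₂) d) ∘ₗ
      (MvPolynomial.homogeneousComponent (e + 1))
  have hT0a : ∀ P, (T0 P).IsHomogeneous (e + 1) := fun P =>
    prj_hom (wt n₁ n₂) d (MvPolynomial.homogeneousComponent_isHomogeneous _ _)
  have hT0b : ∀ P, (T0 P).IsWeightedHomogeneous (wt n₁ n₂) d := fun P =>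
    MvPolynomial.weightedHomogeneousComponent_isWeightedHomogeneous _ _
  have hT0c : ∀ P : MvPolynomial (Fin (n₁ + n₂)) K, P.IsHomogeneous (e + 1) →
      T0 P = MvPolynomial.weightedHomogeneousComponent (wt n₁ n₂) d P := by
    intro P hP
    show MvPolynomial.weightedHomogeneousComponent (wt n₁ n₂) d
      (MvPolynomial.homogeneousComponent (e + 1) P) = _
    rw [MvPolynomial.homogeneousComponent_of_mem
      ((MvPolynomial.mem_homogeneousSubmodule _ _).2 hP), if_pos rfl]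
  let π : MvPolynomial (Fin (n₁ + n₂)) K →ₗ[K] BF K n₁ n₂ e d :=
    LinearMap.codRestrict _ (LinearMap.codRestrict _ T0 fun P =>
      (MvPolynomial.mem_homogeneousSubmodule _ _).2 (hT0a P)) fun P => hT0b P
  have hπ0 : ∀ P, ((π P : Forms K (n₁ + n₂) e) : MvPolynomial (Fin (n₁ + n₂)) K) = T0 P :=
    fun P => rfl
  have hπc : ∀ P : MvPolynomial (Fin (n₁ + n₂)) K, P.IsHomogeneous (e + 1) →
      π P = π (MvPolynomial.weightedHomogeneousComponent (wt n₁ n₂) d P) := by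
    intro P hP
    apply Subtype.ext
    apply Subtype.ext
    rw [hπ0, hπ0, hT0c P hP, hT0c _ (prj_hom (wt n₁ n₂) d hP)]
    exact ((MvPolynomial.weightedHomogeneousComponent_isWeightedHomogeneous
      d P).weightedHomogeneousComponent_same).symm
  have hπX : ∀ X : BF K n₁ n₂ e d,
      π ((X : Forms K (n₁ + n₂) e) : MvPolynomial (Fin (n₁ + n₂)) K) = X := by
    intro X
    apply Subtype.ext
    apply Subtype.ext
    rw [hπ0, hT0c _ ((MvPolynomial.mem_homogeneousSubmodule _ _).1 X.1.2)]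
    exact (mem_BF.1 X.2).weightedHomogeneousComponent_same
  refine ⟨φ₀ ∘ₗ π, ?_, ?_, ?_⟩
  · by_contra hcon
    push Not at hcon
    apply hl0
    ext1 X
    have h1 := hcon X.1.1 ((MvPolynomial.mem_homogeneousSubmodule _ _).1 X.1.2)
    rw [LinearMap.comp_apply, hπX] at h1
    rw [hφ₀, h1, map_zero, LinearMap.zero_apply]
  · intro P hP
    rw [LinearMap.comp_apply, LinearMap.comp_apply, hπc P hP]
  · intro a T hT
    set T' := MvPolynomial.weightedHomogeneousComponent (wt n₁ n₂) d T with hT'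
    have hT'J : T' ∈ Jmod e ((splitC Q₁ Q₂).Λ a) := comp_Jmod hT
    have hTh : (locMap a (τ a) (bd (g₁ a) (g₂ a)) T).IsHomogeneous (e + 1) :=
      locMap_isHomogeneous _ _ (Jmod_isHomogeneous hT)
    have hTh' : (locMap a (τ a) (bd (g₁ a) (g₂ a)) T').IsHomogeneous (e + 1) :=
      locMap_isHomogeneous _ _ (Jmod_isHomogeneous hT'J)
    have hc : MvPolynomial.weightedHomogeneousComponent (wt n₁ n₂) d
        (locMap a (τ a) (bd (g₁ a) (g₂ a)) T) = locMap a (τ a) (bd (g₁ a) (g₂ a)) T' :=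
      comp_locMap (τ a) (g₁ a) (g₂ a) T
    have hTw : (locMap a (τ a) (bd (g₁ a) (g₂ a)) T').IsWeightedHomogeneous (wt n₁ n₂) d := by
      rw [← hc]
      exact MvPolynomial.weightedHomogeneousComponent_isWeightedHomogeneous _ _
    rw [LinearMap.comp_apply, hπc _ hTh, hc]
    obtain ⟨X, hX⟩ : ∃ X : BF K n₁ n₂ e d,
        ((X : Forms K (n₁ + n₂) e) : MvPolynomial (Fin (n₁ + n₂)) K) =
          locMap a (τ a) (bd (g₁ a) (g₂ a)) T' :=
      ⟨⟨⟨locMap a (τ a) (bd (g₁ a) (g₂ a)) T',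
        (MvPolynomial.mem_homogeneousSubmodule _ _).2 hTh'⟩, hTw⟩, rfl⟩
    rw [← hX, hπX]
    apply ((hw a).2 (φ₀ X)).mp
    intro b hb
    have hbX : b • X ∈ (latFam₂ (splitC Q₁ Q₂) hg e d hτ).W a := by
      rw [mem_latFam₂]
      refine ⟨(⟨b, hb⟩ : regRing k K a) • T', Submodule.smul_mem _ _ hT'J, ?_⟩
      rw [map_smul]
      show b • locMap a (τ a) (bd (g₁ a) (g₂ a)) T' = b • ((X : Forms K (n₁ + n₂) e) :
        MvPolynomial (Fin (n₁ + n₂)) K)
      rw [hX]
    have h1 : Algebra.trace (RatFunc k) K (φ₀ X * b) = l (b • X) := by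
      rw [hφ₀, map_smul, smul_eq_mul, mul_comm]
    rw [h1]
    cases a with
    | none => exact X_sq_mul_mem (hli _ hbX)
    | some a =>
      change 1 * _ ∈ _
      rw [one_mul]
      exact hlf a _ hbX

end Pool.Agent.FJ2
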