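import Pool.Agent.FJ.S.IND
import Pool.Agent.FJ.S.LG
import Pool.Agent.FJ.S.AP
import Pool.Agent.FJ.S.PO
import Pool.Agent.FJ.S.HT

/-!
# FJ2 / SA: the slope inequality for a polynomial

As `Pool.Agent.FJ.S.slope_multilinear_aux`, for an arbitrary system of lattices of linear forms with
a point bound.
-/

set_option linter.unusedSectionVars false

namespace Pool.Agent.FJ2

open Pool.Agent.Helper38.Scroll Module MvPolynomial Pool.Agent.FJ.S

section

variable {k K ι : Type} [Field k] [Field K] [Algebra (RatFunc k) K] [Algebra k K]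
  [IsScalarTower k (RatFunc k) K] [IsAlgClosed k] [CharZero k] [FiniteDimensional (RatFunc k) K]
  [Fintype ι]

private theorem lin_of_hom {K ι : Type} [Field K] [Fintype ι] {e : MvPolynomial ι K}
    (he : e.IsHomogeneous 1) :
    e = ∑ i, C (coeff (Finsupp.single i 1) e) * X i := by
  classical
  ext s
  rw [coeff_sum]
  by_cases hs : s.degree = 1
  · obtain ⟨i, rfl⟩ : ∃ i, s = Finsupp.single i 1 := by
      have h1 : s ≠ 0 := by
        rintro rfl
        rw [map_zero] at hs
        exact zero_ne_one hs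
      obtain ⟨i, hi⟩ := Finsupp.ne_iff.mp h1
      rw [Finsupp.coe_zero, Pi.zero_apply] at hi
      refine ⟨i, ?_⟩
      have h2 : s = Finsupp.single i (s i) + s.erase i := (Finsupp.single_add_erase i s).symm
      have h3 := hs
      rw [h2, map_add, Finsupp.degree_single] at h3
      have h4 : (s.erase i).degree = 0 := by omega
      have h5 : s i = 1 := by omega
      rw [Finsupp.degree_eq_zero_iff] at h4
      rw [h2, h4, add_zero, h5]
    rw [Finset.sum_eq_single i]
    · rw [coeff_C_mul, coeff_X, if_pos rfl, mul_one]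
    · intro j _ hj
      rw [coeff_C_mul, coeff_X, if_neg, mul_zero]
      intro h
      exact hj (Finsupp.single_left_injective one_ne_zero h)
    · intro h
      exact absurd (Finset.mem_univ i) h
  · rw [he.coeff_eq_zero hs]
    symm
    apply Finset.sum_eq_zero
    intro i _
    rw [coeff_C_mul, coeff_X, if_neg, mul_zero]
    intro h
    apply hs
    rw [← h, Finsupp.degree_single]

private theorem apolar_vals (E : LinLat k K ι) {nu : Option k → K} {P : MvPolynomial ι K}
    (hval : ∀ (a : Option k) (v : ι → K), (∑ i, C (v i) * X i : MvPolynomial ι K) ∈ E.E a →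
      ∃ c ∈ regRing k K a, eval v P = nu a * c) (t m : ℕ)
    {θ : MvPolynomial ι K →ₗ[K] K}
    (hθ : ∀ v : ι → K, θ ((∑ i, C (v i) * X i) ^ m) =
      (m.factorial : K) * eval v (P ^ t)) (a : Option k) (f : MvPolynomial ι K)
    (hf : f ∈ (E.E a) ^ m) : ∃ c ∈ regRing k K a, θ f = nu a ^ t * c := by
  have h1 := pow_le_span E a m hf
  refine Submodule.span_induction (p := fun f _ => ∃ c ∈ regRing k K a, θ f = nu a ^ t * c)
    ?_ ?_ ?_ ?_ h1
  · rintro f ⟨e, he, rfl⟩
    have h2 := lin_of_hom (E.hom a e he)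
    obtain ⟨c, hc, hc'⟩ := hval a (fun i => coeff (Finsupp.single i 1) e) (by rw [← h2]; exact he)
    refine ⟨(m.factorial : K) * c ^ t, ?_, ?_⟩
    · exact mul_mem (natCast_mem _ _) (pow_mem hc t)
    · rw [h2, hθ (fun i => coeff (Finsupp.single i 1) e), map_pow, hc']
      ring
  · exact ⟨0, zero_mem _, by rw [map_zero, mul_zero]⟩
  · rintro x y _ _ ⟨c, hc, hx⟩ ⟨c', hc', hy⟩
    exact ⟨c + c', add_mem hc hc', by rw [map_add, hx, hy]; ring⟩
  · rintro r x _ ⟨c, hc, hx⟩
    refine ⟨(r : K) * c, mul_mem r.2 hc, ?_⟩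
    have h3 : r • x = (r : K) • x := rfl
    rw [h3, map_smul, hx, smul_eq_mul]
    ring

theorem slope_poly (E : LinLat k K ι) {mu : ℝ} (hPB : PointBound E mu) {j : ℕ}
    {P : MvPolynomial ι K} (hPhom : P.IsHomogeneous j) (hP0 : P ≠ 0) (nu : Option k → K)
    (hnu : ∀ a, nu a ≠ 0)
    (hfin : {a | ¬ (nu a ∈ regRing k K a ∧ (nu a)⁻¹ ∈ regRing k K a)}.Finite)
    (hval : ∀ (a : Option k) (v : ι → K), (∑ i, C (v i) * X i : MvPolynomial ι K) ∈ E.E a →
      ∃ c ∈ regRing k K a, eval v P = nu a * c) :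
    mu * (finrank (RatFunc k) K : ℝ) * (j : ℝ) ≤ ((-∑ᶠ a, ordOver a (nu a) : ℤ) : ℝ) := by
  have : CharZero K := charZero_of_injective_algebraMap (algebraMap k K).injective
  have hLB := LB_all E hPB ⊥ homI_bot
  obtain ⟨c0, hc0⟩ := exists_twist nu hnu hfin
  set d0 : ℝ := (finrank (RatFunc k) K : ℝ) with hd0
  have hd0pos : 0 < d0 := by
    rw [hd0]
    exact_mod_cast finrank_pos
  set N : ℝ := ((-∑ᶠ a, ordOver a (nu a) : ℤ) : ℝ) with hN
  -- the inequality for each `t`
  have key : ∀ η : ℝ, 0 < η → ∃ C : ℝ, ∀ t : ℕ,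
      (mu - η) * ((j : ℝ) * t) * d0 - C ≤ t * N := by
    intro η hη
    obtain ⟨C, hC⟩ := hLB η hη
    refine ⟨C * d0 + c0, ?_⟩
    intro t
    obtain ⟨h, T, hh0, hh1, hh2, hT⟩ := hc0 t
    obtain ⟨θ, hθ, hθ0⟩ := exists_apolar (P ^ t) (hPhom.pow t)
    have hvals := apolar_vals E hval t (j * t) hθ
    -- the functional over `k(x)`
    let φ : MvPolynomial ι K →ₗ[RatFunc k] RatFunc k :=
      (Algebra.trace (RatFunc k) K).comp
        ((LinearMap.mulLeft (RatFunc k) h).comp (θ.restrictScalars (RatFunc k)))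
    have hφ : ∀ f, φ f = Algebra.trace (RatFunc k) K (h * θ f) := fun f => rfl
    have hb := hC (j * t) φ T ?_ ?_ ?_
    · push_cast at hb
      have h3 : ((mu - η) * ((j : ℝ) * t) - C) * d0 ≤ T * d0 :=
        mul_le_mul_of_nonneg_right hb hd0pos.le
      nlinarith
    · intro f hf _
      rw [Ideal.mem_bot] at hf
      rw [hf, map_zero]
    · obtain ⟨f, hf, hf0⟩ := hθ0 (pow_ne_zero t hP0)
      obtain ⟨z, hz⟩ := Algebra.trace_surjective (RatFunc k) K 1
      refine ⟨(z / (h * θ f)) • f, ?_, ?_⟩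
      · rw [MvPolynomial.smul_eq_C_mul]
        have h4 := (isHomogeneous_C ι (z / (h * θ f))).mul hf
        rwa [zero_add] at h4
      · rw [hφ, map_smul, smul_eq_mul]
        have h5 : h * (z / (h * θ f) * θ f) = z := by
          field_simp
        rw [h5, hz]
        exact one_ne_zero
    · refine ⟨?_, ?_⟩
      · intro a f hf
        obtain ⟨c, hc, hc'⟩ := hvals (some a) f hf
        rw [hφ, hc', ← mul_assoc]
        exact trace_mem_localRing (mul_mem (hh1 a) hc)
      · intro f hf
        obtain ⟨c, hc, hc'⟩ := hvals none f hf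
        by_cases hφ0 : φ f = 0
        · left; exact hφ0
        right
        have h6 : (unifAt (none : Option k)) ^ T * φ f ∈ localRing (none : Option k) := by
          have h7 : (unifAt (none : Option k)) ^ T * φ f =
              Algebra.trace (RatFunc k) K
                (((unifAt (none : Option k)) ^ T • (h * nu none ^ t)) * c) := by
            rw [smul_mul_assoc, map_smul, smul_eq_mul, hφ, hc', ← mul_assoc h]
          rw [h7]
          exact trace_mem_localRing (mul_mem hh2 hc)
        have h8 : (unifAt (none : Option k)) ^ T ≠ 0 := zpow_ne_zero _ (unifAt_ne_zero none)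
        rw [mem_localRing_of_ne (mul_ne_zero h8 hφ0), ordAt_mul none h8 hφ0,
          ordAt_zpow none (unifAt_ne_zero none), ordAt_unifAt] at h6
        linarith
  -- the limits
  have key2 : ∀ η : ℝ, 0 < η → (mu - η) * d0 * (j : ℝ) ≤ N := by
    intro η hη
    obtain ⟨C, hC⟩ := key η hη
    by_contra hcon
    push Not at hcon
    obtain ⟨t, ht⟩ := exists_nat_gt (C / ((mu - η) * d0 * (j : ℝ) - N))
    have hpos : 0 < (mu - η) * d0 * (j : ℝ) - N := by linarith
    rw [div_lt_iff₀ hpos] at ht
    have h9 := hC t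
    have h10 : (mu - η) * ((j : ℝ) * t) * d0 = t * ((mu - η) * d0 * (j : ℝ)) := by
      ring
    rw [h10] at h9
    nlinarith
  by_contra hcon
  push Not at hcon
  have hj : 0 ≤ (j : ℝ) := Nat.cast_nonneg j
  set δ := mu * d0 * (j : ℝ) - N with hδ
  have hδpos : 0 < δ := by linarith
  have hden : 0 < d0 * ((j : ℝ) + 1) := by positivity
  have h11 := key2 (δ / (2 * (d0 * ((j : ℝ) + 1)))) (by positivity)
  have h12 : δ / (2 * (d0 * ((j : ℝ) + 1))) * d0 * (j : ℝ) ≤ δ / 2 := by
    rw [div_mul_eq_mul_div, div_mul_eq_mul_div, div_le_div_iff₀ (by positivity) (by norm_num)]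
    nlinarith
  nlinarith

end

end Pool.Agent.FJ2
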