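import Pool.Agent.FJ.S.HT

/-!
# FJ2 / SB: adjoining a root of the uniformizer at infinity
-/

set_option linter.unusedSectionVars false

namespace Pool.Agent.FJ2

open Pool.Agent.Helper38.Scroll Module

/-- A finite extension with a `D`-th root of a given element. -/
theorem exists_root_field (F K : Type) [Field F] [Field K] [Algebra F K] (u : F) (D : ℕ)
    (hD : 0 < D) :
    ∃ (K' : Type) (_ : Field K') (_ : Algebra K K') (z : K'), FiniteDimensional K K' ∧
      z ^ D = algebraMap K K' (algebraMap F K u) := by
  obtain ⟨z, hz⟩ := IsAlgClosed.exists_pow_nat_eq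
    (algebraMap K (AlgebraicClosure K) (algebraMap F K u)) hD
  have hint : IsIntegral K z := Algebra.IsIntegral.isIntegral z
  have : FiniteDimensional K (IntermediateField.adjoin K {z}) :=
    IntermediateField.adjoin.finiteDimensional hint
  refine ⟨IntermediateField.adjoin K {z}, inferInstance, inferInstance,
    IntermediateField.AdjoinSimple.gen K z, this, ?_⟩
  apply Subtype.ext
  have h1 : ((IntermediateField.AdjoinSimple.gen K z : IntermediateField.adjoin K {z}) :
      AlgebraicClosure K) = z := IntermediateField.AdjoinSimple.coe_gen K z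
  rw [SubmonoidClass.coe_pow, h1, hz]
  rfl

section

variable {k K L : Type} [Field k] [Field K] [Algebra (RatFunc k) K] [Algebra k K]
  [IsScalarTower k (RatFunc k) K] [IsAlgClosed k] [CharZero k] [FiniteDimensional (RatFunc k) K]
  [Field L] [Algebra K L] [Algebra (RatFunc k) L] [IsScalarTower (RatFunc k) K L]
  [Algebra k L] [IsScalarTower k (RatFunc k) L] [FiniteDimensional K L]

/-- The order of the norm of a power of a root of the uniformizer. -/
theorem ord_norm_root {D : ℕ} {z : K} (hz : z ^ D = algebraMap (RatFunc k) K (unifAt none))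
    (p : ℤ) :
    (D : ℤ) * ordOver (none : Option k) (z ^ p) = p * finrank (RatFunc k) K := by
  have hu : (unifAt (none : Option k)) ≠ 0 := unifAt_ne_zero none
  have hz0 : z ^ D ≠ 0 := by
    rw [hz]
    exact (map_ne_zero _).mpr hu
  have hn0 : Algebra.norm (RatFunc k) (z ^ D) ≠ 0 := by
    rw [Algebra.norm_ne_zero_iff]
    exact hz0
  by_cases hD : D = 0
  · subst hD
    rw [pow_zero] at hz
    have h1 : (unifAt (none : Option k)) = 1 := by
      apply (algebraMap (RatFunc k) K).injective
      rw [← hz, map_one]
    have h2 := ordAt_unifAt (none : Option k)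
    rw [h1, ordAt_one] at h2
    exact absurd h2 (by norm_num)
  have hzne : z ≠ 0 := by
    intro h
    apply hz0
    rw [h, zero_pow hD]
  have h1 : (D : ℤ) * ordOver (none : Option k) z = finrank (RatFunc k) K := by
    rw [← Pool.Agent.Helper38.Scroll.ordOver_pow none hzne, hz, Pool.Agent.FJ.S.ordOver_algebraMap none _ hu,
      ordAt_unifAt, mul_one]
  have h2 : ordOver (none : Option k) (z ^ p) = p * ordOver (none : Option k) z := by
    cases p with
    | ofNat m =>
      rw [Int.ofNat_eq_natCast, zpow_natCast, Pool.Agent.Helper38.Scroll.ordOver_pow none hzne]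
    | negSucc m =>
      rw [zpow_negSucc, ordOver_inv none (pow_ne_zero _ hzne),
        Pool.Agent.Helper38.Scroll.ordOver_pow none hzne, Int.negSucc_eq]
      push_cast
      ring
  rw [h2, ← h1]
  ring

/-- The degree of the pull-back. -/
theorem ordOver_map (a : Option k) (x : K) (hx : x ≠ 0) :
    ordOver a (algebraMap K L x) = finrank K L * ordOver a x := by
  have : FiniteDimensional (RatFunc k) L := Module.Finite.trans K L
  have h1 : Algebra.norm (RatFunc k) (algebraMap K L x) =
      (Algebra.norm (RatFunc k) x) ^ finrank K L := by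
    rw [← Algebra.norm_norm (R := RatFunc k) (S := K), Algebra.norm_algebraMap, map_pow]
  rw [ordOver, h1, ordAt_pow a]
  · rfl
  · rw [Algebra.norm_ne_zero_iff]
    exact hx

end

end Pool.Agent.FJ2
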