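import Pool.Agent.FJ2.SB
import Pool.Agent.FJ.S.LG

/-!
# FJ2 / SC: systems of lattices of linear forms of a family of bundles
-/

set_option linter.unusedSectionVars false

namespace Pool.Agent.FJ2

open Pool.Agent.Helper38.Scroll Module MvPolynomial Pool.Agent.FJ.S Matrix

section family

variable {k K : Type} [Field k] [Field K] [Algebra (RatFunc k) K] [Algebra k K]
  [IsScalarTower k (RatFunc k) K] [IsAlgClosed k] [CharZero k] [FiniteDimensional (RatFunc k) K]

/-- The linear form with coefficients `v`. -/
noncomputable def famForm (K : Type) [Field K] {J : Type} [Fintype J] (n : J → ℕ) :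
    (∀ l, Fin (n l) → K) →ₗ[K] MvPolynomial (Σ l : J, Fin (n l)) K where
  toFun v := ∑ l, ∑ i, C (v l i) * X ⟨l, i⟩
  map_add' v w := by
    simp only [Pi.add_apply, map_add, add_mul, Finset.sum_add_distrib]
  map_smul' c v := by
    simp only [Pi.smul_apply, smul_eq_mul, map_mul, RingHom.id_apply, Finset.smul_sum,
      MvPolynomial.smul_eq_C_mul, mul_assoc]

theorem famForm_apply {J : Type} [Fintype J] (n : J → ℕ) (v : ∀ l, Fin (n l) → K) :
    famForm K n v = ∑ l, ∑ i, C (v l i) * X ⟨l, i⟩ := rfl

theorem famForm_single {J : Type} [Fintype J] [DecidableEq J] (n : J → ℕ) (l : J) (v : Fin (n l) → K) :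
    famForm K n (Pi.single l v) = ∑ i, C (v i) * X ⟨l, i⟩ := by
  rw [famForm_apply, Finset.sum_eq_single l]
  · simp
  · intro m _ hm
    apply Finset.sum_eq_zero
    intro i _
    simp [Pi.single_eq_of_ne hm]
  · intro h; exact absurd (Finset.mem_univ l) h

/-- The lattices of linear forms of the bundle `⊕ E_l`. -/
theorem exists_famLat {J : Type} [Fintype J] {n : J → ℕ}
    {g : ∀ l, Option k → Matrix (Fin (n l)) (Fin (n l)) K}
    (hg : ∀ l, IsBundle (g l)) : ∃ E : LinLat k K (Σ l : J, Fin (n l)), ∀ (a : Option k)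
      (f : MvPolynomial (Σ l : J, Fin (n l)) K), f ∈ E.E a ↔ ∃ v : ∀ l, Fin (n l) → K,
        (∀ l, v l ∈ lattice a (g l a)) ∧ f = ∑ l, ∑ i, C (v l i) * X ⟨l, i⟩ := by
  classical
  have hmem : ∀ (a : Option k) (f : MvPolynomial (Σ l : J, Fin (n l)) K),
      f ∈ (Submodule.pi (Set.univ : Set J) (fun l => lattice a (g l a))).map
        ((famForm K n).restrictScalars (regRing k K a)) ↔ ∃ v : ∀ l, Fin (n l) → K,
        (∀ l, v l ∈ lattice a (g l a)) ∧ f = ∑ l, ∑ i, C (v l i) * X ⟨l, i⟩ := by
    intro a f
    constructor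
    · rintro ⟨v, hv, rfl⟩
      exact ⟨v, fun l => hv l (Set.mem_univ l), rfl⟩
    · rintro ⟨v, hv, rfl⟩
      exact ⟨v, fun l _ => hv l, rfl⟩
  refine ⟨⟨fun a => (Submodule.pi (Set.univ : Set J) (fun l => lattice a (g l a))).map
        ((famForm K n).restrictScalars (regRing k K a)), ?_, ?_, ?_, ?_⟩, hmem⟩
  · intro a f hf
    obtain ⟨v, hv, rfl⟩ := (hmem a f).mp hf
    apply IsHomogeneous.sum
    intro l _
    apply IsHomogeneous.sum
    intro i _
    exact isHomogeneous_C_mul_X _ _
  · intro a
    exact (Submodule.fg_pi fun l => lattice_fg a (g l a)).map _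
  · rintro a ⟨l, i⟩
    obtain ⟨m, hm⟩ := lattice_absorb (k := k) a ((hg l).1 a) (Pi.single i (1 : K))
    refine ⟨m, (hmem a _).mpr ⟨Pi.single l (unifAt a ^ m • Pi.single i (1 : K)), ?_, ?_⟩⟩
    · intro l'
      by_cases h : l' = l
      · subst h; simpa using hm
      · rw [Pi.single_eq_of_ne h]; exact Submodule.zero_mem _
    · rw [← famForm_apply, famForm_single, Finset.sum_eq_single i]
      · rw [Pi.smul_apply, Pi.single_eq_same, Algebra.smul_def (unifAt a ^ m) (1 : K), mul_one,
          Algebra.smul_def]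
        rfl
      · intro i' _ hi'
        rw [Pi.smul_apply, Pi.single_eq_of_ne hi', smul_zero, map_zero, zero_mul]
      · intro h; exact absurd (Finset.mem_univ i) h
  · apply (Set.finite_iUnion fun l => (hg l).2).subset
    intro a ha
    rw [Set.mem_iUnion]
    by_contra hcon
    push Not at hcon
    have h : ∀ l, lattice a (g l a) = lattice a 1 := by
      intro l
      by_contra hne
      exact hcon l hne
    apply ha
    ext f
    rw [hmem a f, Submodule.mem_span_range_iff_exists_fun]
    constructor
    · rintro ⟨v, hv, rfl⟩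
      have hv' : ∀ l i, v l i ∈ regRing k K a := by
        intro l
        have := hv l
        rw [h l, mem_lattice_one] at this
        exact this
      refine ⟨fun p => ⟨v p.1 p.2, hv' p.1 p.2⟩, ?_⟩
      rw [Fintype.sum_sigma]
      apply Finset.sum_congr rfl
      intro l _
      apply Finset.sum_congr rfl
      intro i _
      rw [← MvPolynomial.smul_eq_C_mul]
      rfl
    · rintro ⟨c, rfl⟩
      refine ⟨fun l i => (c ⟨l, i⟩ : K), ?_, ?_⟩
      · intro l
        rw [h l, mem_lattice_one]
        exact fun i => (c ⟨l, i⟩).2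
      · rw [Fintype.sum_sigma]
        apply Finset.sum_congr rfl
        intro l _
        apply Finset.sum_congr rfl
        intro i _
        rw [← MvPolynomial.smul_eq_C_mul]
        rfl

end family

section pullback

variable {k K L : Type} [Field k] [Field K] [Algebra (RatFunc k) K] [Algebra k K]
  [IsScalarTower k (RatFunc k) K] [IsAlgClosed k] [CharZero k] [FiniteDimensional (RatFunc k) K]
  [Field L] [Algebra K L] [Algebra (RatFunc k) L] [IsScalarTower (RatFunc k) K L]
  [Algebra k L] [IsScalarTower k (RatFunc k) L] [FiniteDimensional K L]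

theorem map_mem_regRing {a : Option k} {x : K} (hx : x ∈ regRing k K a) :
    algebraMap K L x ∈ regRing k L a := by
  have h1 : IsIntegral (localRing a) x := hx
  change IsIntegral (localRing a) (algebraMap K L x)
  obtain ⟨p, hp, hp'⟩ := h1
  refine ⟨p, hp, ?_⟩
  have h2 : algebraMap (localRing a) L = (algebraMap K L).comp (algebraMap (localRing a) K) := by
    ext y
    change algebraMap (RatFunc k) L (y : RatFunc k) =
      algebraMap K L (algebraMap (RatFunc k) K (y : RatFunc k))
    exact IsScalarTower.algebraMap_apply (RatFunc k) K L _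
  rw [h2, ← Polynomial.hom_eval₂, hp', map_zero]

/-- The frames of the pull-back, twisted by `t`. -/
noncomputable def pull {n : ℕ} (g : Option k → Matrix (Fin n) (Fin n) K) (t : Option k → L)
    (a : Option k) : Matrix (Fin n) (Fin n) L :=
  t a • (g a).map (algebraMap K L)

theorem pull_det {n : ℕ} (g : Option k → Matrix (Fin n) (Fin n) K) (t : Option k → L)
    (a : Option k) : (pull g t a).det = t a ^ n * algebraMap K L (g a).det := by
  rw [pull, Matrix.det_smul, Fintype.card_fin, ← RingHom.mapMatrix_apply, ← RingHom.map_det]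

theorem pull_isBundle {n : ℕ} {g : Option k → Matrix (Fin n) (Fin n) K} (hg : IsBundle g)
    {t : Option k → L} (ht : ∀ a, t a ≠ 0) (ht1 : {a | t a ≠ 1}.Finite) :
    IsBundle (pull g t) := by
  have : FiniteDimensional (RatFunc k) L := Module.Finite.trans K L
  refine ⟨?_, (hg.2.union ht1).subset ?_⟩
  · intro a
    rw [pull_det]
    exact mul_ne_zero (pow_ne_zero _ (ht a)) ((map_ne_zero _).mpr (hg.1 a))
  · intro a ha
    by_contra hcon
    simp only [Set.mem_union, Set.mem_ofPred_eq, not_or, not_not] at hcon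
    obtain ⟨h1, h2⟩ := hcon
    apply ha
    obtain ⟨h3, h4⟩ := integral_of_lattice_eq (hg.1 a) h1
    have h5 : pull g t a = (g a).map (algebraMap K L) := by
      rw [pull, h2, one_smul]
    rw [h5]
    ext v
    rw [mem_lattice_one, lattice_eq_range, LinearMap.mem_range]
    constructor
    · rintro ⟨w, rfl⟩ i
      rw [opMap_apply, mulVec, dotProduct]
      exact Subalgebra.sum_mem _ fun j _ => Subalgebra.mul_mem _ (map_mem_regRing (h3 i j)) (w j).2
    · intro hv
      have h6 : ∀ i, (((g a)⁻¹).map (algebraMap K L) *ᵥ v) i ∈ regRing k L a := by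
        intro i
        rw [mulVec, dotProduct]
        exact Subalgebra.sum_mem _ fun j _ =>
          Subalgebra.mul_mem _ (map_mem_regRing (h4 i j)) (hv j)
      refine ⟨fun i => ⟨_, h6 i⟩, ?_⟩
      rw [opMap_apply]
      change (g a).map (algebraMap K L) *ᵥ (((g a)⁻¹).map (algebraMap K L) *ᵥ v) = v
      rw [mulVec_mulVec, ← Matrix.map_mul, Matrix.mul_nonsing_inv _
        (isUnit_iff_ne_zero.mpr (hg.1 a)), Matrix.map_one _ (map_zero _) (map_one _), one_mulVec]

theorem pull_mem {n : ℕ} {g : Option k → Matrix (Fin n) (Fin n) K} {t : Option k → L}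
    {a : Option k} {v : Fin n → K} (hv : v ∈ lattice a (g a)) :
    (fun i => t a * algebraMap K L (v i)) ∈ lattice a (pull g t a) := by
  rw [lattice_eq_range, LinearMap.mem_range] at hv
  obtain ⟨w, rfl⟩ := hv
  rw [lattice_eq_range, LinearMap.mem_range]
  refine ⟨fun i => ⟨algebraMap K L (w i), map_mem_regRing (w i).2⟩, ?_⟩
  rw [opMap_apply, opMap_apply]
  funext i
  simp only [pull, mulVec, dotProduct, Matrix.smul_apply, Matrix.map_apply, smul_eq_mul, map_sum,
    map_mul, Finset.mul_sum, mul_assoc]

end pullback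

end Pool.Agent.FJ2
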