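import Pool.Agent.FJ2.SC

/-!
# FJ2 / SD: the point bound
-/

set_option linter.unusedSectionVars false

namespace Pool.Agent.FJ2

open Pool.Agent.Helper38.Scroll Module MvPolynomial Pool.Agent.FJ.S Matrix

/-- The twist by a power of `z` at infinity. -/
def tw {k K' : Type} [Field K'] (z : K') (p : ℤ) : Option k → K'
  | none => z ^ p
  | some _ => 1

theorem tw_ne {k K' : Type} [Field K'] {z : K'} (hz : z ≠ 0) (p : ℤ) (a : Option k) :
    tw z p a ≠ 0 := by
  cases a with
  | none => exact zpow_ne_zero _ hz
  | some a => exact one_ne_zero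

theorem tw_fin {k K' : Type} [Field K'] (z : K') (p : ℤ) :
    {a : Option k | tw z p a ≠ 1}.Finite := by
  refine (Set.finite_singleton (none : Option k)).subset ?_
  intro a ha
  cases a with
  | none => rfl
  | some a => exact absurd rfl ha

section

variable {k K K' : Type} [Field k] [Field K] [Algebra (RatFunc k) K] [Algebra k K]
  [IsScalarTower k (RatFunc k) K] [IsAlgClosed k] [CharZero k] [FiniteDimensional (RatFunc k) K]
  [Field K'] [Algebra K K'] [Algebra (RatFunc k) K'] [IsScalarTower (RatFunc k) K K']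
  [Algebra k K'] [IsScalarTower k (RatFunc k) K'] [FiniteDimensional K K']

theorem famPoint {J : Type} [Fintype J] {n : J → ℕ} {g : ∀ l, Option k → Matrix (Fin (n l)) (Fin (n l)) K}
    (hg : ∀ l, IsBundle (g l)) {mu : J → ℝ}
    (hmu : ∀ l, ∀ r : ℕ, 0 < r → ∀ A : Matrix (Fin r) (Fin (n l)) K, A.rank = r →
      ∀ h : Option k → Matrix (Fin r) (Fin r) K, IsQuotientBundle (g l) A h →
        mu l * r ≤ (degree h : ℝ))
    {D : ℕ} (hD : 0 < D) {z : K'}
    (hz : z ^ D = algebraMap K K' (algebraMap (RatFunc k) K (unifAt none)))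
    (p : J → ℤ) (hp : ∀ l, mu l * D = p l * finrank (RatFunc k) K)
    {E : LinLat k K' (Σ l : J, Fin (n l))}
    (hE : ∀ (a : Option k) (f : MvPolynomial (Σ l : J, Fin (n l)) K'), f ∈ E.E a ↔
      ∃ v : ∀ l, Fin (n l) → K', (∀ l, v l ∈ lattice a (pull (g l) (tw z (p l)) a)) ∧
        f = ∑ l, ∑ i, C (v l i) * X ⟨l, i⟩) :
    PointBound E 0 := by
  classical
  intro L _ _ _ _ _ _ _ y q hy hq hfin h
  have hu : (unifAt (none : Option k)) ≠ 0 := unifAt_ne_zero none
  have hz0 : z ≠ 0 := by
    rintro rfl
    rw [zero_pow hD.ne'] at hz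
    exact (map_ne_zero (algebraMap K K')).mpr ((map_ne_zero (algebraMap (RatFunc k) K)).mpr hu)
      hz.symm
  have hex : ∃ l, (fun i => y ⟨l, i⟩) ≠ 0 := by
    by_contra hcon
    push Not at hcon
    apply hy
    funext p
    exact congrFun (hcon p.1) p.2
  obtain ⟨l, hl⟩ := hex
  let _ : Algebra K L := ((algebraMap K' L).comp (algebraMap K K')).toAlgebra
  have hKL : ∀ x : K, algebraMap K L x = algebraMap K' L (algebraMap K K' x) := fun x => rfl
  have : IsScalarTower K K' L := IsScalarTower.of_algebraMap_eq fun x => rfl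
  have : IsScalarTower (RatFunc k) K L := IsScalarTower.of_algebraMap_eq fun x => by
    rw [hKL, ← IsScalarTower.algebraMap_apply (RatFunc k) K K',
      ← IsScalarTower.algebraMap_apply (RatFunc k) K' L]
  have : FiniteDimensional K L := Module.Finite.trans K' L
  have : FiniteDimensional (RatFunc k) L := Module.Finite.trans K L
  have htw : ∀ a : Option k, algebraMap K' L (tw z (p l) a) ≠ 0 := fun a =>
    (map_ne_zero _).mpr (tw_ne hz0 (p l) a)
  set q' : Option k → L := fun a => q a / algebraMap K' L (tw z (p l) a) with hq'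
  have hq0 : ∀ a, q' a ≠ 0 := fun a => div_ne_zero (hq a) (htw a)
  have hqfin : {a | q' a ≠ 1}.Finite := by
    refine (hfin.union (tw_fin z (p l))).subset ?_
    intro a ha
    by_contra hcon
    simp only [Set.mem_union, Set.mem_ofPred_eq, not_or, not_not] at hcon
    apply ha
    rw [hq']
    simp only
    rw [hcon.1, hcon.2, map_one, div_one]
  have h1 := point_slope (L := L) (hg l) (hmu l) (fun i => y ⟨l, i⟩) hl q' hq0 hqfin (by
    intro a v hv
    obtain ⟨c, hc, hc'⟩ := h a (∑ i, C (tw z (p l) a * algebraMap K K' (v i)) * X ⟨l, i⟩)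
      ((hE a _).mpr ⟨Pi.single l (fun i => tw z (p l) a * algebraMap K K' (v i)), by
        intro l'
        by_cases h' : l' = l
        · subst h'
          rw [Pi.single_eq_same]
          exact pull_mem hv
        · rw [Pi.single_eq_of_ne h']; exact Submodule.zero_mem _, by
        rw [← famForm_apply, famForm_single]⟩)
    refine ⟨c, hc, ?_⟩
    rw [map_sum] at hc'
    have h2 : ∀ i, aeval y (C (tw z (p l) a * algebraMap K K' (v i)) * X ⟨l, i⟩) =
        algebraMap K' L (tw z (p l) a) * (algebraMap K L (v i) * y ⟨l, i⟩) := by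
      intro i
      rw [map_mul, aeval_C, aeval_X, map_mul, hKL, mul_assoc]
    simp only [h2] at hc'
    rw [← Finset.mul_sum] at hc'
    rw [hq']
    simp only
    rw [div_mul_eq_mul_div, eq_div_iff (htw a), mul_comm _ (algebraMap K' L _)]
    exact hc')
  have hD0 : (0 : ℝ) < D := by exact_mod_cast hD
  have h3 : ((algebraMap K' L z)) ^ D = algebraMap (RatFunc k) L (unifAt none) := by
    rw [← map_pow, hz, ← IsScalarTower.algebraMap_apply (RatFunc k) K K',
      ← IsScalarTower.algebraMap_apply (RatFunc k) K' L]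
  have h4 := ord_norm_root h3 (p l)
  have h5 : ∀ a, ordAt a (Algebra.norm (RatFunc k) (q' a)) =
      ordAt a (Algebra.norm (RatFunc k) (q a)) -
        ordOver a (algebraMap K' L (tw z (p l) a)) := by
    intro a
    have h6 : q' a = q a * (algebraMap K' L (tw z (p l) a))⁻¹ := div_eq_mul_inv _ _
    change ordOver a (q' a) = ordOver a (q a) - _
    rw [h6, ordOver_mul a (hq a) (inv_ne_zero (htw a)), ordOver_inv a (htw a)]
    ring
  have h7 : ∑ᶠ a, ordAt a (Algebra.norm (RatFunc k) (q' a)) =
      ∑ᶠ a, ordAt a (Algebra.norm (RatFunc k) (q a)) -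
        ordOver (none : Option k) ((algebraMap K' L z) ^ (p l)) := by
    simp only [h5]
    rw [finsum_sub_distrib]
    · congr 1
      rw [finsum_eq_single _ (none : Option k)]
      · rw [tw, map_zpow₀]
      · intro a ha
        cases a with
        | none => exact absurd rfl ha
        | some a =>
          rw [tw, map_one, ordOver_one]
    · refine hfin.subset ?_
      intro a ha hcon
      apply ha
      simp only
      rw [hcon, map_one, ordAt_one]
    · refine (Set.finite_singleton (none : Option k)).subset ?_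
      intro a ha
      cases a with
      | none => rfl
      | some a =>
        exfalso
        apply ha
        simp only
        rw [tw, map_one, ordOver_one]
  rw [h7] at h1
  rw [zero_mul]
  have h8 : (finrank (RatFunc k) L : ℝ) = finrank (RatFunc k) K * finrank K L := by
    exact_mod_cast (Module.finrank_mul_finrank (RatFunc k) K L).symm
  have h9 : (D : ℝ) * (ordOver (none : Option k) ((algebraMap K' L z) ^ (p l)) : ℝ) =
      p l * finrank (RatFunc k) L := by exact_mod_cast h4
  push_cast at h1 ⊢
  have h10 := mul_le_mul_of_nonneg_left h1 hD0.le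
  have h11 : (D : ℝ) * (mu l * (finrank K L : ℝ)) = p l * finrank (RatFunc k) L := by
    rw [h8, ← mul_assoc, mul_comm (D : ℝ) (mu l), hp l]
    ring
  rw [h11] at h10
  have h12 : 0 ≤ (D : ℝ) * -((∑ᶠ a, ordAt a (Algebra.norm (RatFunc k) (q a)) : ℤ) : ℝ) := by
    nlinarith
  exact nonneg_of_mul_nonneg_right h12 hD0

end

end Pool.Agent.FJ2
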