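import Pool.Agent.FJ2.SA
import Pool.Agent.FJ2.SD

/-!
# FJ2 / SE: the slope inequality for multilinear maps on several bundles
-/

set_option linter.unusedSectionVars false

namespace Pool.Agent.FJ2

open Pool.Agent.Helper38.Scroll Module MvPolynomial Pool.Agent.FJ.S Matrix

section poly

variable {K K' : Type} [Field K] [Field K'] [Algebra K K'] {J : Type} [Fintype J] [DecidableEq J] {n : J → ℕ}

/-- The polynomial of a multilinear map, over an extension. -/
noncomputable def famPoly (K' : Type) [Field K'] [Algebra K K']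
    (Θ : MultilinearMap K (fun l : J => Fin (n l) → K) K) :
    MvPolynomial (Σ l : J, Fin (n l)) K' :=
  ∑ s : ∀ l, Fin (n l), C (algebraMap K K' (Θ (fun l => Pi.single (s l) 1))) *
    ∏ l : J, X ⟨l, s l⟩

theorem famPoly_hom (Θ : MultilinearMap K (fun l : J => Fin (n l) → K) K) :
    (famPoly K' Θ).IsHomogeneous (Fintype.card J) := by
  refine IsHomogeneous.sum _ _ _ fun s _ => ?_
  have h1 : (∏ l : J, (X ⟨l, s l⟩ : MvPolynomial (Σ l : J, Fin (n l)) K')).IsHomogeneous
      (∑ _l : J, 1) := IsHomogeneous.prod _ _ _ fun l _ => isHomogeneous_X _ _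
  have h2 := (isHomogeneous_C (Σ l : J, Fin (n l))
    (algebraMap K K' (Θ (fun l => Pi.single (s l) 1)))).mul h1
  simpa using h2

theorem theta_expand (Θ : MultilinearMap K (fun l : J => Fin (n l) → K) K)
    (x : ∀ l, Fin (n l) → K) :
    Θ x = ∑ s : ∀ l, Fin (n l), (∏ l, x l (s l)) * Θ (fun l => Pi.single (s l) 1) := by
  classical
  have key : x = fun l => ∑ i : Fin (n l), x l i • (Pi.single i (1 : K) : Fin (n l) → K) := by
    funext l i
    simp [Finset.sum_apply, Pi.single_apply]
  conv_lhs => rw [key]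
  rw [MultilinearMap.map_sum]
  refine Finset.sum_congr rfl fun s _ => ?_
  rw [MultilinearMap.map_smul_univ, smul_eq_mul]

theorem famPoly_eval (Θ : MultilinearMap K (fun l : J => Fin (n l) → K) K)
    (M : ∀ l, Matrix (Fin (n l)) (Fin (n l)) K) (t : J → K') (w : ∀ l, Fin (n l) → K') :
    eval (fun q : (Σ l : J, Fin (n l)) =>
        ((t q.1 • (M q.1).map (algebraMap K K')) *ᵥ w q.1) q.2) (famPoly K' Θ) =
      (∏ l, t l) * ∑ r : ∀ l, Fin (n l), (∏ l, w l (r l)) *
        algebraMap K K' (Θ (fun l => (M l)ᵀ (r l))) := by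
  classical
  have h1 : ∀ (l : J) (i : Fin (n l)),
      ((t l • (M l).map (algebraMap K K')) *ᵥ w l) i =
        t l * ∑ r : Fin (n l), algebraMap K K' (M l i r) * w l r := by
    intro l i
    simp only [mulVec, dotProduct, Matrix.smul_apply, Matrix.map_apply, smul_eq_mul,
      Finset.mul_sum, mul_assoc]
  rw [famPoly, map_sum]
  have h2 : ∀ s : (∀ l, Fin (n l)),
      eval (fun q : (Σ l : J, Fin (n l)) =>
        ((t q.1 • (M q.1).map (algebraMap K K')) *ᵥ w q.1) q.2)
        (C (algebraMap K K' (Θ (fun l => Pi.single (s l) 1))) *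
          ∏ l : J, X (⟨l, s l⟩ : (Σ l : J, Fin (n l)))) =
      (∏ l, t l) * ∑ r : ∀ l, Fin (n l), (∏ l, w l (r l)) * algebraMap K K'
        ((∏ l, (M l)ᵀ (r l) (s l)) * Θ (fun l => Pi.single (s l) 1)) := by
    intro s
    rw [map_mul, eval_C, map_prod]
    simp only [eval_X, h1]
    rw [Finset.prod_mul_distrib, Finset.prod_univ_sum, Fintype.piFinset_univ, mul_left_comm,
      Finset.mul_sum]
    congr 1
    refine Finset.sum_congr rfl fun r _ => ?_
    rw [Finset.prod_mul_distrib, map_mul, map_prod]
    simp only [Matrix.transpose_apply]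
    ring
  simp only [h2]
  rw [← Finset.mul_sum, Finset.sum_comm]
  congr 1
  refine Finset.sum_congr rfl fun r _ => ?_
  rw [← Finset.mul_sum, ← map_sum, ← theta_expand]

theorem famPoly_ne (Θ : MultilinearMap K (fun l : J => Fin (n l) → K) K) (h0 : Θ ≠ 0) :
    famPoly K' Θ ≠ 0 := by
  classical
  intro h
  apply h0
  refine MultilinearMap.ext fun x => ?_
  rw [theta_expand, _root_.zero_apply]
  refine Finset.sum_eq_zero fun s _ => ?_
  have h1 := famPoly_eval (K' := K') Θ (fun l => 1) (fun _ => 1) (fun l => Pi.single (s l) 1)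
  rw [h, map_zero, Finset.prod_const_one, one_mul, Finset.sum_eq_single s] at h1
  · simp only [Pi.single_eq_same, Finset.prod_const_one, one_mul, Matrix.transpose_one] at h1
    have h2 : (fun l => (1 : Matrix (Fin (n l)) (Fin (n l)) K) (s l)) =
        fun l => (Pi.single (s l) 1 : Fin (n l) → K) := by
      funext l i
      rw [Matrix.one_apply, Pi.single_apply]
      simp only [eq_comm]
    rw [h2] at h1
    have h3 := (map_eq_zero (algebraMap K K')).mp h1.symm
    rw [h3, mul_zero]
  · intro r _ hr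
    obtain ⟨l, hl⟩ := Function.ne_iff.mp hr
    rw [Finset.prod_eq_zero (Finset.mem_univ l), zero_mul]
    rw [Pi.single_eq_of_ne hl]
  · intro h'
    exact absurd (Finset.mem_univ s) h'

end poly

section

variable {k K : Type} [Field k] [Field K] [Algebra (RatFunc k) K] [Algebra k K]
  [IsScalarTower k (RatFunc k) K] [IsAlgClosed k] [CharZero k] [FiniteDimensional (RatFunc k) K]

theorem slope_family_aux {J : Type} [Fintype J] [DecidableEq J] {n : J → ℕ}
    {g : ∀ l, Option k → Matrix (Fin (n l)) (Fin (n l)) K}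
    (hg : ∀ l, IsBundle (g l)) {mu : J → ℝ}
    (hmu : ∀ l, ∀ r : ℕ, 0 < r → ∀ A : Matrix (Fin r) (Fin (n l)) K, A.rank = r →
      ∀ h : Option k → Matrix (Fin r) (Fin r) K, IsQuotientBundle (g l) A h →
        mu l * r ≤ (degree h : ℝ))
    {D : ℕ} (hD : 0 < D) (p : J → ℤ) (hp : ∀ l, mu l * D = p l * finrank (RatFunc k) K)
    (Θ : MultilinearMap K (fun l : J => Fin (n l) → K) K) (h0 : Θ ≠ 0) (nu : Option k → K)
    (hnu : ∀ a, nu a ≠ 0)
    (hfin : {a | ¬ (nu a ∈ regRing k K a ∧ (nu a)⁻¹ ∈ regRing k K a)}.Finite)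
    (hval : ∀ (a : Option k) (v : ∀ l, Fin (n l) → K), (∀ l, v l ∈ lattice a (g l a)) →
      ∃ c ∈ regRing k K a, Θ v = nu a * c) :
    ∑ l, mu l ≤ ((-∑ᶠ a, ordOver a (nu a) : ℤ) : ℝ) := by
  classical
  obtain ⟨K', _, _, z, hfd, hz⟩ := exists_root_field (RatFunc k) K (unifAt none) D hD
  let _ : Algebra (RatFunc k) K' := ((algebraMap K K').comp (algebraMap (RatFunc k) K)).toAlgebra
  have : IsScalarTower (RatFunc k) K K' := IsScalarTower.of_algebraMap_eq fun x => rfl
  let _ : Algebra k K' := ((algebraMap (RatFunc k) K').comp (algebraMap k (RatFunc k))).toAlgebra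
  have : IsScalarTower k (RatFunc k) K' := IsScalarTower.of_algebraMap_eq fun x => rfl
  have : FiniteDimensional (RatFunc k) K' := Module.Finite.trans K K'
  have hu : (unifAt (none : Option k)) ≠ 0 := unifAt_ne_zero none
  have hz0 : z ≠ 0 := by
    rintro rfl
    rw [zero_pow hD.ne'] at hz
    exact (map_ne_zero (algebraMap K K')).mpr ((map_ne_zero (algebraMap (RatFunc k) K)).mpr hu)
      hz.symm
  obtain ⟨E, hE⟩ := exists_famLat (K := K') (g := fun l => pull (g l) (tw z (p l)))
    (fun l => pull_isBundle (hg l) (tw_ne hz0 (p l)) (tw_fin z (p l)))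
  have hPB := famPoint hg hmu hD hz p hp hE
  set nu' : Option k → K' := fun a => algebraMap K K' (nu a) * ∏ l, tw z (p l) a with hnu'
  have hnu0 : ∀ a, nu' a ≠ 0 := fun a =>
    mul_ne_zero ((map_ne_zero _).mpr (hnu a)) (Finset.prod_ne_zero_iff.mpr fun l _ => tw_ne hz0 _ a)
  have htw1 : ∀ (a : k) (l : J), tw z (p l) (some a) = 1 := fun a l => rfl
  have hfin' : {a | ¬ (nu' a ∈ regRing k K' a ∧ (nu' a)⁻¹ ∈ regRing k K' a)}.Finite := by
    refine (hfin.union (Set.finite_singleton (none : Option k))).subset ?_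
    intro a ha
    by_contra hcon
    simp only [Set.mem_union, Set.mem_ofPred_eq, not_or, not_not, Set.mem_singleton_iff] at hcon
    obtain ⟨⟨h1, h2⟩, h3⟩ := hcon
    obtain ⟨a, rfl⟩ := Option.ne_none_iff_exists'.mp h3
    apply ha
    have h4 : nu' (some a) = algebraMap K K' (nu (some a)) := by
      rw [hnu']
      simp only [htw1, Finset.prod_const_one, mul_one]
    rw [h4, ← map_inv₀]
    exact ⟨map_mem_regRing h1, map_mem_regRing h2⟩
  have hval' : ∀ (a : Option k) (v : (Σ l : J, Fin (n l)) → K'),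
      (∑ i, C (v i) * X i : MvPolynomial (Σ l : J, Fin (n l)) K') ∈ E.E a →
      ∃ c ∈ regRing k K' a, eval v (famPoly K' Θ) = nu' a * c := by
    intro a v hv
    obtain ⟨v', hv', he⟩ := (hE a _).mp hv
    have he' : (∑ l, ∑ i, C (v' l i) * X ⟨l, i⟩ : MvPolynomial (Σ l : J, Fin (n l)) K') =
        ∑ q : (Σ l : J, Fin (n l)), C (v' q.1 q.2) * X q :=
      (Fintype.sum_sigma (fun q : (Σ l : J, Fin (n l)) =>
        (C (v' q.1 q.2) * X q : MvPolynomial (Σ l : J, Fin (n l)) K'))).symm
    rw [he'] at he
    have h1 : v = fun q => v' q.1 q.2 := by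
      funext q
      have h2 := congrArg (coeff (Finsupp.single q 1)) he
      rw [coeff_sum, coeff_sum, Finset.sum_eq_single q, Finset.sum_eq_single q] at h2
      · simpa [coeff_C_mul, coeff_X] using h2
      · intro q' _ hq'
        rw [coeff_C_mul, coeff_X, if_neg, mul_zero]
        intro h
        exact hq' (Finsupp.single_left_injective one_ne_zero h)
      · intro h
        exact absurd (Finset.mem_univ q) h
      · intro q' _ hq'
        rw [coeff_C_mul, coeff_X, if_neg, mul_zero]
        intro h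
        exact hq' (Finsupp.single_left_injective one_ne_zero h)
      · intro h
        exact absurd (Finset.mem_univ q) h
    have h3 : ∀ l, ∃ w : Fin (n l) → regRing k K' a,
        v' l = (tw z (p l) a • (g l a).map (algebraMap K K')) *ᵥ (fun i => (w i : K')) := by
      intro l
      have h4 := hv' l
      rw [lattice_eq_range, LinearMap.mem_range] at h4
      obtain ⟨w, hw⟩ := h4
      exact ⟨w, by rw [← hw, opMap_apply]; rfl⟩
    choose w hw using h3
    have h5 : v = fun q => ((tw z (p q.1) a • (g q.1 a).map (algebraMap K K')) *ᵥ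
        (fun i => (w q.1 i : K'))) q.2 := by
      rw [h1]
      funext q
      rw [hw q.1]
    rw [h5, famPoly_eval Θ (fun l => g l a) (fun l => tw z (p l) a) (fun l i => (w l i : K'))]
    have h6 : ∀ r : (∀ l, Fin (n l)), ∃ c ∈ regRing k K a,
        Θ (fun l => (g l a)ᵀ (r l)) = nu a * c := fun r =>
      hval a _ fun l => Submodule.subset_span ⟨r l, rfl⟩
    choose c hc hc' using h6
    refine ⟨∑ r : ∀ l, Fin (n l), (∏ l, (w l (r l) : K')) * algebraMap K K' (c r), ?_, ?_⟩
    · exact Subalgebra.sum_mem _ fun r _ => Subalgebra.mul_mem _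
        (Subalgebra.prod_mem _ fun l _ => (w l (r l)).2) (map_mem_regRing (hc r))
    · rw [hnu', Finset.mul_sum, Finset.mul_sum]
      refine Finset.sum_congr rfl fun r _ => ?_
      rw [hc' r, map_mul]
      ring
  have h1 := slope_poly E hPB (famPoly_hom Θ) (famPoly_ne Θ h0) nu' hnu0 hfin' hval'
  rw [zero_mul, zero_mul] at h1
  -- degrees
  have h2 : ∀ a, ordOver a (nu' a) = finrank K K' * ordOver a (nu a) +
      ∑ l, ordOver a (tw z (p l) a) := by
    intro a
    have h3 : ordOver a (∏ l, tw z (p l) a) = ∑ l, ordOver a (tw z (p l) a) := by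
      rw [ordOver, map_prod, ordAt_prod a Finset.univ]
      · rfl
      · intro l _
        rw [Algebra.norm_ne_zero_iff]
        exact tw_ne hz0 _ a
    rw [hnu']
    simp only
    rw [ordOver_mul a ((map_ne_zero _).mpr (hnu a))
      (Finset.prod_ne_zero_iff.mpr fun l _ => tw_ne hz0 _ a), h3, ordOver_map a (nu a) (hnu a)]
  have hsupp : {a | ordOver a (nu a) ≠ 0}.Finite := by
    refine hfin.subset ?_
    intro a ha hcon
    exact ha (ordOver_unit (hnu a) hcon.1 hcon.2)
  have h4 : ∑ᶠ a, ordOver a (nu' a) = finrank K K' * ∑ᶠ a, ordOver a (nu a) +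
      ∑ l, ordOver (none : Option k) (z ^ p l) := by
    simp only [h2]
    rw [finsum_add_distrib]
    · congr 1
      · exact (mul_finsum _ _).symm
      · rw [finsum_eq_single _ (none : Option k)]
        · rfl
        · intro a ha
          cases a with
          | none => exact absurd rfl ha
          | some a =>
            refine Finset.sum_eq_zero fun l _ => ?_
            rw [htw1, ordOver_one]
    · refine hsupp.subset ?_
      intro a ha hcon
      apply ha
      simp only
      rw [hcon, mul_zero]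
    · refine (Set.finite_singleton (none : Option k)).subset ?_
      intro a ha
      cases a with
      | none => rfl
      | some a =>
        exfalso
        apply ha
        refine Finset.sum_eq_zero fun l _ => ?_
        rw [htw1, ordOver_one]
  have hzF : z ^ D = algebraMap (RatFunc k) K' (unifAt none) := hz
  have h5 : ∀ l, (D : ℝ) * (ordOver (none : Option k) (z ^ p l) : ℝ) =
      p l * finrank (RatFunc k) K' := by
    intro l
    exact_mod_cast ord_norm_root hzF (p l)
  have h6 : (finrank (RatFunc k) K' : ℝ) = finrank (RatFunc k) K * finrank K K' := by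
    exact_mod_cast (Module.finrank_mul_finrank (RatFunc k) K K').symm
  have h7 : ∀ l, (ordOver (none : Option k) (z ^ p l) : ℝ) = mu l * finrank K K' := by
    intro l
    have hD0 : (D : ℝ) ≠ 0 := by exact_mod_cast hD.ne'
    have h8 := h5 l
    rw [h6, ← mul_assoc, ← hp l] at h8
    apply mul_left_cancel₀ hD0
    rw [h8]
    ring
  rw [h4] at h1
  push_cast at h1 ⊢
  simp only [h7] at h1
  rw [← Finset.sum_mul] at h1
  have hpos : (0 : ℝ) < finrank K K' := by
    exact_mod_cast (Module.finrank_pos : 0 < finrank K K')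
  have h9 : (∑ l, mu l) * (finrank K K' : ℝ) ≤
      (-((∑ᶠ a, ordOver a (nu a) : ℤ) : ℝ)) * finrank K K' := by
    linarith
  exact le_of_mul_le_mul_right h9 hpos

end

end Pool.Agent.FJ2
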