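import Pool.Agent.FJ2.PRJ

/-!
# FJ2, module SEC: global sections of given bidegree with prescribed local behaviour
-/

set_option linter.unusedSectionVars false

namespace Pool.Agent.FJ2

open Pool.Agent.Helper38.Scroll Pool.Agent.FJ Matrix Module

section

variable {k K : Type} [Field k] [Field K] [Algebra (RatFunc k) K] [Algebra k K]
  [IsScalarTower k (RatFunc k) K] {n₁ n₂ : ℕ}

lemma sec_coe_sub {e d : ℕ} (s t : BF K n₁ n₂ e d) :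
    (((s - t : BF K n₁ n₂ e d) : Forms K (n₁ + n₂) e) : MvPolynomial (Fin (n₁ + n₂)) K) =
      ((s : Forms K (n₁ + n₂) e) : MvPolynomial (Fin (n₁ + n₂)) K) -
        ((t : Forms K (n₁ + n₂) e) : MvPolynomial (Fin (n₁ + n₂)) K) := by
  rw [Submodule.coe_sub, Submodule.coe_sub]

variable [IsAlgClosed k] [CharZero k] [FiniteDimensional (RatFunc k) K]

lemma sec_locMap_wh {d : ℕ} {a : Option k} (t : K) (g₁ : Matrix (Fin n₁) (Fin n₁) K)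
    (g₂ : Matrix (Fin n₂) (Fin n₂) K) {T : MvPolynomial (Fin (n₁ + n₂)) (regRing k K a)}
    (hT : T.IsWeightedHomogeneous (wt n₁ n₂) d) :
    (locMap a t (bd g₁ g₂) T).IsWeightedHomogeneous (wt n₁ n₂) d := by
  have h1 := comp_locMap (d := d) t g₁ g₂ T
  rw [MvPolynomial.IsWeightedHomogeneous.weightedHomogeneousComponent_same hT] at h1
  rw [← h1]
  exact MvPolynomial.weightedHomogeneousComponent_isWeightedHomogeneous _ _

/-- an element of `Jmod` mapping to a form of degree `d` in the first variables may be replaced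
by its component of degree `d` -/
lemma sec_replace {e d : ℕ} {a : Option k}
    {Λ₁ : Submodule (regRing k K a) (Fin n₁ → regRing k K a)}
    {Λ₂ : Submodule (regRing k K a) (Fin n₂ → regRing k K a)} (t : K)
    (g₁ : Matrix (Fin n₁) (Fin n₁) K) (g₂ : Matrix (Fin n₂) (Fin n₂) K)
    {P : MvPolynomial (Fin (n₁ + n₂)) K} (hP : P.IsWeightedHomogeneous (wt n₁ n₂) d)
    (h : ∃ J ∈ Jmod e (splitΛ Λ₁ Λ₂), locMap a t (bd g₁ g₂) J = P) :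
    ∃ J ∈ Jmod e (splitΛ Λ₁ Λ₂), J.IsWeightedHomogeneous (wt n₁ n₂) d ∧
      locMap a t (bd g₁ g₂) J = P := by
  obtain ⟨J, hJ, hJP⟩ := h
  refine ⟨MvPolynomial.weightedHomogeneousComponent (wt n₁ n₂) d J, comp_Jmod hJ,
    MvPolynomial.weightedHomogeneousComponent_isWeightedHomogeneous _ _, ?_⟩
  rw [← comp_locMap, hJP,
    MvPolynomial.IsWeightedHomogeneous.weightedHomogeneousComponent_same hP]

lemma sec_approx (Q₁ : Conditions k K n₁) (Q₂ : Conditions k K n₂)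
    {g₁ : Option k → Matrix (Fin n₁) (Fin n₁) K} {g₂ : Option k → Matrix (Fin n₂) (Fin n₂) K}
    (hg : IsBundle fun a => bd (g₁ a) (g₂ a)) {e d : ℕ} {τ : Option k → K} (hτ : IsTwist τ)
    (hvan : ∀ u : BF K n₁ n₂ e d, u ∈ (latFam₂ (splitC Q₁ Q₂) hg e d hτ).W0 ⊔
      (latFam₂ (splitC Q₁ Q₂) hg e d hτ).Wi)
    (a : Option k) (t : BF K n₁ n₂ e d) :
    ∃ s : BF K n₁ n₂ e d,
      (∃ J ∈ Jmod e (splitΛ (Q₁.Λ a) (Q₂.Λ a)),
        locMap a (τ a) (bd (g₁ a) (g₂ a)) J = ((s : Forms K (n₁ + n₂) e) :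
        MvPolynomial (Fin (n₁ + n₂)) K) - ((t : Forms K (n₁ + n₂) e) :
        MvPolynomial (Fin (n₁ + n₂)) K)) ∧
      ∀ b, b ≠ a → ∃ J ∈ Jmod e (splitΛ (Q₁.Λ b) (Q₂.Λ b)),
        locMap b (τ b) (bd (g₁ b) (g₂ b)) J = ((s : Forms K (n₁ + n₂) e) :
        MvPolynomial (Fin (n₁ + n₂)) K) := by
  obtain ⟨s, hsa, hsb⟩ := (latFam₂ (splitC Q₁ Q₂) hg e d hτ).approx hvan a t
  refine ⟨s, ?_, ?_⟩
  · obtain ⟨J, hJ, hJ'⟩ := mem_latFam₂.mp hsa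
    refine ⟨J, hJ, ?_⟩
    rw [sec_coe_sub] at hJ'
    exact hJ'
  · intro b hb
    obtain ⟨J, hJ, hJ'⟩ := mem_latFam₂.mp (hsb b hb)
    exact ⟨J, hJ, hJ'⟩

lemma sec_approx2 (Q₁ : Conditions k K n₁) (Q₂ : Conditions k K n₂)
    {g₁ : Option k → Matrix (Fin n₁) (Fin n₁) K} {g₂ : Option k → Matrix (Fin n₂) (Fin n₂) K}
    (hg : IsBundle fun a => bd (g₁ a) (g₂ a)) {e d : ℕ} {τ : Option k → K} (hτ : IsTwist τ)
    (hvan : ∀ u : BF K n₁ n₂ e d, u ∈ (latFam₂ (splitC Q₁ Q₂) hg e d hτ).W0 ⊔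
      (latFam₂ (splitC Q₁ Q₂) hg e d hτ).Wi)
    (a : Option k) {P : MvPolynomial (Fin (n₁ + n₂)) K}
    (hP : P.IsHomogeneous (e + 1)) (hP' : P.IsWeightedHomogeneous (wt n₁ n₂) d) :
    ∃ s : MvPolynomial (Fin (n₁ + n₂)) K,
      (∃ J ∈ Jmod e (splitΛ (Q₁.Λ a) (Q₂.Λ a)), J.IsWeightedHomogeneous (wt n₁ n₂) d ∧
        locMap a (τ a) (bd (g₁ a) (g₂ a)) J = s - P) ∧
      ∀ b, b ≠ a → ∃ J ∈ Jmod e (splitΛ (Q₁.Λ b) (Q₂.Λ b)),
        J.IsWeightedHomogeneous (wt n₁ n₂) d ∧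
        locMap b (τ b) (bd (g₁ b) (g₂ b)) J = s := by
  obtain ⟨s, hsa, hsb⟩ := sec_approx Q₁ Q₂ hg hτ hvan a ⟨⟨P, hP⟩, hP'⟩
  have hs : ((s : Forms K (n₁ + n₂) e) :
      MvPolynomial (Fin (n₁ + n₂)) K).IsWeightedHomogeneous (wt n₁ n₂) d := mem_BF.mp s.2
  have hd : (((s : Forms K (n₁ + n₂) e) : MvPolynomial (Fin (n₁ + n₂)) K) -
      P).IsWeightedHomogeneous (wt n₁ n₂) d :=
    (MvPolynomial.weightedHomogeneousSubmodule K (wt n₁ n₂) d).sub_mem hs hP'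
  exact ⟨((s : Forms K (n₁ + n₂) e) : MvPolynomial (Fin (n₁ + n₂)) K),
    sec_replace (τ a) (g₁ a) (g₂ a) hd hsa,
    fun b hb => sec_replace (τ b) (g₁ b) (g₂ b) hs (hsb b hb)⟩

/-- local data give a section -/
lemma sec_glue (Λ₁ : ∀ a : Option k, Submodule (regRing k K a) (Fin n₁ → regRing k K a))
    (Λ₂ : ∀ a : Option k, Submodule (regRing k K a) (Fin n₂ → regRing k K a))
    (g₁ : Option k → Matrix (Fin n₁) (Fin n₁) K) (g₂ : Option k → Matrix (Fin n₂) (Fin n₂) K)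
    {e d : ℕ} (τ : Option k → K) (a : Option k)
    {T : MvPolynomial (Fin (n₁ + n₂)) (regRing k K a)}
    (hT : T.IsHomogeneous (e + 1)) (hT' : T.IsWeightedHomogeneous (wt n₁ n₂) d)
    (s : MvPolynomial (Fin (n₁ + n₂)) K)
    (hsa : ∃ J ∈ Jmod e (splitΛ (Λ₁ a) (Λ₂ a)), J.IsWeightedHomogeneous (wt n₁ n₂) d ∧
        locMap a (τ a) (bd (g₁ a) (g₂ a)) J = s - locMap a (τ a) (bd (g₁ a) (g₂ a)) T)
    (hsb : ∀ b, b ≠ a → ∃ J ∈ Jmod e (splitΛ (Λ₁ b) (Λ₂ b)),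
        J.IsWeightedHomogeneous (wt n₁ n₂) d ∧
        locMap b (τ b) (bd (g₁ b) (g₂ b)) J = s) :
    ∃ s : Sec₂ k K n₁ n₂ (fun a => bd (g₁ a) (g₂ a)) e d τ,
      s.loc a - T ∈ Jmod e (splitΛ (Λ₁ a) (Λ₂ a)) ∧
      ∀ b, b ≠ a → s.loc b ∈ Jmod e (splitΛ (Λ₁ b) (Λ₂ b)) := by
  classical
  obtain ⟨Ja, hJa, hJaw, hJa'⟩ := hsa
  choose! J hJ hJw hJ' using hsb
  have hex : ∃ t : ∀ b, MvPolynomial (Fin (n₁ + n₂)) (regRing k K b),
      t a = T + Ja ∧ ∀ b, b ≠ a → t b = J b :=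
    ⟨Function.update J a (T + Ja), Function.update_self _ _ _,
      fun b hb => Function.update_of_ne hb _ _⟩
  obtain ⟨t, hta, htb⟩ := hex
  have h1 : ∀ b, (t b).IsHomogeneous (e + 1) := by
    intro b
    by_cases hb : b = a
    · subst hb
      rw [hta]
      exact hT.add (Jmod_isHomogeneous hJa)
    · rw [htb b hb]
      exact Jmod_isHomogeneous (hJ b hb)
  have h2 : ∀ b, s = locMap b (τ b) (bd (g₁ b) (g₂ b)) (t b) := by
    intro b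
    by_cases hb : b = a
    · subst hb
      rw [hta, map_add, hJa']
      abel
    · rw [htb b hb]
      exact (hJ' b hb).symm
  have h3 : ∀ b, (t b).IsWeightedHomogeneous (wt n₁ n₂) d := by
    intro b
    by_cases hb : b = a
    · subst hb
      rw [hta]
      exact hT'.add hJaw
    · rw [htb b hb]
      exact hJw b hb
  have h4 : t a - T ∈ Jmod e (splitΛ (Λ₁ a) (Λ₂ a)) := by
    have h5 : t a - T = Ja := by rw [hta]; ring
    rw [h5]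
    exact hJa
  have h6 : ∀ b, b ≠ a → t b ∈ Jmod e (splitΛ (Λ₁ b) (Λ₂ b)) := by
    intro b hb
    rw [htb b hb]
    exact hJ b hb
  exact ⟨⟨⟨s, t, h1, h2⟩, h3⟩, h4, h6⟩

theorem exists_section₂ (Q₁ : Conditions k K n₁) (Q₂ : Conditions k K n₂)
    {g₁ : Option k → Matrix (Fin n₁) (Fin n₁) K} {g₂ : Option k → Matrix (Fin n₂) (Fin n₂) K}
    (hg : IsBundle fun a => bd (g₁ a) (g₂ a)) {e d : ℕ} {τ : Option k → K} (hτ : IsTwist τ)
    (hvan : ∀ u : BF K n₁ n₂ e d, u ∈ (latFam₂ (splitC Q₁ Q₂) hg e d hτ).W0 ⊔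
      (latFam₂ (splitC Q₁ Q₂) hg e d hτ).Wi)
    (a : Option k) {T : MvPolynomial (Fin (n₁ + n₂)) (regRing k K a)}
    (hT : T.IsHomogeneous (e + 1)) (hT' : T.IsWeightedHomogeneous (wt n₁ n₂) d) :
    ∃ s : Sec₂ k K n₁ n₂ (fun a => bd (g₁ a) (g₂ a)) e d τ,
      s.loc a - T ∈ Jmod e ((splitC Q₁ Q₂).Λ a) ∧
      ∀ b, b ≠ a → s.loc b ∈ Jmod e ((splitC Q₁ Q₂).Λ b) := by
  obtain ⟨s, hsa, hsb⟩ := sec_approx2 Q₁ Q₂ hg hτ hvan a
    (locMap_isHomogeneous (τ a) (bd (g₁ a) (g₂ a)) hT)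
    (sec_locMap_wh (τ a) (g₁ a) (g₂ a) hT')
  exact sec_glue Q₁.Λ Q₂.Λ g₁ g₂ τ a hT hT' s hsa hsb

end

end Pool.Agent.FJ2
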