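import Pool.Agent.FJ2.SE
import Pool.Agent.FJ.NUM

/-!
# FJ2 / SF: the slope inequality for multilinear maps on several bundles, rational slopes
-/

set_option linter.unusedSectionVars false

namespace Pool.Agent.FJ2

open Pool.Agent.Helper38.Scroll Pool.Agent.FJ Matrix Module

/-- **Theorem S for several bundles.** A nonzero multilinear map `∏ E_l → N` into a line bundle, where
every quotient bundle of `E_l` has slope at least `μ l`, satisfies `deg N ≥ ∑ μ l`. -/
theorem slope_family {k K : Type} [Field k] [Field K] [Algebra (RatFunc k) K] [Algebra k K]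
    [IsScalarTower k (RatFunc k) K] [IsAlgClosed k] [CharZero k] [FiniteDimensional (RatFunc k) K]
    {J : Type} [Fintype J] {n : J → ℕ} {g : ∀ l, Option k → Matrix (Fin (n l)) (Fin (n l)) K}
    (hg : ∀ l, IsBundle (g l)) {μ : J → ℚ}
    (hμ : ∀ l, ∀ s, 0 < s → ∀ A : Matrix (Fin s) (Fin (n l)) K, A.rank = s → ∀ h',
      IsQuotientBundle (g l) A h' → μ l * s ≤ degree h')
    (Θ : MultilinearMap K (fun l : J => Fin (n l) → K) K) (h0 : Θ ≠ 0) {ν : Option k → K}
    (hν : ∀ a, ν a ≠ 0)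
    (hfin : {a | ¬ (Curve.Regular a (ν a) ∧ Curve.Regular a (ν a)⁻¹)}.Finite)
    (hval : ∀ a (v : ∀ l, Fin (n l) → K), (∀ l, v l ∈ lattice a (g l a)) →
      ∃ c, Curve.Regular a c ∧ Θ v = ν a * c) :
    ∑ l, μ l ≤ ((-∑ᶠ a, Curve.ordOver a (ν a) : ℤ) : ℚ) := by
  classical
  have hd0 : 0 < finrank (RatFunc k) K := Module.finrank_pos
  set Dn : ℕ := ∏ l, (μ l).den with hDn
  have hden : 0 < Dn := Finset.prod_pos fun l _ => (μ l).den_pos
  let p : J → ℤ := fun l => (μ l).num * (∏ i ∈ Finset.univ.erase l, (μ i).den : ℕ)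
  have hp : ∀ l, ((μ l : ℚ) : ℝ) * ((finrank (RatFunc k) K * Dn : ℕ) : ℝ) =
      p l * finrank (RatFunc k) K := by
    intro l
    have e1 : ((μ l : ℚ) : ℝ) * ((μ l).den : ℝ) = (μ l).num := by
      have h1 := Rat.mul_den_eq_num (μ l)
      exact_mod_cast congrArg (fun q : ℚ => (q : ℝ)) h1
    have e2 : (Dn : ℝ) = ((μ l).den : ℝ) * ((∏ i ∈ Finset.univ.erase l, (μ i).den : ℕ) : ℝ) := by
      rw [hDn, ← Finset.mul_prod_erase Finset.univ _ (Finset.mem_univ l)]
      push_cast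
      ring
    have e3 : ((p l : ℤ) : ℝ) = ((μ l).num : ℝ) *
        ((∏ i ∈ Finset.univ.erase l, (μ i).den : ℕ) : ℝ) := by
      simp only [p]
      push_cast
      ring
    rw [e3, ← e1, Nat.cast_mul, e2]
    ring
  have hmain := slope_family_aux (k := k) (K := K) (J := J) (n := n) (g := g)
    (mu := fun l => ((μ l : ℚ) : ℝ)) hg ?_ (Nat.mul_pos hd0 hden) p hp Θ h0 ν hν hfin hval
  · have h6 : (∑ᶠ a, Curve.ordOver a (ν a)) = ∑ᶠ a, ordOver a (ν a) := rfl
    rw [h6]
    exact_mod_cast hmain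
  · intro l r hr A hA h hh
    have h2 := hμ l r hr A hA h hh
    have h7 : ((μ l * r : ℚ) : ℝ) ≤ ((degree h : ℚ) : ℝ) := by exact_mod_cast h2
    push_cast at h7
    exact h7

end Pool.Agent.FJ2
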