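import Pool.Agent.FJ2.Defs

/-!
# FJ2, module TYP: the mixed component of the determinant form
-/

set_option linter.unusedSectionVars false

namespace Pool.Agent.FJ2

open Pool.Agent.Helper38.Scroll Pool.Agent.FJ Matrix Module

/-- block diagonal matrices act on the two components -/
theorem typ_bd_mulVec {K : Type} [Field K] {n₁ n₂ r₁ r₂ : ℕ} (A : Matrix (Fin r₁) (Fin n₁) K)
    (B : Matrix (Fin r₂) (Fin n₂) K) (v : Fin n₁ → K) (w : Fin n₂ → K) :
    bd A B *ᵥ (Fin.append v w) = Fin.append (A *ᵥ v) (B *ᵥ w) := by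
  funext i
  refine Fin.addCases (fun i => ?_) (fun i => ?_) i
  · simp [bd, Matrix.mulVec, dotProduct, Fin.sum_univ_add]
  · simp [bd, Matrix.mulVec, dotProduct, Fin.sum_univ_add]

theorem typ_append_comp {K : Type} {r₁ r₂ : ℕ} (x : Fin (r₁ + r₂) → K) :
    Fin.append (fun j => x (Fin.castAdd r₂ j)) (fun j => x (Fin.natAdd r₁ j)) = x := by
  funext i
  refine Fin.addCases (fun i => ?_) (fun i => ?_) i
  · simp
  · simp

theorem typ_bd_retract {K : Type} [Field K] {n₁ n₂ r₁ r₂ : ℕ}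
    {B₁ : Matrix (Fin r₁) (Fin n₁) K} {R₁ : Matrix (Fin n₁) (Fin r₁) K} (h₁ : B₁ * R₁ = 1)
    {B₂ : Matrix (Fin r₂) (Fin n₂) K} {R₂ : Matrix (Fin n₂) (Fin r₂) K} (h₂ : B₂ * R₂ = 1)
    (x : Fin (r₁ + r₂) → K) : bd B₁ B₂ *ᵥ (bd R₁ R₂ *ᵥ x) = x := by
  rw [← typ_append_comp x, typ_bd_mulVec, typ_bd_mulVec, Matrix.mulVec_mulVec,
    Matrix.mulVec_mulVec, h₁, h₂, Matrix.one_mulVec, Matrix.one_mulVec]

theorem typ_lin_left {K : Type} [Field K] {n₁ n₂ : ℕ} (v : Fin n₁ → K) :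
    (lin (Fin.append v (0 : Fin n₂ → K))).IsWeightedHomogeneous (wt n₁ n₂) 1 := by
  unfold lin
  refine MvPolynomial.IsWeightedHomogeneous.sum _ _ _ fun i _ => ?_
  refine Fin.addCases (fun i => ?_) (fun i => ?_) i
  · have h := (MvPolynomial.isWeightedHomogeneous_X K (wt n₁ n₂) (Fin.castAdd n₂ i)).C_mul
      (Fin.append v (0 : Fin n₂ → K) (Fin.castAdd n₂ i))
    simpa [wt] using h
  · have h : Fin.append v (0 : Fin n₂ → K) (Fin.natAdd n₁ i) = 0 := by simp
    rw [h, map_zero, zero_mul]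
    exact MvPolynomial.isWeightedHomogeneous_zero K _ _

theorem typ_lin_right {K : Type} [Field K] {n₁ n₂ : ℕ} (w : Fin n₂ → K) :
    (lin (Fin.append (0 : Fin n₁ → K) w)).IsWeightedHomogeneous (wt n₁ n₂) 0 := by
  unfold lin
  refine MvPolynomial.IsWeightedHomogeneous.sum _ _ _ fun i _ => ?_
  refine Fin.addCases (fun i => ?_) (fun i => ?_) i
  · have h : Fin.append (0 : Fin n₁ → K) w (Fin.castAdd n₂ i) = 0 := by simp
    rw [h, map_zero, zero_mul]
    exact MvPolynomial.isWeightedHomogeneous_zero K _ _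
  · have h := (MvPolynomial.isWeightedHomogeneous_X K (wt n₁ n₂) (Fin.natAdd n₁ i)).C_mul
      (Fin.append (0 : Fin n₁ → K) w (Fin.natAdd n₁ i))
    simpa [wt] using h

/-- the basis vectors -/
theorem typ_single {K : Type} [Field K] {r₁ r₂ : ℕ} (j : Fin (r₁ + r₂)) :
    (∀ h : (j : ℕ) < r₁, (Pi.single j 1 : Fin (r₁ + r₂) → K) =
      Fin.append (Pi.single ⟨j, h⟩ 1) 0) ∧
    (∀ h : ¬ (j : ℕ) < r₁, (Pi.single j 1 : Fin (r₁ + r₂) → K) =
      Fin.append 0 (Pi.single ⟨j - r₁, by omega⟩ 1)) := by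
  constructor
  · intro h
    funext i
    refine Fin.addCases (fun i => ?_) (fun i => ?_) i
    · rw [Fin.append_left, Pi.single_apply, Pi.single_apply]
      simp only [Fin.ext_iff, Fin.val_castAdd]
    · rw [Fin.append_right, Pi.single_apply]
      rw [if_neg]
      · rfl
      · intro h2
        have := congrArg Fin.val h2
        simp only [Fin.val_natAdd] at this
        omega
  · intro h
    funext i
    refine Fin.addCases (fun i => ?_) (fun i => ?_) i
    · rw [Fin.append_left, Pi.single_apply]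
      rw [if_neg]
      · rfl
      · intro h2
        have := congrArg Fin.val h2
        simp only [Fin.val_castAdd] at this
        omega
    · rw [Fin.append_right, Pi.single_apply, Pi.single_apply]
      simp only [Fin.ext_iff, Fin.val_natAdd]
      congr 1
      apply propext
      omega

/-- The first inclusion. -/
def typ_inl (K : Type) [Field K] (r₁ r₂ : ℕ) : (Fin r₁ → K) →ₗ[K] (Fin (r₁ + r₂) → K) where
  toFun v := Fin.append v 0
  map_add' v w := by
    funext i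
    refine Fin.addCases (fun i => ?_) (fun i => ?_) i <;> simp
  map_smul' c v := by
    funext i
    refine Fin.addCases (fun i => ?_) (fun i => ?_) i <;> simp

/-- The second inclusion. -/
def typ_inr (K : Type) [Field K] (r₁ r₂ : ℕ) : (Fin r₂ → K) →ₗ[K] (Fin (r₁ + r₂) → K) where
  toFun v := Fin.append 0 v
  map_add' v w := by
    funext i
    refine Fin.addCases (fun i => ?_) (fun i => ?_) i <;> simp
  map_smul' c v := by
    funext i
    refine Fin.addCases (fun i => ?_) (fun i => ?_) i <;> simp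

/-- the weight of the linear form given by the image of a basis vector -/
theorem typ_weight {K : Type} [Field K] {n₁ n₂ r₁ r₂ : ℕ}
    (R₁ : Matrix (Fin n₁) (Fin r₁) K) (R₂ : Matrix (Fin n₂) (Fin r₂) K) (j : Fin (r₁ + r₂)) :
    (lin (bd R₁ R₂ *ᵥ (Pi.single j 1 : Fin (r₁ + r₂) → K))).IsWeightedHomogeneous (wt n₁ n₂)
      (if (j : ℕ) < r₁ then 1 else 0) := by
  by_cases h : (j : ℕ) < r₁
  · rw [if_pos h, (typ_single j).1 h, typ_bd_mulVec, Matrix.mulVec_zero]
    exact typ_lin_left _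
  · rw [if_neg h, (typ_single j).2 h, typ_bd_mulVec, Matrix.mulVec_zero]
    exact typ_lin_right _

/-- The mixed component of the determinant form. -/
theorem exists_mixed {K : Type} [Field K] {n₁ n₂ e d r₁ r₂ : ℕ}
    (φ : MvPolynomial (Fin (n₁ + n₂)) K →ₗ[K] K)
    (hb : ∀ P : MvPolynomial (Fin (n₁ + n₂)) K, P.IsHomogeneous (e + 1) →
      φ P = φ (MvPolynomial.weightedHomogeneousComponent (wt n₁ n₂) d P))
    {B₁ : Matrix (Fin r₁) (Fin n₁) K} {R₁ : Matrix (Fin n₁) (Fin r₁) K} (h₁ : B₁ * R₁ = 1)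
    {B₂ : Matrix (Fin r₂) (Fin n₂) K} {R₂ : Matrix (Fin n₂) (Fin r₂) K} (h₂ : B₂ * R₂ = 1)
    (Θ : MultilinearMap K
      (fun _ : Fin (r₁ + r₂) ⊕ Fin (r₁ + r₂) × Fin e => Fin (r₁ + r₂) → K) K) (h0 : Θ ≠ 0)
    (hΘ : ∀ (u : Fin (r₁ + r₂) → Fin (n₁ + n₂) → K)
      (y : Fin (r₁ + r₂) → Fin e → Fin (n₁ + n₂) → K),
        Θ (Sum.elim (fun i => bd B₁ B₂ *ᵥ u i) (fun p => bd B₁ B₂ *ᵥ y p.1 p.2)) =
          (Matrix.of fun i j => φ (lin (u i) * ∏ l, lin (y j l))).det) :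
    ∃ (ι₁ ι₂ : Type) (_ : Fintype ι₁) (_ : Fintype ι₂)
      (Ξ : MultilinearMap K (fun _ : ι₁ => Fin r₁ → K)
        (MultilinearMap K (fun _ : ι₂ => Fin r₂ → K) K))
      (σ : Fin (r₁ + r₂) ⊕ Fin (r₁ + r₂) × Fin e → ι₁ ⊕ ι₂), Ξ ≠ 0 ∧
      Fintype.card ι₁ = (r₁ + r₂) * d ∧
      Fintype.card ι₁ + Fintype.card ι₂ = (r₁ + r₂) * (e + 1) ∧
      ∀ v w, Ξ v w = Θ (fun i => Sum.elim (fun j => Fin.append (v j) 0)
        (fun j => Fin.append 0 (w j)) (σ i)) := by
  classical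
  -- a tuple of basis vectors
  obtain ⟨c, hc⟩ : ∃ c : Fin (r₁ + r₂) ⊕ Fin (r₁ + r₂) × Fin e → Fin (r₁ + r₂),
      Θ (fun s => Pi.single (c s) 1) ≠ 0 := by
    by_contra hcon
    push Not at hcon
    apply h0
    refine Module.Basis.ext_multilinear (fun _ => Pi.basisFun K (Fin (r₁ + r₂))) fun v => ?_
    simpa [Pi.basisFun_apply] using hcon v
  let P : Fin (r₁ + r₂) ⊕ Fin (r₁ + r₂) × Fin e → Prop := fun s => (c s : ℕ) < r₁
  let σ : (Fin (r₁ + r₂) ⊕ Fin (r₁ + r₂) × Fin e) ≃ {s // P s} ⊕ {s // ¬ P s} :=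
    (Equiv.sumCompl P).symm
  let Θ₁ : MultilinearMap K (fun _ : {s // P s} ⊕ {s // ¬ P s} => Fin (r₁ + r₂) → K) K :=
    Θ.domDomCongr σ
  let Θ₂ : MultilinearMap K (fun _ : {s // P s} => Fin (r₁ + r₂) → K)
      (MultilinearMap K (fun _ : {s // ¬ P s} => Fin (r₁ + r₂) → K) K) :=
    MultilinearMap.currySum Θ₁
  let Ξ : MultilinearMap K (fun _ : {s // P s} => Fin r₁ → K)
      (MultilinearMap K (fun _ : {s // ¬ P s} => Fin r₂ → K) K) :=
    (MultilinearMap.compLinearMapₗ (fun _ => typ_inr K r₁ r₂)).compMultilinearMap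
      (Θ₂.compLinearMap (fun _ => typ_inl K r₁ r₂))
  have hΞ : ∀ v w, Ξ v w = Θ (fun i => Sum.elim (fun j => Fin.append (v j) 0)
        (fun j => Fin.append 0 (w j)) (σ i)) := by
    intro v w
    change Θ₂ (fun i => Fin.append (v i) 0) (fun i => Fin.append 0 (w i)) = _
    change Θ₁ (Sum.elim (fun i => Fin.append (v i) 0) (fun i => Fin.append 0 (w i))) = _
    rfl
  refine ⟨{s // P s}, {s // ¬ P s}, inferInstance, inferInstance, Ξ, σ, ?_, ?_, ?_, hΞ⟩
  · intro hcon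
    apply hc
    have h3 := hΞ (fun s => Pi.single ⟨c s.1, s.2⟩ 1)
      (fun s => Pi.single ⟨c s.1 - r₁, by have := s.2; simp only [P] at this; omega⟩ 1)
    rw [hcon] at h3
    rw [show (fun s => (Pi.single (c s) 1 : Fin (r₁ + r₂) → K)) = _ from ?_]
    · exact h3.symm
    · funext s
      by_cases hs : P s
      · rw [show σ s = Sum.inl ⟨s, hs⟩ from Equiv.sumCompl_symm_apply_of_pos hs, Sum.elim_inl]
        exact (typ_single (c s)).1 hs
      · rw [show σ s = Sum.inr ⟨s, hs⟩ from Equiv.sumCompl_symm_apply_of_neg hs, Sum.elim_inr]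
        exact (typ_single (c s)).2 hs
  · -- the number of slots of the first kind
    have h3 := hΘ (fun i => bd R₁ R₂ *ᵥ Pi.single (c (Sum.inl i)) 1)
      (fun j l => bd R₁ R₂ *ᵥ Pi.single (c (Sum.inr (j, l))) 1)
    have h4 : (Sum.elim
        (fun i => bd B₁ B₂ *ᵥ (bd R₁ R₂ *ᵥ (Pi.single (c (Sum.inl i)) 1 : Fin (r₁ + r₂) → K)))
        (fun p : Fin (r₁ + r₂) × Fin e => bd B₁ B₂ *ᵥ
          (bd R₁ R₂ *ᵥ (Pi.single (c (Sum.inr (p.1, p.2))) 1 : Fin (r₁ + r₂) → K)))) =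
        fun s => Pi.single (c s) 1 := by
      funext s
      rcases s with i | p
      · rw [Sum.elim_inl, typ_bd_retract h₁ h₂]
      · rw [Sum.elim_inr, typ_bd_retract h₁ h₂]
    rw [h4] at h3
    rw [h3, Matrix.det_apply] at hc
    obtain ⟨s, -, hs⟩ := Finset.exists_ne_zero_of_sum_ne_zero hc
    have hs' : ∏ i, φ (lin (bd R₁ R₂ *ᵥ Pi.single (c (Sum.inl (s i))) 1) *
        ∏ l, lin (bd R₁ R₂ *ᵥ Pi.single (c (Sum.inr (i, l))) 1)) ≠ 0 := by
      intro h5
      apply hs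
      simp only [Matrix.of_apply]
      rw [h5, smul_zero]
    rw [Finset.prod_ne_zero_iff] at hs'
    have hdeg : ∀ i, (if (c (Sum.inl (s i)) : ℕ) < r₁ then 1 else 0) +
        ∑ l : Fin e, (if (c (Sum.inr (i, l)) : ℕ) < r₁ then 1 else 0) = d := by
      intro i
      by_contra hne
      apply hs' i (Finset.mem_univ _)
      rw [hb _ ?_]
      · have h6 : (lin (bd R₁ R₂ *ᵥ (Pi.single (c (Sum.inl (s i))) 1 : Fin (r₁ + r₂) → K)) *
            ∏ l, lin (bd R₁ R₂ *ᵥ (Pi.single (c (Sum.inr (i, l))) 1 :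
              Fin (r₁ + r₂) → K))).IsWeightedHomogeneous (wt n₁ n₂)
            ((if (c (Sum.inl (s i)) : ℕ) < r₁ then 1 else 0) +
              ∑ l : Fin e, (if (c (Sum.inr (i, l)) : ℕ) < r₁ then 1 else 0)) :=
          (typ_weight R₁ R₂ _).mul
            (MvPolynomial.IsWeightedHomogeneous.prod _ _ _ fun l _ => typ_weight R₁ R₂ _)
        rw [MvPolynomial.weightedHomogeneousComponent_of_mem
          ((MvPolynomial.mem_weightedHomogeneousSubmodule _ _ _ _).2 h6),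
          if_neg (fun h => hne h.symm), map_zero]
      · rw [add_comm e 1]
        exact (lin_isHomogeneous _).mul (prod_lin_isHomogeneous _)
    have hsum : ∑ i, ((if (c (Sum.inl (s i)) : ℕ) < r₁ then 1 else 0) +
        ∑ l : Fin e, (if (c (Sum.inr (i, l)) : ℕ) < r₁ then 1 else 0)) = (r₁ + r₂) * d := by
      rw [Finset.sum_congr rfl fun i _ => hdeg i]
      simp
    rw [← hsum, Finset.sum_add_distrib,
      Equiv.sum_comp s (fun i => if (c (Sum.inl i) : ℕ) < r₁ then 1 else 0),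
      Fintype.card_subtype, Finset.card_filter, Fintype.sum_sum_type, Fintype.sum_prod_type]
  · rw [← Fintype.card_sum, ← Fintype.card_congr σ]
    simp only [Fintype.card_sum, Fintype.card_prod, Fintype.card_fin]
    ring

end Pool.Agent.FJ2
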