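import Pool.Agent.FJ2.VAT

/-!
# FJ2: nonvanishing sections
-/

set_option linter.unusedSectionVars false

namespace Pool.Agent.FJ2

open Pool.Agent.Helper38.Scroll Pool.Agent.FJ Matrix Module

section

variable {k K : Type} [Field k] [Field K] [Algebra (RatFunc k) K] [Algebra k K]
  [IsScalarTower k (RatFunc k) K] {n₁ n₂ : ℕ}

/-- the test form -/
noncomputable def vapForm {R : Type} [CommRing R] (i : Fin n₁) (j : Fin n₂) (m m' : ℕ) :
    MvPolynomial (Fin (n₁ + n₂)) R :=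
  MvPolynomial.X (Fin.castAdd n₂ i) ^ m * MvPolynomial.X (Fin.natAdd n₁ j) ^ m'

lemma vapForm_hom {R : Type} [CommRing R] (i : Fin n₁) (j : Fin n₂) (m m' e : ℕ)
    (he : m + m' = e) : (vapForm i j m m' : MvPolynomial (Fin (n₁ + n₂)) R).IsHomogeneous e := by
  have h := (vap_X_pow_isHomogeneous (R := R) (Fin.castAdd n₂ i) m).mul
    (vap_X_pow_isHomogeneous (R := R) (Fin.natAdd n₁ j) m')
  rw [he] at h
  exact h

lemma vapForm_wh {R : Type} [CommRing R] (i : Fin n₁) (j : Fin n₂) (m m' : ℕ) :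
    (vapForm i j m m' : MvPolynomial (Fin (n₁ + n₂)) R).IsWeightedHomogeneous (wt n₁ n₂) m := by
  have h := (vat_whX₁ (R := R) (n₂ := n₂) i m).mul (vat_whX₂ (R := R) (n₁ := n₁) j m')
  rw [add_zero] at h
  exact h

lemma vapForm_eval {R : Type} [CommRing R] [Algebra k R] {a : Option k}
    (θ : regRing k K a →ₐ[k] R) (ℓ₁ : Fin n₁ → R) (ℓ₂ : Fin n₂ → R) (i : Fin n₁) (j : Fin n₂)
    (m m' : ℕ) :
    MvPolynomial.eval₂ (θ : regRing k K a →+* R) (Fin.append ℓ₁ ℓ₂) (vapForm i j m m') =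
      ℓ₁ i ^ m * ℓ₂ j ^ m' := by
  rw [vapForm, MvPolynomial.eval₂_mul, vap_eval₂_X_pow, vap_eval₂_X_pow, Fin.append_left,
    Fin.append_right]

variable [IsAlgClosed k] [CharZero k] [FiniteDimensional (RatFunc k) K]

theorem sec_nonvanishing₂ {g₁ : Option k → Matrix (Fin n₁) (Fin n₁) K}
    {g₂ : Option k → Matrix (Fin n₂) (Fin n₂) K} (hg : IsBundle fun a => bd (g₁ a) (g₂ a))
    {e d : ℕ} (hd : 0 < d) (hd' : d ≤ e) {τ : Option k → K} (hτ : IsTwist τ)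
    (hV : Vanish₂ k K n₁ n₂ (fun a => bd (g₁ a) (g₂ a)) hg e d τ hτ)
    (p : CurvePoint k K) (x₁ : Projectivization k (Fin n₁ → k))
    (x₂ : Projectivization k (Fin n₂ → k)) :
    ∃ s : Sec₂ k K n₁ n₂ (fun a => bd (g₁ a) (g₂ a)) e d τ, s.value p.2 x₁.rep x₂.rep ≠ 0 := by
  obtain ⟨a, χ⟩ := p
  obtain ⟨i, hi⟩ := exists_coord_ne x₁
  obtain ⟨j, hj⟩ := exists_coord_ne x₂
  have hu : χ (unifB a) ^ 1 = 0 := by rw [hom_unifB, pow_one]
  obtain ⟨s, hs⟩ := vat_section hg hτ hV χ x₁.rep x₂.rep hu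
    (by rw [finrank_self]; norm_num)
    (vapForm_hom (R := regRing k K a) i j d (e + 1 - d) (e + 1) (by omega))
    (vapForm_wh i j d (e + 1 - d))
  refine ⟨s, ?_⟩
  rw [hs, vapForm_eval]
  exact mul_ne_zero (pow_ne_zero _ hi) (pow_ne_zero _ hj)

end

end Pool.Agent.FJ2
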