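import Pool.Agent.FJ2.SEC
import Pool.Agent.FJ.VAP

/-!
# FJ2, module VAP2: sections of bidegree `(d, e + 1 - d)` separate points
-/

set_option linter.unusedSectionVars false

namespace Pool.Agent.FJ2

open Pool.Agent.Helper38.Scroll Pool.Agent.FJ Matrix Module

section

variable {k K : Type} [Field k] [Field K] [Algebra (RatFunc k) K] [Algebra k K]
  [IsScalarTower k (RatFunc k) K] {n₁ n₂ : ℕ}

lemma vap2_split_le {R : Type} [CommRing R] [Algebra k R] {a : Option k}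
    (θ : regRing k K a →ₐ[k] R) (ℓ₁ : Fin n₁ → R) (ℓ₂ : Fin n₂ → R)
    {Λ₁ : Submodule (regRing k K a) (Fin n₁ → regRing k K a)}
    {Λ₂ : Submodule (regRing k K a) (Fin n₂ → regRing k K a)}
    (h₁ : Λ₁ ≤ evalKer θ ℓ₁) (h₂ : Λ₂ ≤ evalKer θ ℓ₂) :
    splitΛ Λ₁ Λ₂ ≤ evalKer θ (Fin.append ℓ₁ ℓ₂) := by
  intro v hv
  have h3 := h₁ hv.1
  have h4 := h₂ hv.2
  rw [mem_evalKer] at h3 h4 ⊢
  rw [Fin.sum_univ_add]
  simp only [Fin.append_left, Fin.append_right]
  rw [h3, h4, add_zero]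

lemma vap2_X_isHomogeneous {R : Type} [CommRing R] (i : Fin n₁) (j : Fin n₂) (p q : ℕ) :
    (MvPolynomial.X (Fin.castAdd n₂ i) ^ p * MvPolynomial.X (Fin.natAdd n₁ j) ^ q :
      MvPolynomial (Fin (n₁ + n₂)) R).IsHomogeneous (p + q) :=
  (vap_X_pow_isHomogeneous _ p).mul (vap_X_pow_isHomogeneous _ q)

lemma vap2_X_isWeighted {R : Type} [CommRing R] (i : Fin n₁) (j : Fin n₂) (p q : ℕ) :
    (MvPolynomial.X (Fin.castAdd n₂ i) ^ p * MvPolynomial.X (Fin.natAdd n₁ j) ^ q :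
      MvPolynomial (Fin (n₁ + n₂)) R).IsWeightedHomogeneous (wt n₁ n₂) p := by
  have h1 := (MvPolynomial.isWeightedHomogeneous_X R (wt n₁ n₂) (Fin.castAdd n₂ i)).pow p
  have h2 := (MvPolynomial.isWeightedHomogeneous_X R (wt n₁ n₂) (Fin.natAdd n₁ j)).pow q
  have h3 := h1.mul h2
  simpa [wt] using h3

lemma vap2_sub_isWeighted {R : Type} [CommRing R] {n : ℕ} {w : Fin n → ℕ}
    {P Q : MvPolynomial (Fin n) R} {m : ℕ} (hP : P.IsWeightedHomogeneous w m)
    (hQ : Q.IsWeightedHomogeneous w m) : (P - Q).IsWeightedHomogeneous w m :=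
  Submodule.sub_mem (MvPolynomial.weightedHomogeneousSubmodule R w m) hP hQ

lemma vap2_CX_isWeighted {R : Type} [CommRing R] {n : ℕ} {w : Fin n → ℕ} (c : R) (i : Fin n)
    {m : ℕ} (hm : w i = m) : (MvPolynomial.C c * MvPolynomial.X i).IsWeightedHomogeneous w m := by
  subst hm
  exact (MvPolynomial.isWeightedHomogeneous_X R w i).C_mul c

/-- The difference of two monomials of degree one. -/
noncomputable def vap2_diff {n : ℕ} (a : Option k) (c c' : k) (i j : Fin n) :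
    MvPolynomial (Fin n) (regRing k K a) :=
  MvPolynomial.C (algebraMap k (regRing k K a) c) * MvPolynomial.X i -
    MvPolynomial.C (algebraMap k (regRing k K a) c') * MvPolynomial.X j

lemma vap2_diff_isHomogeneous {n : ℕ} (a : Option k) (c c' : k) (i j : Fin n) :
    (vap2_diff (K := K) a c c' i j).IsHomogeneous 1 :=
  (vap_C_mul_isHomogeneous _ (MvPolynomial.isHomogeneous_X _ i)).sub
    (vap_C_mul_isHomogeneous _ (MvPolynomial.isHomogeneous_X _ j))

lemma vap2_diff_isWeighted_left (a : Option k) (c c' : k) (i j : Fin n₁) :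
    (vap2_diff (K := K) a c c' (Fin.castAdd n₂ i) (Fin.castAdd n₂ j)).IsWeightedHomogeneous
      (wt n₁ n₂) 1 := by
  have hw : ∀ i, wt n₁ n₂ (Fin.castAdd n₂ i) = 1 := fun i => by simp [wt]
  exact vap2_sub_isWeighted (vap2_CX_isWeighted _ _ (hw i)) (vap2_CX_isWeighted _ _ (hw j))

lemma vap2_diff_isWeighted_right (a : Option k) (c c' : k) (i j : Fin n₂) :
    (vap2_diff (K := K) a c c' (Fin.natAdd n₁ i) (Fin.natAdd n₁ j)).IsWeightedHomogeneous
      (wt n₁ n₂) 0 := by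
  have hw : ∀ i, wt n₁ n₂ (Fin.natAdd n₁ i) = 0 := fun i => by simp [wt]
  exact vap2_sub_isWeighted (vap2_CX_isWeighted _ _ (hw i)) (vap2_CX_isWeighted _ _ (hw j))

lemma vap2_eval₂_diff {n : ℕ} {a : Option k} (χ : regRing k K a →ₐ[k] k) (ℓ : Fin n → k)
    (c c' : k) (i j : Fin n) :
    MvPolynomial.eval₂ (χ : regRing k K a →+* k) ℓ (vap2_diff (K := K) a c c' i j) =
      c * ℓ i - c' * ℓ j := by
  have h : ∀ c : k, (χ : regRing k K a →+* k) (algebraMap k (regRing k K a) c) = c := by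
    intro c
    exact χ.commutes c
  rw [vap2_diff, MvPolynomial.eval₂_sub, MvPolynomial.eval₂_mul, MvPolynomial.eval₂_mul,
    MvPolynomial.eval₂_C, MvPolynomial.eval₂_C, MvPolynomial.eval₂_X, MvPolynomial.eval₂_X,
    h, h]

lemma vap2_eval₂_X {a : Option k} (χ : regRing k K a →ₐ[k] k) (ℓ₁ : Fin n₁ → k)
    (ℓ₂ : Fin n₂ → k) (i : Fin n₁) (j : Fin n₂) (p q : ℕ) :
    MvPolynomial.eval₂ (χ : regRing k K a →+* k) (Fin.append ℓ₁ ℓ₂)
      (MvPolynomial.X (Fin.castAdd n₂ i) ^ p * MvPolynomial.X (Fin.natAdd n₁ j) ^ q) =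
      ℓ₁ i ^ p * ℓ₂ j ^ q := by
  rw [MvPolynomial.eval₂_mul, vap_eval₂_X_pow, vap_eval₂_X_pow, Fin.append_left,
    Fin.append_right]

variable [IsAlgClosed k] [CharZero k] [FiniteDimensional (RatFunc k) K]

lemma vap2_exists_minor {n : ℕ} {x x' : Projectivization k (Fin n → k)} (hx : x ≠ x') :
    ∃ i j, x.rep i * x'.rep j ≠ x.rep j * x'.rep i := by
  obtain ⟨i, hi⟩ := exists_coord_ne x
  refine ⟨i, ?_⟩
  by_contra hcon
  push Not at hcon
  apply hx
  rw [← x.mk_rep, ← x'.mk_rep]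
  rw [Projectivization.mk_eq_mk_iff']
  have hne' : x'.rep i ≠ 0 := by
    intro h0
    apply x'.rep_nonzero
    funext j
    have h1 := hcon j
    rw [h0, mul_zero] at h1
    exact (mul_eq_zero.mp h1).resolve_left hi
  refine ⟨x.rep i / x'.rep i, ?_⟩
  funext j
  rw [Pi.smul_apply, smul_eq_mul, div_mul_eq_mul_div, hcon j, mul_div_assoc,
    div_self hne', mul_one]

/-- One `R`-valued point: sections with a prescribed leading term. -/
lemma vap2_section_one {g₁ : Option k → Matrix (Fin n₁) (Fin n₁) K}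
    {g₂ : Option k → Matrix (Fin n₂) (Fin n₂) K} (hg : IsBundle fun a => bd (g₁ a) (g₂ a))
    {e d : ℕ} {τ : Option k → K} (hτ : IsTwist τ)
    (hV : Vanish₂ k K n₁ n₂ (fun a => bd (g₁ a) (g₂ a)) hg e d τ hτ)
    {R : Type} [CommRing R] [Algebra k R] [FiniteDimensional k R] {a : Option k}
    (θ : regRing k K a →ₐ[k] R) (ℓ₁ : Fin n₁ → R) (ℓ₂ : Fin n₂ → R) {m : ℕ}
    (hm : θ (unifB a) ^ m = 0) (hc : finrank k R ≤ 2)
    {T : MvPolynomial (Fin (n₁ + n₂)) (regRing k K a)}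
    (hT : T.IsHomogeneous (e + 1)) (hT' : T.IsWeightedHomogeneous (wt n₁ n₂) d) :
    ∃ s : Sec₂ k K n₁ n₂ (fun a => bd (g₁ a) (g₂ a)) e d τ,
      s.loc a - T ∈ Jmod e (splitΛ (evalKer θ ℓ₁) (evalKer θ ℓ₂)) := by
  obtain ⟨s, hs, -⟩ := exists_section₂ (condAt θ ℓ₁ (Conditions.top k K n₁) m 2 hm hc)
    (condAt θ ℓ₂ (Conditions.top k K n₂) m 2 hm hc) hg hτ
    (hV _ _ (condAt_top_sum θ ℓ₁ hm hc).le (condAt_top_sum θ ℓ₂ hm hc).le) a hT hT'
  have h1 : (splitC (condAt θ ℓ₁ (Conditions.top k K n₁) m 2 hm hc)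
      (condAt θ ℓ₂ (Conditions.top k K n₂) m 2 hm hc)).Λ a =
      splitΛ (evalKer θ ℓ₁) (evalKer θ ℓ₂) := by
    change splitΛ ((condAt θ ℓ₁ (Conditions.top k K n₁) m 2 hm hc).Λ a)
      ((condAt θ ℓ₂ (Conditions.top k K n₂) m 2 hm hc).Λ a) = _
    rw [condAt_Λ, condAt_Λ]
  rw [h1] at hs
  exact ⟨s, hs⟩

lemma vap2_cond_sum {n : ℕ} {a b : Option k} (hab : b ≠ a) (χ : regRing k K a →ₐ[k] k)
    (ℓ : Fin n → k) (χ' : regRing k K b →ₐ[k] k) (ℓ' : Fin n → k)
    (h1 : finrank k k ≤ 1) (hu : χ (unifB a) ^ 1 = 0) (hu' : χ' (unifB b) ^ 1 = 0) :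
    ∑ᶠ x, (condAt χ' ℓ' (condAt χ ℓ (Conditions.top k K n) 1 1 hu h1) 1 1 hu' h1).c x ≤ 2 := by
  classical
  set Q := condAt χ' ℓ' (condAt χ ℓ (Conditions.top k K n) 1 1 hu h1) 1 1 hu' h1 with hQ
  have h2 : ∑ᶠ x, Q.c x = ∑ x ∈ {a, b}, Q.c x := by
    apply finsum_eq_sum_of_support_subset
    intro x hx
    by_contra hcon
    simp only [Finset.coe_insert, Finset.coe_singleton, Set.mem_insert_iff,
      Set.mem_singleton_iff, not_or] at hcon
    apply hx
    rw [hQ, condAt_c_ne _ _ _ _ _ hcon.2, condAt_c_ne _ _ _ _ _ hcon.1]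
    rfl
  rw [h2, Finset.sum_pair hab.symm, hQ, condAt_c, condAt_c_ne _ _ _ _ _ hab.symm, condAt_c]

/-- Two points in different fibres over the line. -/
lemma vap2_section_two {g₁ : Option k → Matrix (Fin n₁) (Fin n₁) K}
    {g₂ : Option k → Matrix (Fin n₂) (Fin n₂) K} (hg : IsBundle fun a => bd (g₁ a) (g₂ a))
    {e d : ℕ} {τ : Option k → K} (hτ : IsTwist τ)
    (hV : Vanish₂ k K n₁ n₂ (fun a => bd (g₁ a) (g₂ a)) hg e d τ hτ)
    {a b : Option k} (hab : b ≠ a) (χ : regRing k K a →ₐ[k] k) (ℓ₁ : Fin n₁ → k)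
    (ℓ₂ : Fin n₂ → k) (χ' : regRing k K b →ₐ[k] k) (ℓ₁' : Fin n₁ → k) (ℓ₂' : Fin n₂ → k)
    {T : MvPolynomial (Fin (n₁ + n₂)) (regRing k K b)}
    (hT : T.IsHomogeneous (e + 1)) (hT' : T.IsWeightedHomogeneous (wt n₁ n₂) d) :
    ∃ s : Sec₂ k K n₁ n₂ (fun a => bd (g₁ a) (g₂ a)) e d τ,
      s.loc a ∈ Jmod e (splitΛ (evalKer χ ℓ₁) (evalKer χ ℓ₂)) ∧
      s.loc b - T ∈ Jmod e (splitΛ (evalKer χ' ℓ₁') (evalKer χ' ℓ₂')) := by
  classical
  have h1 : finrank k k ≤ 1 := (finrank_self k).le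
  have hu : χ (unifB a) ^ 1 = 0 := by rw [hom_unifB, pow_one]
  have hu' : χ' (unifB b) ^ 1 = 0 := by rw [hom_unifB, pow_one]
  obtain ⟨s, hs, hs'⟩ := exists_section₂
    (condAt χ' ℓ₁' (condAt χ ℓ₁ (Conditions.top k K n₁) 1 1 hu h1) 1 1 hu' h1)
    (condAt χ' ℓ₂' (condAt χ ℓ₂ (Conditions.top k K n₂) 1 1 hu h1) 1 1 hu' h1) hg hτ
    (hV _ _ (vap2_cond_sum hab χ ℓ₁ χ' ℓ₁' h1 hu hu') (vap2_cond_sum hab χ ℓ₂ χ' ℓ₂' h1 hu hu'))
    b hT hT'
  have hΛa : (splitC (condAt χ' ℓ₁' (condAt χ ℓ₁ (Conditions.top k K n₁) 1 1 hu h1) 1 1 hu' h1)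
      (condAt χ' ℓ₂' (condAt χ ℓ₂ (Conditions.top k K n₂) 1 1 hu h1) 1 1 hu' h1)).Λ a =
      splitΛ (evalKer χ ℓ₁) (evalKer χ ℓ₂) := by
    change splitΛ ((condAt χ' ℓ₁' (condAt χ ℓ₁ (Conditions.top k K n₁) 1 1 hu h1) 1 1 hu' h1).Λ a)
      ((condAt χ' ℓ₂' (condAt χ ℓ₂ (Conditions.top k K n₂) 1 1 hu h1) 1 1 hu' h1).Λ a) = _
    rw [condAt_Λ_ne _ _ _ _ _ hab.symm, condAt_Λ, condAt_Λ_ne _ _ _ _ _ hab.symm, condAt_Λ]
  have hΛb : (splitC (condAt χ' ℓ₁' (condAt χ ℓ₁ (Conditions.top k K n₁) 1 1 hu h1) 1 1 hu' h1)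
      (condAt χ' ℓ₂' (condAt χ ℓ₂ (Conditions.top k K n₂) 1 1 hu h1) 1 1 hu' h1)).Λ b =
      splitΛ (evalKer χ' ℓ₁') (evalKer χ' ℓ₂') := by
    change splitΛ ((condAt χ' ℓ₁' (condAt χ ℓ₁ (Conditions.top k K n₁) 1 1 hu h1) 1 1 hu' h1).Λ b)
      ((condAt χ' ℓ₂' (condAt χ ℓ₂ (Conditions.top k K n₂) 1 1 hu h1) 1 1 hu' h1).Λ b) = _
    rw [condAt_Λ, condAt_Λ]
  refine ⟨s, ?_, ?_⟩
  · have h2 := hs' a hab.symm
    rw [hΛa] at h2
    exact h2
  · rw [hΛb] at hs
    exact hs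

theorem sec_separates_points₂ {g₁ : Option k → Matrix (Fin n₁) (Fin n₁) K}
    {g₂ : Option k → Matrix (Fin n₂) (Fin n₂) K} (hg : IsBundle fun a => bd (g₁ a) (g₂ a))
    {e d : ℕ} (hd : 0 < d) (hd' : d ≤ e) {τ : Option k → K} (hτ : IsTwist τ)
    (hV : Vanish₂ k K n₁ n₂ (fun a => bd (g₁ a) (g₂ a)) hg e d τ hτ)
    (p p' : CurvePoint k K) (x₁ x₁' : Projectivization k (Fin n₁ → k))
    (x₂ x₂' : Projectivization k (Fin n₂ → k)) (hne : (p, x₁, x₂) ≠ (p', x₁', x₂')) :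
    ∃ s : Sec₂ k K n₁ n₂ (fun a => bd (g₁ a) (g₂ a)) e d τ,
      s.value p.2 x₁.rep x₂.rep = 0 ∧ s.value p'.2 x₁'.rep x₂'.rep ≠ 0 := by
  obtain ⟨a, χ⟩ := p
  obtain ⟨b, χ'⟩ := p'
  obtain ⟨i₁, hi₁⟩ := exists_coord_ne x₁'
  obtain ⟨i₂, hi₂⟩ := exists_coord_ne x₂'
  by_cases hab : b = a
  · subst hab
    set θ : regRing k K b →ₐ[k] (k × k) := χ.prod χ' with hθ
    set ℓ₁ : Fin n₁ → k × k := fun i => (x₁.rep i, x₁'.rep i) with hℓ₁
    set ℓ₂ : Fin n₂ → k × k := fun i => (x₂.rep i, x₂'.rep i) with hℓ₂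
    have hu : θ (unifB b) ^ 1 = 0 := by
      rw [pow_one, hθ, AlgHom.prod_apply, hom_unifB, hom_unifB]
      rfl
    have hle₁ : evalKer θ ℓ₁ ≤ evalKer χ x₁.rep := by
      intro v hv
      rw [mem_evalKer] at hv ⊢
      have := congrArg Prod.fst hv
      rw [Prod.fst_sum] at this
      exact this
    have hle₁' : evalKer θ ℓ₁ ≤ evalKer χ' x₁'.rep := by
      intro v hv
      rw [mem_evalKer] at hv ⊢
      have := congrArg Prod.snd hv
      rw [Prod.snd_sum] at this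
      exact this
    have hle₂ : evalKer θ ℓ₂ ≤ evalKer χ x₂.rep := by
      intro v hv
      rw [mem_evalKer] at hv ⊢
      have := congrArg Prod.fst hv
      rw [Prod.fst_sum] at this
      exact this
    have hle₂' : evalKer θ ℓ₂ ≤ evalKer χ' x₂'.rep := by
      intro v hv
      rw [mem_evalKer] at hv ⊢
      have := congrArg Prod.snd hv
      rw [Prod.snd_sum] at this
      exact this
    have hle := vap2_split_le χ x₁.rep x₂.rep hle₁ hle₂
    have hle' := vap2_split_le χ' x₁'.rep x₂'.rep hle₁' hle₂'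
    have hfr : finrank k (k × k) ≤ 2 := by
      rw [Module.finrank_prod, finrank_self]
    by_cases hχ : χ = χ'
    · subst hχ
      by_cases hx : x₁ = x₁'
      · have hx2 : x₂ ≠ x₂' := by
          rintro rfl
          exact hne (by rw [hx])
        obtain ⟨i, j, hij⟩ := vap2_exists_minor hx2
        obtain ⟨s, hs⟩ := vap2_section_one (d := d) hg hτ hV θ ℓ₁ ℓ₂ hu hfr
          (T := vap2_diff b (x₂.rep i) (x₂.rep j) (Fin.natAdd n₁ j) (Fin.natAdd n₁ i) *
            (MvPolynomial.X (Fin.castAdd n₂ i₁) ^ d * MvPolynomial.X (Fin.natAdd n₁ i₂) ^ (e - d)))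
          (by
            have h := (vap2_diff_isHomogeneous (K := K) b (x₂.rep i) (x₂.rep j)
              (Fin.natAdd n₁ j) (Fin.natAdd n₁ i)).mul
              (vap2_X_isHomogeneous (R := regRing k K b) i₁ i₂ d (e - d))
            rwa [show 1 + (d + (e - d)) = e + 1 by omega] at h)
          (by
            have h := (vap2_diff_isWeighted_right (K := K) (n₁ := n₁) b (x₂.rep i) (x₂.rep j)
              j i).mul (vap2_X_isWeighted (R := regRing k K b) i₁ i₂ d (e - d))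
            rwa [zero_add] at h)
        refine ⟨s, ?_, ?_⟩
        · change MvPolynomial.eval₂ (χ : regRing k K b →+* k) (Fin.append x₁.rep x₂.rep)
            (s.loc b) = 0
          rw [vap_value_of_sub χ _ hle hs, MvPolynomial.eval₂_mul, vap2_eval₂_diff,
            Fin.append_right, Fin.append_right]
          ring
        · change MvPolynomial.eval₂ (χ : regRing k K b →+* k) (Fin.append x₁'.rep x₂'.rep)
            (s.loc b) ≠ 0
          rw [vap_value_of_sub χ _ hle' hs, MvPolynomial.eval₂_mul, vap2_eval₂_diff,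
            Fin.append_right, Fin.append_right, vap2_eval₂_X]
          exact mul_ne_zero (sub_ne_zero.mpr hij)
            (mul_ne_zero (pow_ne_zero _ hi₁) (pow_ne_zero _ hi₂))
      · obtain ⟨i, j, hij⟩ := vap2_exists_minor hx
        obtain ⟨s, hs⟩ := vap2_section_one (d := d) hg hτ hV θ ℓ₁ ℓ₂ hu hfr
          (T := vap2_diff b (x₁.rep i) (x₁.rep j) (Fin.castAdd n₂ j) (Fin.castAdd n₂ i) *
            (MvPolynomial.X (Fin.castAdd n₂ i₁) ^ (d - 1) *
              MvPolynomial.X (Fin.natAdd n₁ i₂) ^ (e + 1 - d)))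
          (by
            have h := (vap2_diff_isHomogeneous (K := K) b (x₁.rep i) (x₁.rep j)
              (Fin.castAdd n₂ j) (Fin.castAdd n₂ i)).mul
              (vap2_X_isHomogeneous (R := regRing k K b) i₁ i₂ (d - 1) (e + 1 - d))
            rwa [show 1 + (d - 1 + (e + 1 - d)) = e + 1 by omega] at h)
          (by
            have h := (vap2_diff_isWeighted_left (K := K) (n₂ := n₂) b (x₁.rep i) (x₁.rep j)
              j i).mul (vap2_X_isWeighted (R := regRing k K b) i₁ i₂ (d - 1) (e + 1 - d))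
            rwa [show 1 + (d - 1) = d by omega] at h)
        refine ⟨s, ?_, ?_⟩
        · change MvPolynomial.eval₂ (χ : regRing k K b →+* k) (Fin.append x₁.rep x₂.rep)
            (s.loc b) = 0
          rw [vap_value_of_sub χ _ hle hs, MvPolynomial.eval₂_mul, vap2_eval₂_diff,
            Fin.append_left, Fin.append_left]
          ring
        · change MvPolynomial.eval₂ (χ : regRing k K b →+* k) (Fin.append x₁'.rep x₂'.rep)
            (s.loc b) ≠ 0
          rw [vap_value_of_sub χ _ hle' hs, MvPolynomial.eval₂_mul, vap2_eval₂_diff,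
            Fin.append_left, Fin.append_left, vap2_eval₂_X]
          exact mul_ne_zero (sub_ne_zero.mpr hij)
            (mul_ne_zero (pow_ne_zero _ hi₁) (pow_ne_zero _ hi₂))
    · obtain ⟨f, hf⟩ : ∃ f, χ f ≠ χ' f := by
        by_contra hcon
        push Not at hcon
        exact hχ (AlgHom.ext hcon)
      obtain ⟨s, hs⟩ := vap2_section_one (d := d) hg hτ hV θ ℓ₁ ℓ₂ hu hfr
        (T := MvPolynomial.C (f - algebraMap k (regRing k K b) (χ f)) *
            (MvPolynomial.X (Fin.castAdd n₂ i₁) ^ d *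
              MvPolynomial.X (Fin.natAdd n₁ i₂) ^ (e + 1 - d)))
        (by
          have h := vap_C_mul_isHomogeneous (f - algebraMap k (regRing k K b) (χ f))
            (vap2_X_isHomogeneous (R := regRing k K b) i₁ i₂ d (e + 1 - d))
          rwa [show d + (e + 1 - d) = e + 1 by omega] at h)
        ((vap2_X_isWeighted (R := regRing k K b) i₁ i₂ d (e + 1 - d)).C_mul _)
      have hval : ∀ (ψ : regRing k K b →ₐ[k] k) (l₁ : Fin n₁ → k) (l₂ : Fin n₂ → k),
          MvPolynomial.eval₂ (ψ : regRing k K b →+* k) (Fin.append l₁ l₂)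
            (MvPolynomial.C (f - algebraMap k (regRing k K b) (χ f)) *
              (MvPolynomial.X (Fin.castAdd n₂ i₁) ^ d *
                MvPolynomial.X (Fin.natAdd n₁ i₂) ^ (e + 1 - d))) =
            (ψ f - χ f) * (l₁ i₁ ^ d * l₂ i₂ ^ (e + 1 - d)) := by
        intro ψ l₁ l₂
        rw [MvPolynomial.eval₂_mul, vap2_eval₂_X, MvPolynomial.eval₂_C]
        congr 1
        change ψ (f - algebraMap k (regRing k K b) (χ f)) = _
        rw [map_sub, AlgHom.commutes]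
        rfl
      refine ⟨s, ?_, ?_⟩
      · change MvPolynomial.eval₂ (χ : regRing k K b →+* k) (Fin.append x₁.rep x₂.rep)
            (s.loc b) = 0
        rw [vap_value_of_sub χ _ hle hs, hval, sub_self, zero_mul]
      · change MvPolynomial.eval₂ (χ' : regRing k K b →+* k) (Fin.append x₁'.rep x₂'.rep)
            (s.loc b) ≠ 0
        rw [vap_value_of_sub χ' _ hle' hs, hval]
        exact mul_ne_zero (sub_ne_zero.mpr fun h => hf h.symm)
          (mul_ne_zero (pow_ne_zero _ hi₁) (pow_ne_zero _ hi₂))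
  · obtain ⟨s, hs, hs'⟩ := vap2_section_two (d := d) hg hτ hV hab χ x₁.rep x₂.rep χ' x₁'.rep
      x₂'.rep
      (T := MvPolynomial.X (Fin.castAdd n₂ i₁) ^ d *
        MvPolynomial.X (Fin.natAdd n₁ i₂) ^ (e + 1 - d))
      (by
        have h := vap2_X_isHomogeneous (R := regRing k K b) i₁ i₂ d (e + 1 - d)
        rwa [show d + (e + 1 - d) = e + 1 by omega] at h)
      (vap2_X_isWeighted (R := regRing k K b) i₁ i₂ d (e + 1 - d))
    refine ⟨s, ?_, ?_⟩
    · exact eval₂_Jmod χ (Fin.append x₁.rep x₂.rep)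
        (vap2_split_le χ x₁.rep x₂.rep le_rfl le_rfl) hs
    · change MvPolynomial.eval₂ (χ' : regRing k K b →+* k) (Fin.append x₁'.rep x₂'.rep)
        (s.loc b) ≠ 0
      rw [vap_value_of_sub χ' _ (vap2_split_le χ' x₁'.rep x₂'.rep le_rfl le_rfl) hs',
        vap2_eval₂_X]
      exact mul_ne_zero (pow_ne_zero _ hi₁) (pow_ne_zero _ hi₂)

end

end Pool.Agent.FJ2
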