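import Pool.Agent.FJ2.SEC

/-!
# FJ2: sections separate tangent vectors
-/

set_option linter.unusedSectionVars false

namespace Pool.Agent.FJ2

open Pool.Agent.Helper38.Scroll Pool.Agent.FJ Matrix Module

section

variable {k K : Type} [Field k] [Field K] [Algebra (RatFunc k) K] [Algebra k K]
  [IsScalarTower k (RatFunc k) K] {n₁ n₂ : ℕ}

lemma vat_whX₁ {R : Type} [CommRing R] (i : Fin n₁) (m : ℕ) :
    (MvPolynomial.X (Fin.castAdd n₂ i) ^ m : MvPolynomial (Fin (n₁ + n₂)) R).IsWeightedHomogeneous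
      (wt n₁ n₂) m := by
  have h := (MvPolynomial.isWeightedHomogeneous_X R (wt n₁ n₂) (Fin.castAdd n₂ i)).pow m
  have h2 : wt n₁ n₂ (Fin.castAdd n₂ i) = 1 := by simp [wt]
  rw [h2, smul_eq_mul, mul_one] at h
  exact h

lemma vat_whX₂ {R : Type} [CommRing R] (i : Fin n₂) (m : ℕ) :
    (MvPolynomial.X (Fin.natAdd n₁ i) ^ m : MvPolynomial (Fin (n₁ + n₂)) R).IsWeightedHomogeneous
      (wt n₁ n₂) 0 := by
  have h := (MvPolynomial.isWeightedHomogeneous_X R (wt n₁ n₂) (Fin.natAdd n₁ i)).pow m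
  have h2 : wt n₁ n₂ (Fin.natAdd n₁ i) = 0 := by simp [wt]
  rw [h2, smul_eq_mul, mul_zero] at h
  exact h

lemma vat_whC {R : Type} [CommRing R] (c : R) {P : MvPolynomial (Fin (n₁ + n₂)) R}
    {m : ℕ} (hP : P.IsWeightedHomogeneous (wt n₁ n₂) m) :
    (MvPolynomial.C c * P).IsWeightedHomogeneous (wt n₁ n₂) m := by
  have h := (MvPolynomial.isWeightedHomogeneous_C (wt n₁ n₂) c).mul hP
  rwa [zero_add] at h

/-- the test forms with a linear factor -/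
noncomputable def vatForm {R : Type} [CommRing R] (α β : R) (p q i j : Fin (n₁ + n₂)) (m m' : ℕ) :
    MvPolynomial (Fin (n₁ + n₂)) R :=
  (MvPolynomial.C α * MvPolynomial.X p ^ 1 - MvPolynomial.C β * MvPolynomial.X q ^ 1) *
    (MvPolynomial.X i ^ m * MvPolynomial.X j ^ m')

lemma vatForm_hom {R : Type} [CommRing R] (α β : R) (p q i j : Fin (n₁ + n₂)) (m m' e : ℕ)
    (he : m + m' = e) : (vatForm α β p q i j m m').IsHomogeneous (e + 1) := by
  have h1 := (vap_C_mul_isHomogeneous α (vap_X_pow_isHomogeneous (R := R) p 1)).sub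
    (vap_C_mul_isHomogeneous β (vap_X_pow_isHomogeneous (R := R) q 1))
  have h2 := h1.mul ((vap_X_pow_isHomogeneous (R := R) i m).mul
    (vap_X_pow_isHomogeneous (R := R) j m'))
  rw [he, add_comm 1 e] at h2
  exact h2

variable [IsAlgClosed k] [CharZero k] [FiniteDimensional (RatFunc k) K]

lemma vat_evalKer_le {R : Type} [CommRing R] [Algebra k R] {a : Option k}
    (θ : regRing k K a →ₐ[k] R) (ℓ₁ : Fin n₁ → R) (ℓ₂ : Fin n₂ → R) :
    splitΛ (evalKer θ ℓ₁) (evalKer θ ℓ₂) ≤ evalKer θ (Fin.append ℓ₁ ℓ₂) := by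
  intro v hv
  rw [mem_splitΛ, mem_evalKer, mem_evalKer] at hv
  rw [mem_evalKer, Fin.sum_univ_add]
  simp only [Fin.append_left, Fin.append_right]
  rw [hv.1, hv.2, add_zero]

lemma vat_section {g₁ : Option k → Matrix (Fin n₁) (Fin n₁) K}
    {g₂ : Option k → Matrix (Fin n₂) (Fin n₂) K} (hg : IsBundle fun a => bd (g₁ a) (g₂ a))
    {e d : ℕ} {τ : Option k → K} (hτ : IsTwist τ)
    (hV : Vanish₂ k K n₁ n₂ (fun a => bd (g₁ a) (g₂ a)) hg e d τ hτ)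
    {R : Type} [CommRing R] [Algebra k R] [FiniteDimensional k R] {a : Option k}
    (θ : regRing k K a →ₐ[k] R) (ℓ₁ : Fin n₁ → R) (ℓ₂ : Fin n₂ → R) {m : ℕ}
    (hm : θ (unifB a) ^ m = 0) (hc : finrank k R ≤ 2)
    {T : MvPolynomial (Fin (n₁ + n₂)) (regRing k K a)}
    (hT : T.IsHomogeneous (e + 1)) (hT' : T.IsWeightedHomogeneous (wt n₁ n₂) d) :
    ∃ s : Sec₂ k K n₁ n₂ (fun a => bd (g₁ a) (g₂ a)) e d τ, s.value θ ℓ₁ ℓ₂ =
      MvPolynomial.eval₂ (θ : regRing k K a →+* R) (Fin.append ℓ₁ ℓ₂) T := by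
  obtain ⟨s, hs, -⟩ := exists_section₂ (condAt θ ℓ₁ (Conditions.top k K n₁) m 2 hm hc)
    (condAt θ ℓ₂ (Conditions.top k K n₂) m 2 hm hc) hg hτ
    (hV _ _ (condAt_top_sum θ ℓ₁ hm hc).le (condAt_top_sum θ ℓ₂ hm hc).le) a hT hT'
  have h1 : (splitC (condAt θ ℓ₁ (Conditions.top k K n₁) m 2 hm hc)
      (condAt θ ℓ₂ (Conditions.top k K n₂) m 2 hm hc)).Λ a =
      splitΛ (evalKer θ ℓ₁) (evalKer θ ℓ₂) := by
    show splitΛ _ _ = _
    rw [condAt_Λ, condAt_Λ]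
  rw [h1] at hs
  exact ⟨s, vap_value_of_sub θ (Fin.append ℓ₁ ℓ₂) (vat_evalKer_le θ ℓ₁ ℓ₂) hs⟩

lemma vatForm_eval {a : Option k} (θ : regRing k K a →ₐ[k] DualNumber k)
    (ℓ : Fin (n₁ + n₂) → DualNumber k) (α β : k) (p q i j : Fin (n₁ + n₂)) (m m' : ℕ) :
    MvPolynomial.eval₂ (θ : regRing k K a →+* DualNumber k) ℓ
      (vatForm (algebraMap k (regRing k K a) α) (algebraMap k (regRing k K a) β) p q i j m m') =
      (α • ℓ p - β • ℓ q) * (ℓ i ^ m * ℓ j ^ m') := by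
  have h1 : ∀ c : k, (θ : regRing k K a →+* DualNumber k) (algebraMap k (regRing k K a) c) =
      algebraMap k (DualNumber k) c := fun c => θ.commutes c
  rw [vatForm, MvPolynomial.eval₂_mul, MvPolynomial.eval₂_mul, MvPolynomial.eval₂_sub,
    MvPolynomial.eval₂_mul, MvPolynomial.eval₂_mul, MvPolynomial.eval₂_C, MvPolynomial.eval₂_C,
    vap_eval₂_X_pow, vap_eval₂_X_pow, vap_eval₂_X_pow, vap_eval₂_X_pow, h1, h1, pow_one, pow_one,
    Algebra.smul_def, Algebra.smul_def]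

lemma vat_value (x y z w : DualNumber k) (m m' : ℕ)
    (h1 : x.fst * y.snd ≠ y.fst * x.snd) (hz : z.fst ≠ 0) (hw : w.fst ≠ 0) :
    (((x.fst • y - y.fst • x) * (z ^ m * w ^ m')).fst = 0) ∧
      ((x.fst • y - y.fst • x) * (z ^ m * w ^ m')).snd ≠ 0 := by
  constructor
  · simp only [TrivSqZeroExt.fst_mul, TrivSqZeroExt.fst_sub, TrivSqZeroExt.fst_smul,
      smul_eq_mul]
    ring
  · have h2 : (z ^ m * w ^ m').fst = z.fst ^ m * w.fst ^ m' := by
      rw [TrivSqZeroExt.fst_mul, vat_fst_pow, vat_fst_pow]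
    have h3 : ((x.fst • y - y.fst • x) * (z ^ m * w ^ m')).snd =
        (x.fst * y.snd - y.fst * x.snd) * (z.fst ^ m * w.fst ^ m') := by
      rw [TrivSqZeroExt.snd_mul, h2]
      simp only [TrivSqZeroExt.fst_sub, TrivSqZeroExt.fst_smul, TrivSqZeroExt.snd_sub,
        TrivSqZeroExt.snd_smul, smul_eq_mul, MulOpposite.smul_eq_mul_unop, MulOpposite.unop_op]
      ring
    rw [h3]
    exact mul_ne_zero (sub_ne_zero.mpr h1) (mul_ne_zero (pow_ne_zero _ hz) (pow_ne_zero _ hw))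

lemma vat_exists {n : ℕ} (ℓ : Fin n → DualNumber k) {i : Fin n} (hi : (ℓ i).fst ≠ 0)
    (h : ¬ ∃ c : k, ∀ i, (ℓ i).snd = c * (ℓ i).fst) :
    ∃ j, (ℓ i).fst * (ℓ j).snd ≠ (ℓ j).fst * (ℓ i).snd := by
  by_contra hcon
  push Not at hcon
  apply h
  refine ⟨(ℓ i).snd / (ℓ i).fst, fun j => ?_⟩
  rw [div_mul_eq_mul_div, eq_div_iff hi]
  linear_combination hcon j

theorem sec_separates_tangents₂ {g₁ : Option k → Matrix (Fin n₁) (Fin n₁) K}
    {g₂ : Option k → Matrix (Fin n₂) (Fin n₂) K} (hg : IsBundle fun a => bd (g₁ a) (g₂ a))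
    {e d : ℕ} (hd : 0 < d) (hd' : d ≤ e) {τ : Option k → K} (hτ : IsTwist τ)
    (hV : Vanish₂ k K n₁ n₂ (fun a => bd (g₁ a) (g₂ a)) hg e d τ hτ)
    (a : Option k) (θ : regRing k K a →ₐ[k] DualNumber k)
    (ℓ₁ : Fin n₁ → DualNumber k) (ℓ₂ : Fin n₂ → DualNumber k)
    (hℓ₁ : ∃ i, (ℓ₁ i).fst ≠ 0) (hℓ₂ : ∃ i, (ℓ₂ i).fst ≠ 0)
    (hne : ¬ ((∀ b, (θ b).snd = 0) ∧ (∃ c : k, ∀ i, (ℓ₁ i).snd = c * (ℓ₁ i).fst) ∧
      ∃ c : k, ∀ i, (ℓ₂ i).snd = c * (ℓ₂ i).fst)) :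
    ∃ s : Sec₂ k K n₁ n₂ (fun a => bd (g₁ a) (g₂ a)) e d τ,
      (s.value θ ℓ₁ ℓ₂).fst = 0 ∧ (s.value θ ℓ₁ ℓ₂).snd ≠ 0 := by
  have hfin : FiniteDimensional k (DualNumber k) :=
    inferInstanceAs (FiniteDimensional k (k × k))
  have hfr : finrank k (DualNumber k) ≤ 2 := by
    have h1 : finrank k (DualNumber k) = finrank k (k × k) := rfl
    rw [h1, Module.finrank_prod, finrank_self]
  have hu1 : (θ (unifB a)).fst = 0 :=
    hom_unifB ((TrivSqZeroExt.fstHom k k k).comp θ)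
  have hu : θ (unifB a) ^ 2 = 0 := by
    rw [pow_two]
    ext
    · rw [TrivSqZeroExt.fst_mul, hu1, mul_zero]; rfl
    · rw [TrivSqZeroExt.snd_mul, hu1]; simp
  obtain ⟨i, hi⟩ := hℓ₁
  obtain ⟨j, hj⟩ := hℓ₂
  by_cases hθ : ∀ b, (θ b).snd = 0
  · by_cases h1 : ∃ c : k, ∀ i, (ℓ₁ i).snd = c * (ℓ₁ i).fst
    · have h2 : ¬ ∃ c : k, ∀ i, (ℓ₂ i).snd = c * (ℓ₂ i).fst := fun h => hne ⟨hθ, h1, h⟩
      obtain ⟨p, hp⟩ := vat_exists ℓ₂ hj h2
      obtain ⟨s, hs⟩ := vat_section hg hτ hV θ ℓ₁ ℓ₂ hu hfr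
        (vatForm_hom (algebraMap k (regRing k K a) (ℓ₂ j).fst)
          (algebraMap k (regRing k K a) (ℓ₂ p).fst) (Fin.natAdd n₁ p) (Fin.natAdd n₁ j)
          (Fin.castAdd n₂ i) (Fin.natAdd n₁ j) d (e - d) e (by omega)) (by
        have h3 := (((vat_whC (algebraMap k (regRing k K a) (ℓ₂ j).fst)
          (vat_whX₂ (n₁ := n₁) p 1)).sub
          (vat_whC (algebraMap k (regRing k K a) (ℓ₂ p).fst) (vat_whX₂ (n₁ := n₁) j 1))).mul
          ((vat_whX₁ (n₂ := n₂) i d).mul (vat_whX₂ (n₁ := n₁) j (e - d))))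
        rw [add_zero, zero_add] at h3
        exact h3)
      rw [vatForm_eval] at hs
      simp only [Fin.append_left, Fin.append_right] at hs
      refine ⟨s, ?_⟩
      rw [hs]
      exact vat_value (ℓ₂ j) (ℓ₂ p) (ℓ₁ i) (ℓ₂ j) d (e - d) hp hi hj
    · obtain ⟨p, hp⟩ := vat_exists ℓ₁ hi h1
      obtain ⟨s, hs⟩ := vat_section hg hτ hV θ ℓ₁ ℓ₂ hu hfr
        (vatForm_hom (algebraMap k (regRing k K a) (ℓ₁ i).fst)
          (algebraMap k (regRing k K a) (ℓ₁ p).fst) (Fin.castAdd n₂ p) (Fin.castAdd n₂ i)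
          (Fin.castAdd n₂ i) (Fin.natAdd n₁ j) (d - 1) (e + 1 - d) e (by omega)) (by
        have h3 := (((vat_whC (algebraMap k (regRing k K a) (ℓ₁ i).fst)
          (vat_whX₁ (n₂ := n₂) p 1)).sub
          (vat_whC (algebraMap k (regRing k K a) (ℓ₁ p).fst) (vat_whX₁ (n₂ := n₂) i 1))).mul
          ((vat_whX₁ (n₂ := n₂) i (d - 1)).mul (vat_whX₂ (n₁ := n₁) j (e + 1 - d))))
        rw [add_zero, show 1 + (d - 1) = d by omega] at h3
        exact h3)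
      rw [vatForm_eval] at hs
      simp only [Fin.append_left, Fin.append_right] at hs
      refine ⟨s, ?_⟩
      rw [hs]
      exact vat_value (ℓ₁ i) (ℓ₁ p) (ℓ₁ i) (ℓ₂ j) (d - 1) (e + 1 - d) hp hi hj
  · push Not at hθ
    obtain ⟨f, hf⟩ := hθ
    obtain ⟨s, hs⟩ := vat_section hg hτ hV θ ℓ₁ ℓ₂ hu hfr
      (T := MvPolynomial.C (f - algebraMap k (regRing k K a) (θ f).fst) *
        (MvPolynomial.X (Fin.castAdd n₂ i) ^ d * MvPolynomial.X (Fin.natAdd n₁ j) ^ (e + 1 - d)))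
      (by
        have h3 := vap_C_mul_isHomogeneous (f - algebraMap k (regRing k K a) (θ f).fst)
          ((vap_X_pow_isHomogeneous (R := regRing k K a) (Fin.castAdd n₂ i) d).mul
          (vap_X_pow_isHomogeneous (R := regRing k K a) (Fin.natAdd n₁ j) (e + 1 - d)))
        rw [show d + (e + 1 - d) = e + 1 by omega] at h3
        exact h3) (by
        have h3 := vat_whC (f - algebraMap k (regRing k K a) (θ f).fst)
          ((vat_whX₁ (R := regRing k K a) (n₂ := n₂) i d).mul (vat_whX₂ (n₁ := n₁) j (e + 1 - d)))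
        rw [add_zero] at h3
        exact h3)
    have hval : s.value θ ℓ₁ ℓ₂ = (θ f - algebraMap k (DualNumber k) (θ f).fst) *
        (ℓ₁ i ^ d * ℓ₂ j ^ (e + 1 - d)) := by
      rw [hs, MvPolynomial.eval₂_mul, MvPolynomial.eval₂_mul, vap_eval₂_X_pow, vap_eval₂_X_pow,
        MvPolynomial.eval₂_C, Fin.append_left, Fin.append_right]
      congr 1
      change θ (f - algebraMap k (regRing k K a) (θ f).fst) = _
      rw [map_sub, AlgHom.commutes]
    have h0 : algebraMap k (DualNumber k) (θ f).fst = TrivSqZeroExt.inl (θ f).fst := rfl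
    refine ⟨s, ?_, ?_⟩
    · rw [hval, h0]
      simp
    · rw [hval, h0]
      have h2 : (ℓ₁ i ^ d * ℓ₂ j ^ (e + 1 - d)).fst =
          (ℓ₁ i).fst ^ d * (ℓ₂ j).fst ^ (e + 1 - d) := by
        rw [TrivSqZeroExt.fst_mul, vat_fst_pow, vat_fst_pow]
      rw [TrivSqZeroExt.snd_mul, h2]
      simp only [TrivSqZeroExt.fst_sub,
        TrivSqZeroExt.snd_sub, smul_eq_mul, TrivSqZeroExt.fst_inl, TrivSqZeroExt.snd_inl,
        MulOpposite.smul_eq_mul_unop, MulOpposite.unop_op, sub_self, zero_mul, sub_zero,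
        zero_add]
      exact mul_ne_zero hf (mul_ne_zero (pow_ne_zero _ hi) (pow_ne_zero _ hj))

end

end Pool.Agent.FJ2
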